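import Mathlib
import Pool.Agent.W307.RT.RAT1
import Pool.Agent.W583.RT.FSB
import Pool.Agent.W655.RK.Full

/-!
# Weights `∏_{p ∣ d} w (1 + (D / p)) / (p - c)`
-/

namespace Pool.Agent.V7H45.G8

open Finset Pool.Agent.W262.RK Pool.Agent.W307.RT

/-- `∏_{p ∣ d} w (1 + (D / p)) / (p - c)` -/
noncomputable def gr (D : ℤ) (w : ℝ) (c d : ℕ) : ℝ :=
  ∏ p ∈ d.primeFactors, w * (1 + Jr D p) / ((p : ℝ) - c)

lemma gr_one (D : ℤ) (w : ℝ) (c : ℕ) : gr D w c 1 = 1 := by simp [gr]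

lemma one_add_Jr_nonneg (D : ℤ) (p : ℕ) : 0 ≤ 1 + Jr D p := by
  have := (abs_le.1 (abs_Jr_le D p)).1
  linarith

lemma one_add_Jr_le (D : ℤ) (p : ℕ) : 1 + Jr D p ≤ 2 := by
  have := (abs_le.1 (abs_Jr_le D p)).2
  linarith

lemma gr_nonneg {D : ℤ} {w : ℝ} {c z y d : ℕ} (hw : 0 ≤ w) (hz : c ≤ z)
    (hd : d ∈ (PP z y).divisors) : 0 ≤ gr D w c d := by
  unfold gr
  apply prod_nonneg
  intro p hp
  have h1 := (dv_prime hd (Nat.prime_of_mem_primeFactors hp) (Nat.dvd_of_mem_primeFactors hp)).1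
  have h2 : (c : ℝ) < p := by exact_mod_cast lt_of_le_of_lt hz h1
  apply div_nonneg (mul_nonneg hw (one_add_Jr_nonneg D p))
  linarith

/-- comparison with the weights without characters -/
lemma gr_le_gw {D : ℤ} {w : ℝ} {c z y d : ℕ} (hw : 0 ≤ w) (hz : c ≤ z)
    (hd : d ∈ (PP z y).divisors) : gr D w c d ≤ gw (2 * w) c d := by
  unfold gr gw
  apply prod_le_prod
  · intro p hp
    have h1 := (dv_prime hd (Nat.prime_of_mem_primeFactors hp) (Nat.dvd_of_mem_primeFactors hp)).1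
    have h2 : (c : ℝ) < p := by exact_mod_cast lt_of_le_of_lt hz h1
    apply div_nonneg (mul_nonneg hw (one_add_Jr_nonneg D p))
    linarith
  · intro p hp
    have h1 := (dv_prime hd (Nat.prime_of_mem_primeFactors hp) (Nat.dvd_of_mem_primeFactors hp)).1
    have h2 : (c : ℝ) < p := by exact_mod_cast lt_of_le_of_lt hz h1
    apply div_le_div_of_nonneg_right _ (by linarith)
    have := one_add_Jr_le D p
    nlinarith

lemma gr_hA {D : ℤ} {w : ℝ} (hw : 0 ≤ w) {c A z y m : ℕ} (hz : c + A ≤ z)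
    (hm : m ∈ (PP z y).divisors) : gr D w c m * hA A m ≤ gr D w (c + A) m := by
  unfold gr hA
  rw [← prod_mul_distrib]
  apply prod_le_prod
  · intro p hp
    have h1 := (dv_prime hm (Nat.prime_of_mem_primeFactors hp) (Nat.dvd_of_mem_primeFactors hp)).1
    have h2 : (c : ℝ) < p := by exact_mod_cast (by omega : c < p)
    have h3 : 0 ≤ w * (1 + Jr D p) / ((p : ℝ) - c) :=
      div_nonneg (mul_nonneg hw (one_add_Jr_nonneg D p)) (by linarith)
    exact mul_nonneg h3 (zero_le_one.trans (one_le_fac A p))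
  · intro p hp
    have h1 := (dv_prime hm (Nat.prime_of_mem_primeFactors hp) (Nat.dvd_of_mem_primeFactors hp)).1
    have h2 : (c : ℝ) + A < p := by exact_mod_cast (by omega : c + A < p)
    have hA0 : (0 : ℝ) ≤ A := Nat.cast_nonneg A
    have hc0 : (0 : ℝ) ≤ c := Nat.cast_nonneg c
    have h3 : (0 : ℝ) < (p : ℝ) - c := by linarith
    have h4 : (0 : ℝ) < (p : ℝ) - ((c + A : ℕ) : ℝ) := by push_cast; linarith
    have h5 : (0 : ℝ) < p := by linarith
    have hw' : 0 ≤ w * (1 + Jr D p) := mul_nonneg hw (one_add_Jr_nonneg D p)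
    set W := w * (1 + Jr D p) with hW
    have h6 : W / ((p : ℝ) - c) * (1 + (A : ℝ) / (p : ℝ)) =
        W * ((p + A) / (((p : ℝ) - c) * p)) := by
      field_simp
    rw [h6, div_eq_mul_one_div W ((p : ℝ) - ((c + A : ℕ) : ℝ))]
    apply mul_le_mul_of_nonneg_left _ hw'
    rw [div_le_div_iff₀ (by positivity) h4]
    push_cast
    nlinarith [mul_nonneg hA0 hA0, mul_nonneg hA0 hc0]

/-- the weights as weights without characters times a multiplicative function -/
lemma gr_eq (D : ℤ) (w : ℝ) (c d : ℕ) :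
    gr D w c d = gw (2 * w) c d * ∏ p ∈ d.primeFactors, (1 + Jr D p) / 2 := by
  unfold gr gw
  rw [← prod_mul_distrib]
  apply prod_congr rfl
  intro p _
  ring

/-- `gr ≤ hA (2 c) / d` for `w ≤ 1 / 2` -/
lemma gr_le_hA_div {D : ℤ} {w : ℝ} {c z y d : ℕ} (hw : 0 ≤ w) (hw2 : w ≤ 1 / 2) (hz : 2 * c ≤ z)
    (hd : d ∈ (PP z y).divisors) : gr D w c d ≤ hA (2 * c) d / (d : ℝ) := by
  have hsq := dv_squarefree hd
  have h0 : (1 : ℝ) / d = ∏ p ∈ d.primeFactors, (1 / (p : ℝ)) := by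
    rw [prod_div_distrib, prod_const_one]
    congr 1
    rw [← Nat.cast_prod, Nat.prod_primeFactors_of_squarefree hsq]
  rw [div_eq_mul_one_div, h0]
  unfold gr hA
  rw [← prod_mul_distrib]
  apply prod_le_prod
  · intro p hp
    have h1 := (dv_prime hd (Nat.prime_of_mem_primeFactors hp) (Nat.dvd_of_mem_primeFactors hp)).1
    have h2 : (c : ℝ) < p := by exact_mod_cast lt_of_le_of_lt (by omega : c ≤ z) h1
    apply div_nonneg (mul_nonneg hw (one_add_Jr_nonneg D p))
    linarith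
  · intro p hp
    have h1 := (dv_prime hd (Nat.prime_of_mem_primeFactors hp) (Nat.dvd_of_mem_primeFactors hp)).1
    have h2 : 2 * (c : ℝ) < p := by exact_mod_cast lt_of_le_of_lt hz h1
    have hc0 : (0 : ℝ) ≤ c := Nat.cast_nonneg c
    have h3 : (0 : ℝ) < p := by linarith
    have h4 : (0 : ℝ) < (p : ℝ) - c := by linarith
    have h5 : w * (1 + Jr D p) ≤ 1 := by
      have := one_add_Jr_le D p
      have := one_add_Jr_nonneg D p
      nlinarith
    have h6 : w * (1 + Jr D p) / ((p : ℝ) - c) ≤ 1 / ((p : ℝ) - c) :=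
      div_le_div_of_nonneg_right h5 h4.le
    refine h6.trans ?_
    have h7 : (1 + ((2 * c : ℕ) : ℝ) / p) * (1 / (p : ℝ)) = (p + 2 * c) / (p * p) := by
      push_cast
      field_simp
    rw [h7, div_le_div_iff₀ h4 (by positivity)]
    nlinarith [mul_nonneg hc0 (by linarith : (0 : ℝ) ≤ (p : ℝ) - 2 * c)]

end Pool.Agent.V7H45.G8
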