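import Pool.Agent.W762.RK2.EXP4b
import Pool.Agent.V7H45.G8.Gr

/-!
# Expansion of the local count into symbols, general local weights (adapted from
`W762.RK2.EXP4b`)
-/

set_option autoImplicit false

namespace Pool.Agent.V7H45.G8

open Finset Pool.Agent.W262.RK Pool.Agent.W108.RK Pool.Agent.W762.RK2

/-- the product of the local weights -/
noncomputable def pw (g : ℕ → ℝ) (d : ℕ) : ℝ := ∏ p ∈ d.primeFactors, g p

lemma prod_pw {ι : Type} [Fintype ι] [DecidableEq ι] {z y : ℕ} (g : ι → ℕ → ℝ)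
    (l : Pr z y → Option ι) :
    ∏ i, pw (g i) (Dl l i) = ∏ p : Pr z y, (l p).elim 1 fun i => g i p := by
  have h1 : ∀ i, pw (g i) (Dl l i) = ∏ p : Pr z y, if l p = some i then g i p else 1 := by
    intro i
    unfold pw Dl
    rw [prod_pf _ fun p : ℕ => g i p]
    simp only [decide_eq_true_eq]
  rw [Finset.prod_congr rfl fun i _ => h1 i, Finset.prod_comm]
  refine Finset.prod_congr rfl fun p _ => ?_
  cases h : l p with
  | none => simp
  | some j => simp

section final

variable {J : Type} [Fintype J] [DecidableEq J] {z y : ℕ}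

/-- the local term -/
noncomputable def Tm (cls : J → Fin 4) (k : J → Fin 3 → ℤ) (g : J → ℕ → ℝ)
    (ξ : Pr z y → Option (J × (Bool × Bool))) (p : Pr z y) : ℝ :=
  (ξ p).elim 1 fun a => g a.1 p * ((ind (LL (cls a.1) (k a.1) true p a.2.1 a.2.2
    (sgn p (D1 ξ)) (sgn p (D2 ξ))) + ind (LL (cls a.1) (k a.1) false p a.2.1 a.2.2
    (sgn p (D1 ξ)) (sgn p (D2 ξ)))) / 2)

lemma lhs_eq (cls : J → Fin 4) (k : J → Fin 3 → ℤ) (g : J → ℕ → ℝ) :
    ∑ s ∈ Tup J z y, NB cls k s * ∏ j, pw (g j) (s j) =
      ∑ ξ : Pr z y → Option (J × (Bool × Bool)), ∏ p, Tm cls k g ξ p := by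
  have h1 : ∀ s ∈ Tup J z y, NB cls k s * ∏ j, pw (g j) (s j) =
      ∑ d ∈ (∏ j, s j).divisors ×ˢ (∏ j, s j).divisors,
        (∏ p ∈ (∏ j, s j).primeFactors, (Il cls k s d true p + Il cls k s d false p) / 2) *
          ∏ j, pw (g j) (s j) := by
    intro s hs
    rw [NB_eq cls k hs, Finset.sum_mul]
  rw [Finset.sum_congr rfl h1, sum_big fun s d =>
    (∏ p ∈ (∏ j, s j).primeFactors, (Il cls k s d true p + Il cls k s d false p) / 2) *
          ∏ j, pw (g j) (s j)]
  refine Finset.sum_congr rfl fun ξ _ => ?_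
  have h2 : ∏ j, pw (g j) (SS ξ j) = ∏ p : Pr z y, ((ξ p).map Prod.fst).elim 1
      fun j => g j p := prod_pw g _
  have h3 : ∏ j, SS ξ j = nb fun p => ((ξ p).map Prod.fst).isSome := prod_Dl _
  rw [h2, h3, prod_pf _ fun p => (Il cls k (SS ξ) (D1 ξ, D2 ξ) true p +
    Il cls k (SS ξ) (D1 ξ, D2 ξ) false p) / 2, ← Finset.prod_mul_distrib]
  refine Finset.prod_congr rfl fun p _ => ?_
  unfold Tm
  cases hx : ξ p with
  | none => simp
  | some a =>
    have h4 : ∀ neg, Il cls k (SS ξ) (D1 ξ, D2 ξ) neg p =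
        ind (LL (cls a.1) (k a.1) neg p a.2.1 a.2.2 (sgn p (D1 ξ)) (sgn p (D2 ξ))) := by
      intro neg
      unfold Il
      have e1 : dv p (D1 ξ : ℤ) = a.2.1 := by
        have : b1 (ξ p) = a.2.1 := by rw [hx]; rfl
        rw [← this]
        unfold dv
        rw [Bool.eq_iff_iff, decide_eq_true_iff, Int.natCast_dvd_natCast]
        exact dvd_nb _ p
      have e2 : dv p (D2 ξ : ℤ) = a.2.2 := by
        have : b2 (ξ p) = a.2.2 := by rw [hx]; rfl
        rw [← this]
        unfold dv
        rw [Bool.eq_iff_iff, decide_eq_true_iff, Int.natCast_dvd_natCast]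
        exact dvd_nb _ p
      have e3 : ∀ j, (p : ℕ) ∣ SS ξ j ↔ j = a.1 := by
        intro j
        unfold SS Dl
        rw [dvd_nb, decide_eq_true_iff]
        show (ξ p).map Prod.fst = some j ↔ j = a.1
        rw [hx]
        simp [eq_comm]
      congr 1
      simp only [e1, e2, e3, forall_eq]
    simp only [h4]
    simp only [Option.map_some, Option.isSome_some, if_true, Option.elim]
    ring

/-- the local factor -/
noncomputable def G (cls : J → Fin 4) (k : J → Fin 3 → ℤ) (g : J → ℕ → ℝ)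
    (ξ : Pr z y → Option (J × (Bool × Bool))) (p : Pr z y) (x : Option (I4 cls)) : ℝ :=
  x.elim 1 fun i => g i.1.1 p * (w4 cls i * Jr (κ4 cls k i) p *
    ((if i.1.2.2.1 = true then sg (sgn p (D1 ξ)) else 1) *
      (if i.1.2.2.2 = true then sg (sgn p (D2 ξ)) else 1)))

lemma sum_G (cls : J → Fin 4) (k : J → Fin 3 → ℤ) (g : J → ℕ → ℝ)
    (ξ : Pr z y → Option (J × (Bool × Bool))) (p : Pr z y) (hk : ∀ j i, ¬ ((p : ℕ) : ℤ) ∣ k j i) :
    ∑ x ∈ univ.filter (fun x : Option (I4 cls) => fg x = ξ p), G cls k g ξ p x =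
      Tm cls k g ξ p := by
  rw [Finset.sum_filter, Fintype.sum_option]
  unfold Tm
  cases hx : ξ p with
  | none => simp [fg, G]
  | some a =>
    obtain ⟨j, v⟩ := a
    have h0 : (if fg (none : Option (I4 cls)) = some (j, v) then G cls k g ξ p none else 0) = 0 := by
      rw [if_neg]
      simp [fg]
    rw [h0, zero_add]
    set F : J × (Bool × Bool) × (Bool × Bool) → ℝ := fun r : J × (Bool × Bool) × (Bool × Bool) =>
          if r.1 = j ∧ r.2.1 = v then g r.1 p * (wc (cls r.1) *
            Jr (kc (cls r.1) (k r.1) r.2.1 r.2.2) p *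
            ((if r.2.2.1 = true then sg (sgn p (D1 ξ)) else 1) *
            (if r.2.2.2 = true then sg (sgn p (D2 ξ)) else 1))) else 0 with hF
    have h1 : ∀ i : I4 cls, (if fg (some i) = some (j, v) then G cls k g ξ p (some i) else 0) =
        F i.1 := by
      intro i
      refine if_congr ?_ rfl rfl
      simp only [fg, Option.map_some, Option.some.injEq, Prod.mk.injEq]
    refine (Finset.sum_congr rfl fun i _ => h1 i).trans ((sum_I4 cls F).trans ?_)
    rw [Fintype.sum_prod_type, Finset.sum_eq_single j]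
    · rw [Fintype.sum_prod_type, Finset.sum_eq_single v]
      · show _ = g j p * _
        rw [loc_id (cls j) (k j) (Pr_prime p) (hk j) v, Finset.mul_sum]
        refine Finset.sum_congr rfl fun x _ => ?_
        simp only [hF, and_self, if_true, mul_ite, mul_zero]
      · intro v' _ hv'
        refine Finset.sum_eq_zero fun x _ => ?_
        simp [hF, hv']
      · intro h
        exact absurd (Finset.mem_univ _) h
    · intro j' _ hj'
      refine Finset.sum_eq_zero fun x _ => ?_
      simp [hF, hj']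
    · intro h
      exact absurd (Finset.mem_univ _) h

lemma rhs_term (cls : J → Fin 4) (k : J → Fin 3 → ℤ) (g : J → ℕ → ℝ)
    (ξ : Pr z y → Option (J × (Bool × Bool))) (l : Pr z y → Option (I4 cls))
    (h : ∀ p, fg (l p) = ξ p) :
    (∏ i, pw (fun p => w4 cls i * g i.1.1 p) (Dl l i)) * Pool.Agent.W262.RK.Sym (L4 cls) (κ4 cls k) (Dl l) =
      ∏ p, G cls k g ξ p (l p) := by
  rw [prod_pw, Sym_Dl, ← Finset.prod_mul_distrib, ← Finset.prod_mul_distrib]
  refine Finset.prod_congr rfl fun p _ => ?_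
  cases hl : l p with
  | none =>
    have h0 : ∀ q, lk (L4 cls) (l q) none = false := by
      intro q
      cases l q <;> rfl
    simp [h0, G]
  | some i =>
    have hAl := Al_orth _ _ _ i.2
    have h1 : ∀ q, lk (L4 cls) (l q) (some i) =
        xor (i.1.2.2.1 && b1 (ξ q)) (i.1.2.2.2 && b2 (ξ q)) := by
      intro q
      rw [← h q]
      cases hq : l q with
      | none => simp [Pool.Agent.W762.RK2.lk, fg, b1, b2]
      | some i' => rfl
    have h2 : ∏ q : Pr z y, (if lk (L4 cls) (l q) (some i) = true then Jr (q : ℕ) p else 1) =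
        ((if i.1.2.2.1 = true then sg (sgn p (D1 ξ)) else 1) *
      (if i.1.2.2.2 = true then sg (sgn p (D2 ξ)) else 1)) := by
      have h3 : ∀ a : Bool, ∀ b : Pr z y → Bool, (if a = true then sg (sgn p (nb b : ℤ)) else 1) =
          ∏ q : Pr z y, if a = true then (if q ≠ p ∧ b q = true then Jr (q : ℕ) p else 1)
            else 1 := by
        intro a b
        cases a
        · simp
        · simp only [if_true]
          exact sgn_nb b p
      unfold D1 D2
      rw [h3, h3, ← Finset.prod_mul_distrib]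
      refine Finset.prod_congr rfl fun q _ => ?_
      rw [h1]
      refine bits_eq q p _ _ _ _ fun hqp => ?_
      rw [hqp, ← h p, hl]
      exact hAl
    rw [h2]
    simp only [G, Option.elim]
    ring

end final

theorem expg {J : Type} [Fintype J] [DecidableEq J] (cls : J → Fin 4) (κ : J → Fin 3 → ℤ)
    (g : J → ℕ → ℝ) (z y : ℕ) (hκ : ∀ j k, κ j k ≠ 0)
    (hκz : ∀ j k, (κ j k).natAbs ≤ z) :
    ∑ s ∈ Tup J z y, NB cls κ s * ∏ j, pw (g j) (s j) =
      ∑ d ∈ Tup (I4 cls) z y, (∏ i, pw (fun p => w4 cls i * g i.1.1 p) (d i)) *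
        Pool.Agent.W262.RK.Sym (L4 cls) (κ4 cls κ) d := by
  classical
  rw [lhs_eq, sum_Tup, ← Finset.sum_fiberwise univ
    (fun (l : Pr z y → Option (I4 cls)) => fun p => fg (l p))]
  refine Finset.sum_congr rfl fun ξ _ => ?_
  have h1 : (univ.filter fun l : Pr z y → Option (I4 cls) => (fun p => fg (l p)) = ξ) =
      Fintype.piFinset (fun p => univ.filter (fun x : Option (I4 cls) => fg x = ξ p)) := by
    ext l
    simp only [Finset.mem_filter, Finset.mem_univ, true_and, Fintype.mem_piFinset, funext_iff]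
  have hk : ∀ p : Pr z y, ∀ j i, ¬ ((p : ℕ) : ℤ) ∣ κ j i := by
    intro p j i hd
    have hz : z < p := by
      have := p.2
      unfold PS at this
      exact (Finset.mem_Ioc.1 (Finset.mem_filter.1 this).1).1
    have h3 := Nat.le_of_dvd (Int.natAbs_pos.mpr (hκ j i)) (Int.natCast_dvd.1 hd)
    have h4 := hκz j i
    omega
  rw [h1, Finset.prod_congr rfl fun p _ => (sum_G cls κ g ξ p (hk p)).symm, Finset.prod_univ_sum]
  refine Finset.sum_congr rfl fun l hl => ?_
  rw [Fintype.mem_piFinset] at hl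
  exact (rhs_term cls κ g ξ l fun p => (Finset.mem_filter.1 (hl p)).2).symm

end Pool.Agent.V7H45.G8
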