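import Pool.Agent.V7H45.G8.Main8
import Pool.Agent.V7H54.C8.Par8
import Pool.Agent.V7H54.C8.Low8

/-! The curves with a subgroup `Z/2 x Z/8`. -/

set_option autoImplicit false

namespace Pool.Agent.V7H45.G8

open Finset Pool.Agent.W262.RK Pool.Agent.W307.RT

/-- **the average over the curves of bounded height** -/
theorem main8 : ∃ C : ℝ, ∀ H : ℕ, ∑ c ∈ Cv 8 H,
    (2 : ℝ) ^ Module.finrank ℤ (Sh c.1 c.2).toAffine.Point ≤ C * (Cv 8 H).card :=
  final_of (by norm_num) (show PAR 8 48 M8 N8 from Pool.Agent.V7H54.C8.par8)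
    Pool.Agent.V7H54.C8.low8 box8

end Pool.Agent.V7H45.G8
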