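import Pool.Agent.V7H45.G8.Def8
import Pool.Agent.W571.RT.Rank2
import Pool.Agent.W571.RT.LocM

/-! The rank bound at a point of the family `Z/2 x Z/8` (adapted from `W571.RT.Rank2`). -/

set_option autoImplicit false

namespace Pool.Agent.V7H45.G8

open Finset Pool.Agent.W262.RK Pool.Agent.W307.RT Pool.Agent.W571.RT

/-- the resultants of two forms are powers of two -/
lemma cof (a b : ℤ) (j l : Fin 7) (h : j < l) : ∃ x1 x2 y1 y2 : ℤ,
    4 * a ^ 3 = x1 * f8 a b j + x2 * f8 a b l ∧ 4 * b ^ 3 = y1 * f8 a b j + y2 * f8 a b l := by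
  fin_cases j <;> fin_cases l <;> first
    | exact absurd h (by decide)
    | exact ⟨4 * a ^ 2, 0, 0, 4 * b ^ 2, by simp [f8]; ring1, by simp [f8]; ring1⟩
    | exact ⟨4 * a ^ 2, 0, 4 * b ^ 2, -(4 * b ^ 2), by simp [f8]; ring1, by simp [f8]; ring1⟩
    | exact ⟨4 * a ^ 2, 0, -(4 * b ^ 2), 4 * b ^ 2, by simp [f8]; ring1, by simp [f8]; ring1⟩
    | exact ⟨4 * a ^ 2, 0, 4 * b * (a - 2 * b), -(4 * b), by simp [f8]; ring1,
        by simp [f8]; ring1⟩
    | exact ⟨4 * a ^ 2, 0, 4 * b * (a + 2 * b), -(4 * b), by simp [f8]; ring1,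
        by simp [f8]; ring1⟩
    | exact ⟨4 * a ^ 2, 0, -(4 * a * b), 4 * b, by simp [f8]; ring1, by simp [f8]; ring1⟩
    | exact ⟨4 * a ^ 2, 4 * a ^ 2, 4 * b ^ 2, 0, by simp [f8]; ring1, by simp [f8]; ring1⟩
    | exact ⟨-(4 * a ^ 2), 4 * a ^ 2, 4 * b ^ 2, 0, by simp [f8]; ring1, by simp [f8]; ring1⟩
    | exact ⟨4 * a * (2 * a + b), 4 * a, 4 * b ^ 2, 0, by simp [f8]; ring1, by simp [f8]; ring1⟩
    | exact ⟨4 * a * (-2 * a + b), 4 * a, 4 * b ^ 2, 0, by simp [f8]; ring1,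
        by simp [f8]; ring1⟩
    | exact ⟨-(4 * a * b), 4 * a, 4 * b ^ 2, 0, by simp [f8]; ring1, by simp [f8]; ring1⟩
    | exact ⟨2 * a ^ 2, 2 * a ^ 2, -(2 * b ^ 2), 2 * b ^ 2, by simp [f8]; ring1,
        by simp [f8]; ring1⟩
    | exact ⟨2 * a * (3 * a + b), -(2 * a), 2 * b * (a - b), -(2 * b), by simp [f8]; ring1,
        by simp [f8]; ring1⟩
    | exact ⟨2 * a * (a - b), 2 * a, -(2 * b * (a + 3 * b)), 2 * b, by simp [f8]; ring1,
        by simp [f8]; ring1⟩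
    | exact ⟨2 * a * (a + b), 2 * a, -(2 * b * (a + b)), 2 * b, by simp [f8]; ring1,
        by simp [f8]; ring1⟩
    | exact ⟨2 * a * (a + b), 2 * a, -(2 * b * (a - 3 * b)), 2 * b, by simp [f8]; ring1,
        by simp [f8]; ring1⟩
    | exact ⟨2 * a * (3 * a - b), -(2 * a), 2 * b * (a + b), -(2 * b), by simp [f8]; ring1,
        by simp [f8]; ring1⟩
    | exact ⟨2 * a * (a - b), 2 * a, -(2 * b * (a - b)), 2 * b, by simp [f8]; ring1,
        by simp [f8]; ring1⟩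
    | exact ⟨2 * a - b, 2 * a + b, -(a + 2 * b), a - 2 * b, by simp [f8]; ring1,
        by simp [f8]; ring1⟩
    | exact ⟨a + b, 3 * a + b, a - b, -a + 3 * b, by simp [f8]; ring1,
        by simp [f8]; ring1⟩
    | exact ⟨a - b, 3 * a - b, -(a + b), a + 3 * b, by simp [f8]; ring1,
        by simp [f8]; ring1⟩

/-- a large prime divides at most one of the values -/
lemma nd8 {p : ℕ} (hp : p.Prime) (hp2 : p ≠ 2) {a b : ℤ} (hab : IsCoprime a b) {j l : Fin 7}
    (hjl : j ≠ l) (h1 : (p : ℤ) ∣ f8 a b j) (h2 : (p : ℤ) ∣ f8 a b l) : False := by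
  have hpi : Prime (p : ℤ) := Nat.prime_iff_prime_int.1 hp
  have key : (p : ℤ) ∣ 4 * a ^ 3 ∧ (p : ℤ) ∣ 4 * b ^ 3 := by
    rcases lt_or_gt_of_ne hjl with h | h
    · obtain ⟨x1, x2, y1, y2, e1, e2⟩ := cof a b j l h
      rw [e1, e2]
      exact ⟨dvd_add (h1.mul_left _) (h2.mul_left _), dvd_add (h1.mul_left _) (h2.mul_left _)⟩
    · obtain ⟨x1, x2, y1, y2, e1, e2⟩ := cof a b l j h
      rw [e1, e2]
      exact ⟨dvd_add (h2.mul_left _) (h1.mul_left _), dvd_add (h2.mul_left _) (h1.mul_left _)⟩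
  have h4 : ¬ (p : ℤ) ∣ 4 := by
    intro h
    have h5 : p ∣ 4 := by exact_mod_cast h
    have h6 : p ∣ 2 ^ 2 := by norm_num; exact h5
    exact hp2 ((Nat.prime_dvd_prime_iff_eq hp Nat.prime_two).1 (hp.dvd_of_dvd_pow h6))
  have ha : (p : ℤ) ∣ a := hpi.dvd_of_dvd_pow ((hpi.dvd_or_dvd key.1).resolve_left h4)
  have hb : (p : ℤ) ∣ b := hpi.dvd_of_dvd_pow ((hpi.dvd_or_dvd key.2).resolve_left h4)
  exact hpi.not_isUnit (hab.isUnit_of_dvd' ha hb)

/-- products over other forms are not divisible -/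
lemma ndM8 {p : ℕ} (hp : p.Prime) (hp2 : p ≠ 2) {a b : ℤ} (hab : IsCoprime a b) {j : Fin 7}
    (hj : (p : ℤ) ∣ f8 a b j) {k : Fin 3} {S : Finset (Fin 7)} (hS : j ∉ S) :
    ¬ (p : ℤ) ∣ a8 k * ∏ l ∈ S, f8 a b l ^ m8 l := by
  intro h
  have hpi : Prime (p : ℤ) := Nat.prime_iff_prime_int.1 hp
  rcases hpi.dvd_or_dvd h with h1 | h1
  · have h2 : (p : ℤ) ∣ 16 := by
      fin_cases k
      · exact (dvd_neg.1 (show (p : ℤ) ∣ -16 from h1))
      · have h3 : (p : ℤ) ∣ -1 := h1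
        exact (dvd_neg.1 h3).trans (by norm_num)
      · have h3 : (p : ℤ) ∣ 1 := h1
        exact h3.trans (by norm_num)
    have h5 : p ∣ 16 := by exact_mod_cast h2
    have h6 : p ∣ 2 ^ 4 := by norm_num; exact h5
    exact hp2 ((Nat.prime_dvd_prime_iff_eq hp Nat.prime_two).1 (hp.dvd_of_dvd_pow h6))
  · obtain ⟨l, hl, hl2⟩ := (hpi.dvd_finsetProd_iff _).1 h1
    have hl3 := hpi.dvd_of_dvd_pow hl2
    refine nd8 hp hp2 hab (j := j) (l := l) ?_ hj hl3
    rintro rfl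
    exact hS hl

/-- the valuation of `F_k` -/
lemma valF8 {p : ℕ} (hp : p.Prime) (hp2 : p ≠ 2) {a b : ℤ} (hab : IsCoprime a b) {j : Fin 7}
    (h0 : f8 a b j ≠ 0) (hj : (p : ℤ) ∣ f8 a b j) (hj2 : ¬ (p : ℤ) ^ 2 ∣ f8 a b j) {k : Fin 3}
    (hk : j ∈ fc c8 k) : padicValInt p (FM c8 a8 m8 (f8 a b) k) = m8 j := by
  have : Fact p.Prime := ⟨hp⟩
  have hn := ndM8 (k := k) hp hp2 hab hj (notMem_erase j (fc c8 k))
  have e1 : FM c8 a8 m8 (f8 a b) k = f8 a b j ^ m8 j *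
      (a8 k * ∏ l ∈ (fc c8 k).erase j, f8 a b l ^ m8 l) := by
    unfold FM
    rw [← mul_prod_erase _ _ hk]
    ring
  have hX0 : (a8 k * ∏ l ∈ (fc c8 k).erase j, f8 a b l ^ m8 l) ≠ 0 := by
    intro h
    rw [h] at hn
    exact hn (dvd_zero _)
  have hv1 : padicValInt p (f8 a b j) = 1 := by
    apply le_antisymm
    · by_contra h
      push Not at h
      exact hj2 ((padicValInt_dvd_iff 2 _).2 (Or.inr (by omega)))
    · rcases (padicValInt_dvd_iff (p := p) 1 (f8 a b j)).1 (by simpa using hj) with h | h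
      · exact absurd h h0
      · exact h
  rw [e1, padicValInt.mul (pow_ne_zero _ h0) hX0, padicValInt.eq_zero_of_not_dvd hn, add_zero]
  have h2 : ∀ n : ℕ, padicValInt p (f8 a b j ^ n) = n := by
    intro n
    induction n with
    | zero => simp
    | succ n ih => rw [pow_succ, padicValInt.mul (pow_ne_zero _ h0) h0, ih, hv1]
  exact h2 _

/-- `-1` is a square modulo the primes of `a ^ 2 + b ^ 2` -/
lemma neg_one8 {p : ℕ} (hp : p.Prime) (hp2 : p ≠ 2) {a b : ℤ} (hab : IsCoprime a b)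
    (hj : (p : ℤ) ∣ f8 a b 6) : jacobiSym (-1) p = 1 := by
  have hpi : Prime (p : ℤ) := Nat.prime_iff_prime_int.1 hp
  have hb : ¬ (p : ℤ) ∣ b := fun h => nd8 hp hp2 hab (j := 6) (l := 1) (by decide) hj h
  have ha : ¬ (p : ℤ) ∣ a := fun h => nd8 hp hp2 hab (j := 6) (l := 0) (by decide) hj h
  have h1 : -1 * b ^ 2 ≡ a ^ 2 [ZMOD p] := by
    rw [Int.modEq_iff_dvd]
    have e1 : a ^ 2 - -1 * b ^ 2 = a ^ 2 + b ^ 2 := by ring
    rw [e1]
    exact hj
  have h2 : jacobiSym (-1 * b ^ 2) p = 1 := by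
    rw [jacobiSym.mod_left' h1]
    exact jac_sq hp ha
  rwa [jacobiSym.mul_left, jac_sq hp hb, mul_one] at h2

/-- the local hypotheses hold -/
lemma locH8 {p : ℕ} (hp : p.Prime) (hp2 : p ≠ 2) {a b : ℤ} (hab : IsCoprime a b) {j : Fin 7}
    (h0 : f8 a b j ≠ 0) (hj : (p : ℤ) ∣ f8 a b j) (hj2 : ¬ (p : ℤ) ^ 2 ∣ f8 a b j) :
    LocM (c8 j) (κ8 j) p (FM c8 a8 m8 (f8 a b) 0) (FM c8 a8 m8 (f8 a b) 1) := by
  have hpi : Prime (p : ℤ) := Nat.prime_iff_prime_int.1 hp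
  have hmem : ∀ k : Fin 3, j ∈ fc c8 k ↔ c8 j = k.castSucc := fun k => by
    unfold fc
    rw [mem_filter]
    exact ⟨fun h => h.2, fun h => ⟨mem_univ _, h⟩⟩
  have hn : ∀ k, j ∉ fc c8 k → ¬ (p : ℤ) ∣ FM c8 a8 m8 (f8 a b) k :=
    fun k hk => ndM8 hp hp2 hab hj hk
  have hval : ∀ k, j ∈ fc c8 k → padicValInt p (FM c8 a8 m8 (f8 a b) k) = m8 j :=
    fun k hk => valF8 hp hp2 hab h0 hj hj2 hk
  have hdv : ∀ k, j ∈ fc c8 k → (p : ℤ) ∣ FM c8 a8 m8 (f8 a b) k := by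
    intro k hk
    unfold FM
    rw [← mul_prod_erase _ _ hk]
    apply Dvd.dvd.mul_left
    apply Dvd.dvd.mul_right
    exact dvd_pow hj ((show ∀ j : Fin 7, m8 j ≠ 0 by decide) j)
  have hcase : c8 j = 0 ∨ c8 j = 1 ∨ c8 j = 2 := by
    clear h0 hj hj2 hmem hn hval hdv
    revert j
    decide
  unfold LocM
  rcases hcase with h | h | h
  · rw [if_pos h]
    have hm0 := (hmem 0).2 (by rw [h]; rfl)
    have h2 := hn 1 (fun h3 => by
      have h4 := (hmem 1).1 h3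
      rw [h] at h4; exact absurd h4 (by decide))
    have hκ : κ8 j = 1 := by
      clear h0 hj hj2 hmem hn hval hdv hm0 h2
      revert j
      decide
    refine ⟨hdv 0 hm0, h2, ?_, Or.inr (by rw [hκ]; exact jacobiSym.one_left p)⟩
    rw [FM81] at h2 ⊢
    rw [hκ, one_mul, neg_neg]
    have e1 : N8 a b = ((a ^ 2 - b ^ 2) ^ 2) ^ 2 := by unfold N8; ring
    rw [e1]
    apply jac_sq hp
    intro h3
    apply h2
    rw [dvd_neg, e1]
    exact h3.trans (dvd_pow_self _ (by norm_num))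
  · rw [if_neg (by rw [h]; decide), if_pos h]
    have hm0 := (hmem 1).2 (by rw [h]; rfl)
    have h2 := hn 0 (fun h3 => by
      have h4 := (hmem 0).1 h3
      rw [h] at h4; exact absurd h4 (by decide))
    have hκ : κ8 j = 1 := by
      clear h0 hj hj2 hmem hn hval hdv hm0 h2
      revert j
      decide
    refine ⟨hdv 1 hm0, h2, ?_, Or.inr (by rw [hκ]; exact jacobiSym.one_left p)⟩
    rw [FM80] at h2 ⊢
    rw [hκ, one_mul, neg_neg]
    have e1 : M8 a b = ((2 * a * b) ^ 2) ^ 2 := by unfold M8; ring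
    rw [e1]
    apply jac_sq hp
    intro h3
    apply h2
    rw [dvd_neg, e1]
    exact h3.trans (dvd_pow_self _ (by norm_num))
  · rw [if_neg (by rw [h]; decide), if_neg (by rw [h]; decide)]
    have hm0 := (hmem 2).2 (by rw [h]; rfl)
    have h2 := hn 0 (fun h3 => by
      have h4 := (hmem 0).1 h3
      rw [h] at h4; exact absurd h4 (by decide))
    have hκ : κ8 j = -1 := by
      clear h0 hj hj2 hmem hn hval hdv hm0 h2
      revert j
      decide
    rw [FM8_sub]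
    refine ⟨hdv 2 hm0, h2, ?_, ?_⟩
    · rw [FM80] at h2 ⊢
      rw [hκ]
      have e1 : -1 * -(M8 a b) = ((2 * a * b) ^ 2) ^ 2 := by unfold M8; ring
      rw [e1]
      apply jac_sq hp
      intro h3
      apply h2
      have e2 : M8 a b = ((2 * a * b) ^ 2) ^ 2 := by unfold M8; ring
      rw [dvd_neg, e2]
      exact h3.trans (dvd_pow_self _ (by norm_num))
    · rw [hval 2 hm0, hκ]
      by_cases h6 : j = 6
      · right
        subst h6
        exact neg_one8 hp hp2 hab hj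
      · left
        clear h0 hj hj2 hmem hn hval hdv hm0 h2 hκ
        revert j
        decide

/-- the number of the primes outside `S1` -/
lemma bad8 {z y X K : ℕ} (hz : 2 ≤ z) {a b : ℤ} (hy : 1 ≤ y) (h0 : ∀ j, f8 a b j ≠ 0)
    (hb : ∀ j, (f8 a b j).natAbs ≤ X ^ 3) (hK : X < (y + 1) ^ K) :
    ((2 * FM c8 a8 m8 (f8 a b) 0 * FM c8 a8 m8 (f8 a b) 1 *
      FM c8 a8 m8 (f8 a b) 2).natAbs.primeFactors.filter
        (fun q => ¬ q ∣ ∏ j, S1 z y (f8 a b) j)).card ≤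
      z + 7 * (3 * K) + ∑ j, (S2 z y (f8 a b) j).primeFactors.card := by
  have hsub : ((2 * FM c8 a8 m8 (f8 a b) 0 * FM c8 a8 m8 (f8 a b) 1 *
      FM c8 a8 m8 (f8 a b) 2).natAbs.primeFactors.filter
        (fun q => ¬ q ∣ ∏ j, S1 z y (f8 a b) j)) ⊆
      ((Icc 1 z) ∪ univ.biUnion (fun j => (f8 a b j).natAbs.primeFactors.filter (y < ·))) ∪
        univ.biUnion (fun j => (S2 z y (f8 a b) j).primeFactors) := by
    intro q hq
    rw [mem_filter] at hq
    have hp := Nat.prime_of_mem_primeFactors hq.1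
    have hdv := Nat.dvd_of_mem_primeFactors hq.1
    rw [mem_union, mem_union, mem_Icc]
    rcases Nat.lt_or_ge z q with h | h
    swap
    · exact Or.inl (Or.inl ⟨hp.one_lt.le, h⟩)
    · have hqi : Prime (q : ℤ) := Nat.prime_iff_prime_int.1 hp
      have hdv2 : (q : ℤ) ∣ 2 * FM c8 a8 m8 (f8 a b) 0 * FM c8 a8 m8 (f8 a b) 1 *
          FM c8 a8 m8 (f8 a b) 2 := Int.natCast_dvd.2 hdv
      have hk : ∃ k, (q : ℤ) ∣ FM c8 a8 m8 (f8 a b) k := by
        rcases hqi.dvd_or_dvd hdv2 with h1 | h1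
        · rcases hqi.dvd_or_dvd h1 with h2 | h2
          · rcases hqi.dvd_or_dvd h2 with h3 | h3
            · exfalso
              have h4 : q ∣ 2 := by exact_mod_cast h3
              have h5 := Nat.le_of_dvd (by norm_num) h4
              omega
            · exact ⟨0, h3⟩
          · exact ⟨1, h2⟩
        · exact ⟨2, h1⟩
      obtain ⟨k, hk⟩ := hk
      rcases hqi.dvd_or_dvd hk with h1 | h1
      · exfalso
        have h2 : (q : ℤ) ∣ 16 := by
          fin_cases k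
          · exact (dvd_neg.1 (show (q : ℤ) ∣ -16 from h1))
          · have h3 : (q : ℤ) ∣ -1 := h1
            exact (dvd_neg.1 h3).trans (by norm_num)
          · have h3 : (q : ℤ) ∣ 1 := h1
            exact h3.trans (by norm_num)
        have h5 : q ∣ 16 := by exact_mod_cast h2
        have h6 : q ∣ 2 ^ 4 := by norm_num; exact h5
        have h7 := (Nat.prime_dvd_prime_iff_eq hp Nat.prime_two).1 (hp.dvd_of_dvd_pow h6)
        omega
      · obtain ⟨l, _, hl'⟩ := (hqi.dvd_finsetProd_iff _).1 h1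
        have hl := hqi.dvd_of_dvd_pow hl'
        rcases Nat.lt_or_ge y q with hyq | hyq
        · left; right
          rw [mem_biUnion]
          refine ⟨l, mem_univ _, ?_⟩
          rw [mem_filter, Nat.mem_primeFactors]
          exact ⟨⟨hp, Int.natCast_dvd.1 hl, Int.natAbs_ne_zero.2 (h0 l)⟩, hyq⟩
        · right
          have hPS : q ∈ PS z y := mem_PS.2 ⟨⟨h, hyq⟩, hp⟩
          rw [mem_biUnion]
          refine ⟨l, mem_univ _, ?_⟩
          have hsq : (q : ℤ) ^ 2 ∣ f8 a b l := by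
            by_contra hcon
            apply hq.2
            refine dvd_trans ?_ (dvd_prod_of_mem _ (mem_univ l))
            exact dvd_prod_of_mem _ (mem_filter.2 ⟨hPS, hl, hcon⟩)
          rw [Nat.mem_primeFactors]
          refine ⟨hp, dvd_prod_of_mem _ (mem_filter.2 ⟨hPS, hsq⟩), ?_⟩
          exact prod_ne_zero_iff.2 fun p hp => (mem_PS.1 (mem_filter.1 hp).1).2.ne_zero
  have hone : ∀ j, ((f8 a b j).natAbs.primeFactors.filter (y < ·)).card ≤ 3 * K := by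
    intro j
    set S := (f8 a b j).natAbs.primeFactors.filter (y < ·) with hS
    have h1 : (y + 1) ^ S.card ≤ ∏ q ∈ S, q :=
      Finset.pow_card_le_prod _ _ _ (fun q hq => by
        have := (mem_filter.1 hq).2
        omega)
    have h2 : ∏ q ∈ S, q ∣ (f8 a b j).natAbs :=
      (prod_dvd_prod_of_subset _ _ _ (filter_subset _ _)).trans (Nat.prod_primeFactors_dvd _)
    have h3 : ∏ q ∈ S, q ≤ (f8 a b j).natAbs :=
      Nat.le_of_dvd (Nat.pos_of_ne_zero (Int.natAbs_ne_zero.2 (h0 j))) h2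
    have h4 : (y + 1) ^ S.card < (y + 1) ^ (3 * K) := by
      calc (y + 1) ^ S.card ≤ X ^ 3 := h1.trans (h3.trans (hb j))
        _ < ((y + 1) ^ K) ^ 3 := Nat.pow_lt_pow_left hK (by norm_num)
        _ = (y + 1) ^ (3 * K) := by rw [← pow_mul, mul_comm]
    exact ((Nat.pow_lt_pow_iff_right (by omega)).1 h4).le
  refine (card_le_card hsub).trans ((card_union_le _ _).trans (add_le_add
    ((card_union_le _ _).trans (add_le_add ?_ ?_)) card_biUnion_le))
  · simp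
  · refine card_biUnion_le.trans ?_
    refine (sum_le_sum fun j _ => hone j).trans ?_
    rw [sum_const, card_univ, smul_eq_mul, Fintype.card_fin]

/-- **the rank bound** -/
theorem rank8 {z y X k : ℕ} (hz : 2 ≤ z) {a b : ℤ} (hab : IsCoprime a b)
    (h0 : ∀ j, f8 a b j ≠ 0) (hb : ∀ j, (f8 a b j).natAbs ≤ X ^ 3) (hy : 1 ≤ y)
    (hk : X < (y + 1) ^ k) :
    2 ^ Module.finrank ℤ (EAB (-(M8 a b)) (-(N8 a b))).toAffine.Point ≤
      4 ^ (z + 2) * (4 ^ 21) ^ k * 4 ^ (∑ j, (S2 z y (f8 a b) j).primeFactors.card) *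
        NL (∏ j, S1 z y (f8 a b) j)
          (LLs c8 (fun j _ => κ8 j) (S1 z y (f8 a b)) ∅) := by
  have hF := FM8_sub a b
  rw [← FM80, ← FM81]
  set f := f8 a b with hf
  have ha0 : ∀ k, a8 k ≠ 0 := by decide
  have hFne : ∀ k, FM c8 a8 m8 f k ≠ 0 := fun k =>
    mul_ne_zero (ha0 k) (prod_ne_zero_iff.2 fun l _ => pow_ne_zero _ (h0 l))
  set s := S1 z y f with hs
  have hmem : s ∈ Tup (Fin 7) z y := S1_mem (fun p hp hzp j l hjl h =>
    nd8 hp (by omega) hab hjl h.1 h.2)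
  have hmd : ∏ j, s j ∣ PP z y := Tup_prod_dvd hmem
  have hPSof : ∀ p : ℕ, p.Prime → p ∣ ∏ j, s j → p ∈ PS z y := fun p hp h =>
    (prime_dvd_PP hp).1 (h.trans hmd)
  have hodd2 : ∀ p : ℕ, p.Prime → p ∣ ∏ j, s j → p ≠ 2 := by
    intro p hp h
    have h1 := (mem_PS.1 (hPSof p hp h)).1.1
    omega
  have hnκ : ∀ p : ℕ, p.Prime → p ∣ ∏ j, s j → ∀ j, ¬ (p : ℤ) ∣ κ8 j := by
    intro p hp _ j hd
    have h1 : (κ8 j).natAbs = 1 := by
      clear hd
      revert j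
      decide
    have h2 := Int.natCast_dvd.1 hd
    rw [h1] at h2
    exact hp.one_lt.ne' (Nat.dvd_one.1 h2)
  have hc3 : ∀ j, c8 j ≠ 3 := by decide
  have hxc : XCL := Pool.Agent.W342.RK2.xcl
  have hdesc : DESC4 := Pool.Agent.W214.RK2.desc4
  have hd := hdesc (∏ j, s j) (LLs c8 (fun j _ => κ8 j) s ∅)
    (FM c8 a8 m8 f 0) (FM c8 a8 m8 f 1) (hFne 0) (hFne 1)
    (fun h => hFne 2 (by rw [← hF, h, sub_self]))
    (by
      rw [← Nat.not_even_iff_odd, even_iff_two_dvd]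
      intro h
      exact hodd2 2 Nat.prime_two h rfl)
    ((PP_squarefree z y).squarefree_of_dvd hmd)
    (fun p hp hpd => ⟨fun j hj => (hxc _ _ _ p hp (hodd2 p hp hpd)
        (fun _ => hnκ p hp hpd j)).1,
      fun a1 b1 c1 d1 a2 b2 c2 d2 e1 e2 j hj =>
        (hxc _ _ _ p hp (hodd2 p hp hpd) (fun _ => hnκ p hp hpd j)).2 a1 b1 c1 d1 a2 b2 c2 d2
          (e1 j hj) (e2 j hj)⟩)
    (fun p hp hpd x x' hx' hcurve e1 e2 he1 he2 hsq1 hsq2 j hj => by
      have hpp : p.Prime := Fact.out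
      have hjs := (S1_dvd_iff hpp).1 hj
      have hfin := locm (c8 j) (κ8 j) p (FM c8 a8 m8 f 0) (FM c8 a8 m8 f 1) (hc3 j)
        (hodd2 p hpp hpd) (hnκ p hpp hpd j) (hFne 0) (hFne 1)
        (fun h => hFne 2 (by rw [← hF, h, sub_self]))
        (locH8 hpp (hodd2 p hpp hpd) hab (h0 j) hjs.2.1 hjs.2.2)
        x x' hx' hcurve e1 e2 he1 he2 hsq1 hsq2
      have hdec : decide (p ∈ (∅ : Finset ℕ)) = false := by simp
      rw [hdec]
      exact hfin)
  rw [hF] at hd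
  refine hd.trans (Nat.mul_le_mul_right _ ?_)
  have hc := bad8 (y := y) hz hy h0 hb hk
  rw [← hf, ← hs] at hc
  calc 4 ^ (((2 * FM c8 a8 m8 f 0 * FM c8 a8 m8 f 1 *
        FM c8 a8 m8 f 2).natAbs.primeFactors.filter (fun q => ¬ q ∣ ∏ j, s j)).card + 2)
      ≤ 4 ^ ((z + 2) + (7 * (3 * k)) + ∑ j, (S2 z y f j).primeFactors.card) :=
        Nat.pow_le_pow_right (by norm_num) (by omega)
    _ = _ := by
        rw [pow_add, pow_add]
        congr 2
        rw [← pow_mul]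
        congr 1
        ring

end Pool.Agent.V7H45.G8
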