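import Pool.Agent.V7H45.G8.NB8
import Pool.Agent.V7H45.G8.Rank8
import Pool.Agent.V7H45.BF.ANTc
import Pool.Agent.W230.RT.Avg2

/-! The average over coprime pairs for the family `Z/2 x Z/8`, from the counting theorem. -/

set_option autoImplicit false
set_option maxHeartbeats 400000

namespace Pool.Agent.V7H45.G8

open Finset Pool.Agent.W262.RK Pool.Agent.W307.RT Pool.Agent.V7H45.BF

/-- the values of the forms at `(x, e y + 2 x)` -/
def F8 (e : ℤ) (t : ℕ × ℕ) : Fin 7 → ℤ := f8 (t.1 : ℤ) (e * (t.2 : ℤ) + 2 * (t.1 : ℤ))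

/-- the number of the coprime pairs with given small prime factors of the values of the forms -/
def CNT8 : Prop := ∀ e : ℤ, (e = 1 ∨ e = -1) → ∃ c z0 : ℕ, ∀ z, z0 ≤ z →
  ∃ (C : ℝ) (K y0 : ℕ), 0 ≤ C ∧ 1 ≤ K ∧ ∀ X y Y : ℕ, y0 ≤ y → z < y → y ^ K ≤ X →
  ∀ s ∈ Tup (Fin 7) z y, ∀ v ∈ Tup (Fin 7) z y, ∀ u ∈ Tup (Fin 7) y Y,
    (∏ j, s j * v j * u j) ^ 8 ≤ X →
    (((Icc 1 X ×ˢ Icc 1 X).filter (fun t : ℕ × ℕ => t.1.Coprime t.2 ∧
      S1 z y (F8 e t) = s ∧ S2 z y (F8 e t) = v ∧ ∀ j, (u j : ℤ) ∣ F8 e t j)).card : ℝ) ≤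
      C * X ^ 2 * (∏ j, gr (D8 j) 1 c (s j)) *
        (∏ j, 4 ^ (v j).primeFactors.card * (gw 1 c (v j) / v j)) *
        (∏ j, 2 ^ (u j).primeFactors.card * (1 / (u j : ℝ))) / (Real.log y) ^ 7

/-- the product of the numbers of roots -/
noncomputable def rho (s : Fin 7 → ℕ) : ℝ := ∏ j, ∏ p ∈ (s j).primeFactors, (1 + Jr (D8 j) p)

lemma rho_nonneg (s : Fin 7 → ℕ) : 0 ≤ rho s :=
  prod_nonneg fun _ _ => prod_nonneg fun _ _ => one_add_Jr_nonneg _ _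

lemma rho_gw (c : ℕ) (s : Fin 7 → ℕ) :
    rho s * ∏ j, gw 1 c (s j) = ∏ j, gr (D8 j) 1 c (s j) := by
  unfold rho
  rw [← prod_mul_distrib]
  apply prod_congr rfl
  intro j _
  unfold gw gr
  rw [← prod_mul_distrib]
  apply prod_congr rfl
  intro p _
  ring

lemma rho_mul {z y : ℕ} {s e : Fin 7 → ℕ} (h : (fun j => s j * e j) ∈ Tup (Fin 7) z y) :
    rho (fun j => s j * e j) ≤ 2 ^ (∑ j, (e j).primeFactors.card) * rho s := by
  unfold rho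
  rw [← prod_pow_eq_pow_sum, ← prod_mul_distrib]
  apply prod_le_prod
  · intro j _
    exact prod_nonneg fun p _ => one_add_Jr_nonneg _ _
  · intro j _
    have h1 : s j * e j ∈ (PP z y).divisors := by
      have h2 := (mem_Tup'.1 h).1 j
      exact Nat.mem_divisors.2 ⟨h2, PP_ne_zero z y⟩
    have h2 : (s j).Coprime (e j) := Nat.coprime_of_squarefree_mul (dv_squarefree h1)
    rw [Nat.Coprime.primeFactors_mul h2, prod_union h2.disjoint_primeFactors, mul_comm]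
    apply mul_le_mul_of_nonneg_right
    · calc ∏ p ∈ (e j).primeFactors, (1 + Jr (D8 j) p) ≤ ∏ _p ∈ (e j).primeFactors, (2 : ℝ) :=
            prod_le_prod (fun p _ => one_add_Jr_nonneg _ _) fun p _ => one_add_Jr_le _ _
        _ = 2 ^ (e j).primeFactors.card := by rw [prod_const]
    · exact prod_nonneg fun p _ => one_add_Jr_nonneg _ _

/-- the number of the prime factors of `u` -/
lemma card_u {y Y X k : ℕ} {u : Fin 7 → ℕ} (hu : u ∈ Tup (Fin 7) y Y) (hX : (∏ j, u j) ^ 8 ≤ X)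
    (hk : X < (y + 1) ^ k) : ∑ j, (u j).primeFactors.card ≤ k := by
  have hd : ∀ j, u j ∈ (PP y Y).divisors := fun j =>
    Nat.mem_divisors.2 ⟨(mem_Tup'.1 hu).1 j, PP_ne_zero y Y⟩
  have h1 : (y + 1) ^ (∑ j, (u j).primeFactors.card) ≤ ∏ j, u j := by
    rw [← prod_pow_eq_pow_sum]
    apply prod_le_prod'
    intro j _
    have h2 : (y + 1) ^ (u j).primeFactors.card ≤ ∏ q ∈ (u j).primeFactors, q :=
      Finset.pow_card_le_prod _ _ _ (fun q hq => by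
        have := (dv_prime (hd j) (Nat.prime_of_mem_primeFactors hq)
          (Nat.dvd_of_mem_primeFactors hq)).1
        omega)
    rwa [Nat.prod_primeFactors_of_squarefree (dv_squarefree (hd j))] at h2
  have h3 : 1 ≤ ∏ j, u j := Nat.one_le_iff_ne_zero.2 (prod_ne_zero_iff.2 fun j _ =>
    dv_ne_zero (hd j))
  have h4 : (y + 1) ^ (∑ j, (u j).primeFactors.card) < (y + 1) ^ k :=
    calc (y + 1) ^ (∑ j, (u j).primeFactors.card) ≤ ∏ j, u j := h1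
      _ ≤ (∏ j, u j) ^ 8 := Nat.le_self_pow (by norm_num) _
      _ ≤ X := hX
      _ < _ := hk
  by_contra hcon
  push Not at hcon
  exact absurd (Nat.pow_le_pow_right (by omega : 0 < y + 1) hcon.le) (by omega)

lemma F8_le {e : ℤ} (he : e = 1 ∨ e = -1) {t : ℕ × ℕ} {X : ℕ} (hX : 16 ≤ X) (h1 : t.1 ≤ X)
    (h2 : t.2 ≤ X) (j : Fin 7) : (F8 e t j).natAbs ≤ X ^ 3 := by
  have hX3 : 16 * X ^ 2 ≤ X ^ 3 := by
    calc 16 * X ^ 2 ≤ X * X ^ 2 := Nat.mul_le_mul_right _ hX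
      _ = X ^ 3 := by ring
  have hXX : X ≤ X ^ 2 := Nat.le_self_pow (by norm_num) X
  set a : ℤ := (t.1 : ℤ) with ha
  set b : ℤ := e * (t.2 : ℤ) + 2 * (t.1 : ℤ) with hb
  have ha1 : |a| ≤ X := by
    rw [ha, Nat.abs_cast]
    exact_mod_cast h1
  have hb1 : |b| ≤ 3 * X := by
    have h3 : (t.1 : ℤ) ≤ X := by exact_mod_cast h1
    have h4 : (t.2 : ℤ) ≤ X := by exact_mod_cast h2
    have h5 : (0 : ℤ) ≤ t.1 := Nat.cast_nonneg _
    have h6 : (0 : ℤ) ≤ t.2 := Nat.cast_nonneg _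
    rw [hb, abs_le]
    rcases he with rfl | rfl
    · constructor <;> linarith
    · constructor <;> linarith
  obtain ⟨a2, a3⟩ := abs_le.1 ha1
  obtain ⟨b2, b3⟩ := abs_le.1 hb1
  have hX0 : (0 : ℤ) ≤ X := Nat.cast_nonneg _
  have key : |f8 a b j| ≤ 16 * (X : ℤ) ^ 2 := by
    have hXZ : (X : ℤ) ≤ (X : ℤ) ^ 2 := by exact_mod_cast hXX
    have hab : |a * b| ≤ 3 * (X : ℤ) ^ 2 := by
      rw [abs_mul]
      calc |a| * |b| ≤ X * (3 * X) := mul_le_mul ha1 hb1 (abs_nonneg _) hX0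
        _ = _ := by ring
    have haa : a ^ 2 ≤ (X : ℤ) ^ 2 := by
      rw [← sq_abs a]
      exact pow_le_pow_left₀ (abs_nonneg _) ha1 2
    have hbb : b ^ 2 ≤ 9 * (X : ℤ) ^ 2 := by
      rw [← sq_abs b]
      calc |b| ^ 2 ≤ (3 * (X : ℤ)) ^ 2 := pow_le_pow_left₀ (abs_nonneg _) hb1 2
        _ = _ := by ring
    obtain ⟨c2, c3⟩ := abs_le.1 hab
    have haa0 := sq_nonneg a
    have hbb0 := sq_nonneg b
    rw [abs_le]
    fin_cases j
    · show -(16 * (X : ℤ) ^ 2) ≤ a ∧ a ≤ 16 * (X : ℤ) ^ 2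
      constructor <;> linarith
    · show -(16 * (X : ℤ) ^ 2) ≤ b ∧ b ≤ 16 * (X : ℤ) ^ 2
      constructor <;> linarith
    · show -(16 * (X : ℤ) ^ 2) ≤ a - b ∧ a - b ≤ 16 * (X : ℤ) ^ 2
      constructor <;> linarith
    · show -(16 * (X : ℤ) ^ 2) ≤ a + b ∧ a + b ≤ 16 * (X : ℤ) ^ 2
      constructor <;> linarith
    · show -(16 * (X : ℤ) ^ 2) ≤ a ^ 2 - 2 * a * b - b ^ 2 ∧
        a ^ 2 - 2 * a * b - b ^ 2 ≤ 16 * (X : ℤ) ^ 2
      constructor <;> nlinarith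
    · show -(16 * (X : ℤ) ^ 2) ≤ a ^ 2 + 2 * a * b - b ^ 2 ∧
        a ^ 2 + 2 * a * b - b ^ 2 ≤ 16 * (X : ℤ) ^ 2
      constructor <;> nlinarith
    · show -(16 * (X : ℤ) ^ 2) ≤ a ^ 2 + b ^ 2 ∧ a ^ 2 + b ^ 2 ≤ 16 * (X : ℤ) ^ 2
      constructor <;> linarith
  have h3 : ((f8 a b j).natAbs : ℤ) ≤ ((X ^ 3 : ℕ) : ℤ) := by
    rw [Int.natCast_natAbs]
    refine key.trans ?_
    exact_mod_cast hX3
  exact_mod_cast h3

lemma cop_F8 {e : ℤ} (he : e = 1 ∨ e = -1) {t : ℕ × ℕ} (h : t.1.Coprime t.2) :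
    IsCoprime (t.1 : ℤ) (e * (t.2 : ℤ) + 2 * (t.1 : ℤ)) := by
  have h1 : IsCoprime (t.1 : ℤ) (t.2 : ℤ) := Nat.isCoprime_iff_coprime.2 h
  have h2 : IsCoprime (t.1 : ℤ) (e * (t.2 : ℤ)) := by
    rcases he with rfl | rfl
    · rwa [one_mul]
    · rw [neg_one_mul]
      exact h1.neg_right
  exact IsCoprime.add_mul_right_right_iff.2 h2

/-- the final inequality -/
lemma fin8 {C Z Dk X2 P1 V4 P2 P3 L g two twok N : ℝ} (hC : 0 ≤ C) (hZ : 0 ≤ Z) (hD : 0 ≤ Dk)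
    (hX : 0 ≤ X2) (h1 : 0 ≤ P1) (h4 : 0 ≤ V4) (h2 : 0 ≤ P2) (h3 : 0 ≤ P3) (hL : 0 < L)
    (hg : 0 ≤ g) (hN : N ≤ C * X2 * P1 * (V4 * P2) * (two * P3) / L) (ht : two ≤ twok) :
    N * (Z * Dk * V4 * g) ≤
      (C * Z) * (Dk * twok) * X2 * (g * P1) * (V4 * (V4 * P2)) * P3 / L := by
  have ha : 0 ≤ Z * Dk * V4 * g := mul_nonneg (mul_nonneg (mul_nonneg hZ hD) h4) hg
  have hb : 0 ≤ C * Z * Dk * X2 * (g * P1) * (V4 * (V4 * P2)) * P3 / L := by positivity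
  calc N * (Z * Dk * V4 * g) ≤ (C * X2 * P1 * (V4 * P2) * (two * P3) / L) * (Z * Dk * V4 * g) :=
        mul_le_mul_of_nonneg_right hN ha
    _ = (C * Z * Dk * X2 * (g * P1) * (V4 * (V4 * P2)) * P3 / L) * two := by ring
    _ ≤ (C * Z * Dk * X2 * (g * P1) * (V4 * (V4 * P2)) * P3 / L) * twok :=
        mul_le_mul_of_nonneg_left ht hb
    _ = _ := by ring

/-- **the average over the coprime pairs** -/
theorem avg8 (hcnt : CNT8) (e : ℤ) (he : e = 1 ∨ e = -1) : ∃ C : ℝ, ∀ X : ℕ, 1 ≤ X →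
    ∑ t ∈ (Icc 1 X ×ˢ Icc 1 X).filter (fun t : ℕ × ℕ =>
      t.1.Coprime t.2 ∧ ∀ j, F8 e t j ≠ 0),
    (2 : ℝ) ^ Module.finrank ℤ (EAB (-(M8 (t.1 : ℤ) (e * (t.2 : ℤ) + 2 * (t.1 : ℤ))))
      (-(N8 (t.1 : ℤ) (e * (t.2 : ℤ) + 2 * (t.1 : ℤ))))).toAffine.Point ≤ C * X ^ 2 := by
  classical
  obtain ⟨c, z1, hz1⟩ := hcnt e he
  obtain ⟨z0, hz0⟩ := nb8 c
  set z : ℕ := z0 + z1 + (2 * c + 2) + 2 with hz
  have hz2 : 2 ≤ z := by omega
  obtain ⟨C', hC'⟩ := hz0 z (by omega)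
  obtain ⟨C, K, y0, hC0, hK1, hcn⟩ := hz1 z (by omega)
  set κ : Fin 7 → Fin 3 → ℤ := fun j _ => κ8 j with hκdef
  have hsubb : SUBB := Pool.Agent.W125.RK2.subb_of Pool.Agent.W125.RK2.sub4
    Pool.Agent.W342.RK2.xcl
  have hNB0 : ∀ s, 0 ≤ NB c8 κ s := fun s => by
    unfold NB
    exact mul_nonneg (by positivity) (sum_nonneg fun _ _ => Nat.cast_nonneg _)
  have hκz : ∀ j, (κ8 j).natAbs ≤ z := fun j => by
    have : (κ8 j).natAbs ≤ 1 := by revert j; decide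
    omega
  set T : ℕ → Finset (ℕ × ℕ) := fun X => (Icc 1 X ×ˢ Icc 1 X).filter (fun t : ℕ × ℕ =>
      t.1.Coprime t.2 ∧ ∀ j, F8 e t j ≠ 0) with hT
  have key := ant (J := Fin 7) (Ω := ℕ × ℕ) (b := 16) (by norm_num) c T T
    (fun t => F8 e t) (fun X => (X : ℝ) ^ 2) z (fun s => NB c8 κ s * rho s)
    (fun t => (2 : ℝ) ^ Module.finrank ℤ
      (EAB (-(M8 (t.1 : ℤ) (e * (t.2 : ℤ) + 2 * (t.1 : ℤ))))
      (-(N8 (t.1 : ℤ) (e * (t.2 : ℤ) + 2 * (t.1 : ℤ))))).toAffine.Point)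
    (C * 4 ^ (z + 2)) C' (4 ^ 21 * 2) K (y0 + 16) (by omega) (fun X => Subset.refl _)
    (fun X Y hXY => ?_) (fun X hX => ?_)
    (fun X ω hω => ?_) (fun s => mul_nonneg (hNB0 s) (rho_nonneg s)) (fun t => by positivity)
    (by positivity) (by norm_num) hK1
    (fun y hy s e' hse => ?_) (fun y hy => ?_) ?_
  · exact key
  · intro t ht
    rw [hT, mem_filter, mem_product, mem_Icc, mem_Icc] at ht
    rw [hT, mem_filter, mem_product, mem_Icc, mem_Icc]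
    exact ⟨⟨⟨ht.1.1.1, ht.1.1.2.trans hXY⟩, ⟨ht.1.2.1, ht.1.2.2.trans hXY⟩⟩, ht.2⟩
  · have : (1 : ℝ) ≤ X := by exact_mod_cast hX
    positivity
  · rw [hT, mem_filter] at hω
    refine ⟨hω.2.2, fun p hp hzp j l hjl h => ?_⟩
    exact nd8 hp (by omega) (cop_F8 he hω.2.1) hjl h.1 h.2
  · have h1 := hsubb (Fin 7) c8 κ z y hz2 (fun j _ => κ8_ne j) (fun j _ => hκz j) s e' hse
    have h2 := rho_mul hse
    calc NB c8 κ (fun j => s j * e' j) * rho (fun j => s j * e' j)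
        ≤ (4 ^ (∑ j, (e' j).primeFactors.card) * NB c8 κ s) *
          (2 ^ (∑ j, (e' j).primeFactors.card) * rho s) :=
          mul_le_mul h1 h2 (rho_nonneg _) (mul_nonneg (by positivity) (hNB0 s))
      _ = 8 ^ (∑ j, (e' j).primeFactors.card) * (NB c8 κ s * rho s) := by
          have : (8 : ℝ) = 4 * 2 := by norm_num
          rw [this, mul_pow]
          ring
      _ ≤ 16 ^ (∑ j, (e' j).primeFactors.card) * (NB c8 κ s * rho s) := by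
          apply mul_le_mul_of_nonneg_right _ (mul_nonneg (hNB0 s) (rho_nonneg s))
          exact pow_le_pow_left₀ (by norm_num) (by norm_num) _
  · refine le_trans (le_of_eq ?_) (hC' y hy)
    apply sum_congr rfl
    intro s _
    rw [mul_assoc, rho_gw]
  intro X y Y k hy0 hzy hyK _ _ hk s hs v hv u hu h8 T' hT' hT2
  have hy00 : y0 ≤ y := by omega
  have hyX : y ≤ X := le_trans (Nat.le_self_pow (by omega) y) hyK
  have hX16 : 16 ≤ X := by omega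
  set g : ℝ := (NL (∏ j, s j) (LLs c8 κ s ∅) : ℝ) with hg
  have hg0 : 0 ≤ g := Nat.cast_nonneg _
  have h1 : ∀ t ∈ T', (2 : ℝ) ^ Module.finrank ℤ
      (EAB (-(M8 (t.1 : ℤ) (e * (t.2 : ℤ) + 2 * (t.1 : ℤ))))
      (-(N8 (t.1 : ℤ) (e * (t.2 : ℤ) + 2 * (t.1 : ℤ))))).toAffine.Point ≤
      4 ^ (z + 2) * (4 ^ 21) ^ k * 4 ^ (∑ j, (v j).primeFactors.card) * g := by
    intro t ht
    have ht1 := hT' ht
    rw [hT, mem_filter, mem_product, mem_Icc, mem_Icc] at ht1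
    obtain ⟨hts, htv, _⟩ := hT2 t ht
    have hr := rank8 (z := z) (y := y) (X := X) (k := k) hz2 (cop_F8 he ht1.2.1) ht1.2.2
      (fun j => F8_le he hX16 ht1.1.1.2 ht1.1.2.2 j) (by omega) hk
    have hts' : S1 z y (f8 (t.1 : ℤ) (e * (t.2 : ℤ) + 2 * (t.1 : ℤ))) = s := hts
    have htv' : S2 z y (f8 (t.1 : ℤ) (e * (t.2 : ℤ) + 2 * (t.1 : ℤ))) = v := htv
    rw [hts', htv'] at hr
    rw [hg]
    exact_mod_cast hr
  set Q : ℝ := C * X ^ 2 * (∏ j, gr (D8 j) 1 c (s j)) *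
        (∏ j, 4 ^ (v j).primeFactors.card * (gw 1 c (v j) / v j)) *
        (∏ j, 2 ^ (u j).primeFactors.card * (1 / (u j : ℝ))) / (Real.log y) ^ 7 with hQ
  have h3 : (T'.card : ℝ) ≤ Q := by
    refine le_trans ?_ (hcn X y Y hy00 hzy hyK s hs v hv u hu h8)
    have h4 : T' ⊆ (Icc 1 X ×ˢ Icc 1 X).filter (fun t : ℕ × ℕ => t.1.Coprime t.2 ∧
        S1 z y (F8 e t) = s ∧ S2 z y (F8 e t) = v ∧ ∀ j, (u j : ℤ) ∣ F8 e t j) := by
      intro t ht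
      have ht1 := hT' ht
      rw [hT, mem_filter] at ht1
      rw [mem_filter]
      exact ⟨ht1.1, ht1.2.1, (hT2 t ht).1, (hT2 t ht).2.1, (hT2 t ht).2.2⟩
    exact_mod_cast card_le_card h4
  have hly : 0 < Real.log y := Real.log_pos (by exact_mod_cast (by omega : 1 < y))
  have hcz : c ≤ z := by omega
  have hgr0 : 0 ≤ ∏ j, gr (D8 j) 1 c (s j) := prod_nonneg fun j _ =>
    gr_nonneg zero_le_one hcz (Nat.mem_divisors.2
      ⟨(mem_Tup'.1 hs).1 j, PP_ne_zero z y⟩)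
  have hgv0 : ∀ j, 0 ≤ gw 1 c (v j) / v j := fun j => div_nonneg
    (gw_nonneg zero_le_one hcz (Nat.mem_divisors.2
      ⟨(mem_Tup'.1 hv).1 j, PP_ne_zero z y⟩)) (Nat.cast_nonneg _)
  have hu2 : ∑ j, (u j).primeFactors.card ≤ k := by
    apply card_u hu _ hk
    refine le_trans (Nat.pow_le_pow_left ?_ 8) h8
    apply prod_le_prod'
    intro j _
    have hs0 : 0 < s j := Nat.pos_of_ne_zero (dv_ne_zero (Nat.mem_divisors.2
      ⟨(mem_Tup'.1 hs).1 j, PP_ne_zero z y⟩))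
    have hv0 : 0 < v j := Nat.pos_of_ne_zero (dv_ne_zero (Nat.mem_divisors.2
      ⟨(mem_Tup'.1 hv).1 j, PP_ne_zero z y⟩))
    exact Nat.le_mul_of_pos_left _ (Nat.mul_pos hs0 hv0)
  have hu0 : 0 ≤ ∏ j, 1 / (u j : ℝ) := prod_nonneg fun j _ => by positivity
  have hvprod : 0 ≤ ∏ j, (gw 1 c (v j) / v j) := prod_nonneg fun j _ => hgv0 j
  have hsumle : ∑ t ∈ T', (2 : ℝ) ^ Module.finrank ℤ
      (EAB (-(M8 (t.1 : ℤ) (e * (t.2 : ℤ) + 2 * (t.1 : ℤ))))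
        (-(N8 (t.1 : ℤ) (e * (t.2 : ℤ) + 2 * (t.1 : ℤ))))).toAffine.Point ≤
      (T'.card : ℝ) *
          (4 ^ (z + 2) * (4 ^ 21) ^ k * 4 ^ (∑ j, (v j).primeFactors.card) * g) := by
    refine (sum_le_sum h1).trans (le_of_eq ?_)
    rw [sum_const, nsmul_eq_mul]
  refine hsumle.trans ?_
  have e1 : NB c8 κ s = g := Pool.Agent.W230.RT.nb_eq c8_ne κ s
  have e2 : (∏ j, (16 : ℝ) ^ (v j).primeFactors.card * (gw 1 c (v j) / v j)) =
      4 ^ (∑ j, (v j).primeFactors.card) * (4 ^ (∑ j, (v j).primeFactors.card) *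
        ∏ j, (gw 1 c (v j) / v j)) := by
    rw [prod_mul_distrib, prod_pow_eq_pow_sum, ← mul_assoc, ← mul_pow]
    norm_num
  have e3 : NB c8 κ s * rho s * ∏ j, gw 1 c (s j) = g * ∏ j, gr (D8 j) 1 c (s j) := by
    rw [mul_assoc, rho_gw, e1]
  have e4 : (∏ j, (4 : ℝ) ^ (v j).primeFactors.card * (gw 1 c (v j) / v j)) =
      4 ^ (∑ j, (v j).primeFactors.card) * ∏ j, (gw 1 c (v j) / v j) := by
    rw [prod_mul_distrib, prod_pow_eq_pow_sum]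
  have e5 : (∏ j, (2 : ℝ) ^ (u j).primeFactors.card * (1 / (u j : ℝ))) =
      2 ^ (∑ j, (u j).primeFactors.card) * ∏ j, 1 / (u j : ℝ) := by
    rw [prod_mul_distrib, prod_pow_eq_pow_sum]
  rw [e2, e3, Fintype.card_fin, mul_pow]
  rw [hQ, e4, e5] at h3
  exact fin8 (V4 := (4 : ℝ) ^ (∑ j, (v j).primeFactors.card))
    (two := (2 : ℝ) ^ (∑ j, (u j).primeFactors.card)) hC0 (pow_nonneg (by norm_num) _)
    (pow_nonneg (pow_nonneg (by norm_num) _) _) (sq_nonneg _) hgr0 (pow_nonneg (by norm_num) _)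
    hvprod hu0 (pow_pos hly 7) hg0 h3 (pow_le_pow_right₀ (by norm_num) hu2)

end Pool.Agent.V7H45.G8
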