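import Mathlib
import Pool.Agent.V7H45.G8.Gr

/-! The abstract bound with weights `1 + (D / p)`: preparations (adapted from `W262.RK.AT1`). -/

namespace Pool.Agent.V7H45.G8

open Finset Pool.Agent.W262.RK Pool.Agent.W262.RK.AT Pool.Agent.W307.RT

variable {ι : Type} [Fintype ι] [DecidableEq ι]

open Classical in
/-- the summand -/
noncomputable def HH (Δ : ι → ℤ) (w : ι → ℝ) (L : ι → ι → Bool) (κ : ι → ℤ) (c : ℕ) (d : ι → ℕ) : ℝ :=
  if (∀ i j, i ≠ j → (d i).Coprime (d j)) then (∏ i, gr (Δ i) (w i) c (d i)) * Sym L κ d else 0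

lemma total_eq (Δ : ι → ℤ) (w : ι → ℝ) (L : ι → ι → Bool) (κ : ι → ℤ) (c z y : ℕ) :
    ∑ d ∈ Tup ι z y, (∏ i, gr (Δ i) (w i) c (d i)) * Sym L κ d =
      ∑ d ∈ Fintype.piFinset (fun _ : ι => (PP z y).divisors), HH Δ w L κ c d := by
  unfold Tup HH
  rw [sum_filter]

lemma abs_HH_le {Δ : ι → ℤ} {w : ι → ℝ} {L : ι → ι → Bool} {κ : ι → ℤ} {c z y : ℕ} (hw : ∀ i, 0 ≤ w i)
    (hz : c ≤ z) {d : ι → ℕ} (hd : ∀ i, d i ∈ (PP z y).divisors) :
    |HH Δ w L κ c d| ≤ ∏ i, gr (Δ i) (w i) c (d i) := by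
  have h0 : 0 ≤ ∏ i, gr (Δ i) (w i) c (d i) := prod_nonneg fun i _ => gr_nonneg (hw i) hz (hd i)
  unfold HH
  split_ifs
  · rw [abs_mul, abs_of_nonneg h0]
    exact mul_le_of_le_one_right h0 (abs_Sym_le _ _ _)
  · simpa using h0

/-- trivial bound -/
lemma triv {Δ : ι → ℤ} {w : ι → ℝ} {L : ι → ι → Bool} {κ : ι → ℤ} {c z y : ℕ} (hw : ∀ i, 0 ≤ w i)
    (hz : c ≤ z) {t : ι → Finset ℕ} (ht : ∀ i, t i ⊆ (PP z y).divisors) :
    |∑ d ∈ Fintype.piFinset t, HH Δ w L κ c d| ≤ ∏ i, ∑ m ∈ t i, gr (Δ i) (w i) c m := by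
  rw [prod_univ_sum]
  refine (abs_sum_le_sum_abs _ _).trans (sum_le_sum fun d hd => ?_)
  rw [Fintype.mem_piFinset] at hd
  exact abs_HH_le hw hz fun i => ht i (hd i)

/-- the summand as a function of one variable -/
lemma HH_update {Δ : ι → ℤ} {w : ι → ℝ} {L : ι → ι → Bool} {κ : ι → ℤ} {c z y : ℕ} (i : ι)
    (hL : L i i = false) (hz : 2 ≤ z) {e : ι → ℕ} (he : ∀ b, e b ∈ (PP z y).divisors) :
    (∀ m, HH Δ w L κ c (Function.update e i m) = 0) ∨
      (∀ a b, a ≠ i → b ≠ i → a ≠ b → (e a).Coprime (e b)) ∧ ∃ t : Bool, ∀ m ∈ (PP z y).divisors,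
      HH Δ w L κ c (Function.update e i m) =
        if m.Coprime (∏ b ∈ univ.erase i, e b) then
          ((∏ b ∈ univ.erase i, gr (Δ b) (w b) c (e b)) * RR L κ i e) *
            (gr (Δ i) (w i) c m * (Jr m (lk L i e) * Jr (κ i) m * x4 t m)) else 0 := by
  classical
  by_cases hcop : ∀ a b, a ≠ i → b ≠ i → a ≠ b → (e a).Coprime (e b)
  · right
    refine ⟨hcop, ?_⟩
    obtain ⟨t, ht⟩ := XX_char L i e (fun b => dv_odd hz (he b))
    refine ⟨t, fun m hm => ?_⟩
    have hiff : m.Coprime (∏ b ∈ univ.erase i, e b) ↔ ∀ b, b ≠ i → m.Coprime (e b) := by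
      rw [Nat.coprime_prod_right_iff]
      simp
    have hiff2 : (∀ a b, a ≠ b → (Function.update e i m a).Coprime (Function.update e i m b)) ↔
        ∀ b, b ≠ i → m.Coprime (e b) := by
      constructor
      · intro h b hb
        have := h i b (Ne.symm hb)
        rwa [Function.update_self, Function.update_of_ne hb] at this
      · intro h a b hab
        by_cases ha : a = i
        · subst ha
          rw [Function.update_self, Function.update_of_ne (Ne.symm hab)]
          exact h b (Ne.symm hab)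
        · by_cases hb : b = i
          · subst hb
            rw [Function.update_self, Function.update_of_ne ha]
            exact (h a ha).symm
          · rw [Function.update_of_ne ha, Function.update_of_ne hb]
            exact hcop a b ha hb hab
    unfold HH
    by_cases h : ∀ b, b ≠ i → m.Coprime (e b)
    · rw [if_pos (hiff2.2 h), if_pos (hiff.2 h), sym_update L κ i hL, ht m (dv_odd hz hm) h,
        ← mul_prod_erase univ _ (mem_univ i), Function.update_self]
      have : ∏ b ∈ univ.erase i, gr (Δ b) (w b) c (Function.update e i m b) =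
          ∏ b ∈ univ.erase i, gr (Δ b) (w b) c (e b) := by
        apply prod_congr rfl
        intro b hb
        rw [Function.update_of_ne (mem_erase.1 hb).1]
      rw [this]
      ring
    · rw [if_neg (fun h' => h (hiff2.1 h')), if_neg (fun h' => h (hiff.1 h'))]
  · left
    intro m
    unfold HH
    rw [if_neg]
    intro h
    apply hcop
    intro a b ha hb hab
    have := h a b hab
    rwa [Function.update_of_ne ha, Function.update_of_ne hb] at this

end Pool.Agent.V7H45.G8
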