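import Mathlib
import Pool.Agent.V7H45.G8.A1

/-! The abstract bound with weights `1 + (D / p)`: the cases (adapted from `W262.RK.AT2`). -/

namespace Pool.Agent.V7H45.G8

open Finset Pool.Agent.W262.RK Pool.Agent.W262.RK.AT Pool.Agent.W307.RT

variable {ι : Type} [Fintype ι] [DecidableEq ι]

/-- the bounds used (for fixed `z`) -/
structure Bd (Δ : ι → ℤ) (w : ι → ℝ) (κ : ι → ℤ) (c A z : ℕ) (C : ℝ) : Prop where
  w0 : ∀ i, 0 < w i
  w1 : ∀ i, w i ≤ 1 / 2
  z2 : 2 ≤ z
  zc : 2 * c ≤ z
  C1 : 1 ≤ C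
  F1 : ∀ i y, z < y → ∑ d ∈ (PP z y).divisors, gr (Δ i) (w i) c d * hA A d ≤ C * (Real.log y) ^ (w i)
  F2 : ∀ i (y V : ℕ), z < y → 2 ≤ V →
    ∑ d ∈ (PP z y).divisors.filter (fun d => d ≤ V), gr (Δ i) (w i) c d * hA A d ≤ C * (Real.log V) ^ (w i)
  F3 : ∀ i (y Y : ℕ), z < y → 1 ≤ Y →
    ∑ d ∈ (PP z y).divisors.filter (fun d => Y < d), gr (Δ i) (w i) c d * hA A d ≤
      C * Real.exp (-(Real.log Y / Real.log y)) * (Real.log y) ^ 4
  G : ∀ i (y m : ℕ), z < y → m ∈ (PP z y).divisors →
    gr (Δ i) (w i) c m ≤ C * (Real.log y) ^ (2 * c) * (1 / (m : ℝ))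
  E : ∀ i (y R r : ℕ) (e : Bool), z < y → R ≠ 0 → 1 < r → Squarefree r →
    (∀ p : ℕ, p.Prime → p ∣ r → z < p) →
    |∑ d ∈ (PP z y).divisors.filter (fun d => d.Coprime R),
        gr (Δ i) (w i) c d * (Jr d r * Jr (κ i) d * x4 e d)| ≤ C * Real.log r * hA A R

variable {Δ : ι → ℤ} {w : ι → ℝ} {L : ι → ι → Bool} {κ : ι → ℤ} {c A z : ℕ} {C : ℝ}

lemma gr_le_hA (hB : Bd Δ w κ c A z C) (i : ι) {y m : ℕ} (hm : m ∈ (PP z y).divisors) :
    gr (Δ i) (w i) c m ≤ gr (Δ i) (w i) c m * hA A m :=
  le_mul_of_one_le_right (gr_nonneg (hB.w0 i).le (by have := hB.zc; omega) hm) (one_le_hA _ m)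

/-- the sum over one large variable with a nonprincipal character -/
lemma inner (hB : Bd Δ w κ c A z C) (i : ι) (hL : L i i = false) {y V Y : ℕ} (hy : z < y) (hV : 2 ≤ V)
    (hVY : V ≤ Y) {e : ι → ℕ} (he : ∀ b, e b ∈ (PP z y).divisors) (hr : 1 < lk L i e) :
    |∑ m ∈ (PP z y).divisors.filter (fun m => V < m ∧ m ≤ Y), HH Δ w L κ c (Function.update e i m)| ≤
      (∏ b ∈ univ.erase i, gr (Δ b) (w b) c (e b) * hA A (e b)) *
        (C * Real.log (lk L i e) + C * (Real.log V) ^ (w i) +
          C * Real.exp (-(Real.log Y / Real.log y)) * (Real.log y) ^ 4) := by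
  have hcz : c ≤ z := by have := hB.zc; omega
  have hC0 : 0 ≤ C := zero_le_one.trans hB.C1
  have hV' : 0 ≤ Real.log V := Real.log_natCast_nonneg V
  have hr' : 0 ≤ Real.log (lk L i e) := Real.log_natCast_nonneg _
  have hP0 : 0 ≤ ∏ b ∈ univ.erase i, gr (Δ b) (w b) c (e b) * hA A (e b) :=
    prod_nonneg fun b _ => mul_nonneg (gr_nonneg (hB.w0 b).le hcz (he b)) (hA_nonneg _ _)
  have hB0 : 0 ≤ C * Real.log (lk L i e) + C * (Real.log V) ^ (w i) +
      C * Real.exp (-(Real.log Y / Real.log y)) * (Real.log y) ^ 4 := by positivity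
  rcases HH_update (Δ := Δ) (w := w) (κ := κ) (c := c) i hL hB.z2 he with h | ⟨hcop, t, ht⟩
  · rw [sum_eq_zero fun m _ => h m, abs_zero]
    exact mul_nonneg hP0 hB0
  · set R := ∏ b ∈ univ.erase i, e b with hR
    set P := ∏ b ∈ univ.erase i, gr (Δ b) (w b) c (e b) with hP
    set f : ℕ → ℝ := fun m => gr (Δ i) (w i) c m * (Jr m (lk L i e) * Jr (κ i) m * x4 t m) with hf
    have hPn : 0 ≤ P := prod_nonneg fun b _ => gr_nonneg (hB.w0 b).le hcz (he b)
    have hRne : R ≠ 0 := prod_ne_zero_iff.2 fun b _ => dv_ne_zero (he b)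
    have h1 : ∑ m ∈ (PP z y).divisors.filter (fun m => V < m ∧ m ≤ Y),
        HH Δ w L κ c (Function.update e i m) =
        P * RR L κ i e * ∑ m ∈ ((PP z y).divisors.filter (fun m => m.Coprime R)).filter
          (fun m => V < m ∧ m ≤ Y), f m := by
      rw [filter_filter, mul_sum]
      have h2 : (PP z y).divisors.filter (fun m => m.Coprime R ∧ V < m ∧ m ≤ Y) =
          ((PP z y).divisors.filter (fun m => V < m ∧ m ≤ Y)).filter (fun m => m.Coprime R) := by
        rw [filter_filter]
        apply filter_congr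
        intro m _
        tauto
      rw [h2]
      symm
      rw [sum_filter]
      apply sum_congr rfl
      intro m hm
      rw [ht m (mem_filter.1 hm).1]
    set D := (PP z y).divisors.filter (fun m => m.Coprime R) with hD
    have hDs : D ⊆ (PP z y).divisors := filter_subset _ _
    have h3 : ∑ m ∈ D.filter (fun m => V < m ∧ m ≤ Y), f m =
        ∑ m ∈ D, f m - ∑ m ∈ D.filter (fun m => m ≤ V), f m - ∑ m ∈ D.filter (fun m => Y < m), f m := by
      have e1 : ∑ m ∈ D.filter (fun m => V < m ∧ m ≤ Y), f m + ∑ m ∈ D.filter (fun m => Y < m), f m =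
          ∑ m ∈ D.filter (fun m => ¬ m ≤ V), f m := by
        rw [← sum_union]
        · apply sum_congr _ (fun _ _ => rfl)
          ext m
          simp only [mem_union, mem_filter]
          constructor
          · rintro (⟨h1, h2, h3⟩ | ⟨h1, h2⟩)
            · exact ⟨h1, by omega⟩
            · exact ⟨h1, by omega⟩
          · rintro ⟨h1, h2⟩
            by_cases h3 : m ≤ Y
            · exact Or.inl ⟨h1, by omega, h3⟩
            · exact Or.inr ⟨h1, by omega⟩
        · rw [disjoint_filter]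
          intro m _ h1 h2
          omega
      have e2 := sum_filter_add_sum_filter_not D (fun m => m ≤ V) f
      linarith
    have hfa : ∀ m ∈ (PP z y).divisors, |f m| ≤ gr (Δ i) (w i) c m * hA A m := by
      intro m hm
      have g0 := gr_nonneg (D := Δ i) (hB.w0 i).le hcz hm
      rw [hf]
      simp only
      rw [abs_mul, abs_of_nonneg g0]
      have : |Jr m (lk L i e) * Jr (κ i) m * x4 t m| ≤ 1 := by
        rw [abs_mul, abs_mul]
        exact mul_le_one₀ (mul_le_one₀ (abs_Jr_le _ _) (abs_nonneg _) (abs_Jr_le _ _)) (abs_nonneg _)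
          (abs_x4_le _ _)
      calc gr (Δ i) (w i) c m * |Jr m (lk L i e) * Jr (κ i) m * x4 t m| ≤ gr (Δ i) (w i) c m * 1 :=
            mul_le_mul_of_nonneg_left this g0
        _ ≤ gr (Δ i) (w i) c m * hA A m := mul_le_mul_of_nonneg_left (one_le_hA _ m) g0
    have hnn : ∀ m ∈ (PP z y).divisors, 0 ≤ gr (Δ i) (w i) c m * hA A m := fun m hm =>
      mul_nonneg (gr_nonneg (hB.w0 i).le hcz hm) (hA_nonneg _ _)
    have h4 : |∑ m ∈ D.filter (fun m => m ≤ V), f m| ≤ C * (Real.log V) ^ (w i) := by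
      refine (abs_sum_le_sum_abs _ _).trans ?_
      refine le_trans ?_ (hB.F2 i y V hy hV)
      calc ∑ m ∈ D.filter (fun m => m ≤ V), |f m| ≤ ∑ m ∈ D.filter (fun m => m ≤ V),
            gr (Δ i) (w i) c m * hA A m := sum_le_sum fun m hm => hfa m (hDs (mem_filter.1 hm).1)
        _ ≤ _ := sum_le_sum_of_subset_of_nonneg (filter_subset_filter _ hDs)
          fun m hm _ => hnn m (mem_filter.1 hm).1
    have h5 : |∑ m ∈ D.filter (fun m => Y < m), f m| ≤
        C * Real.exp (-(Real.log Y / Real.log y)) * (Real.log y) ^ 4 := by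
      refine (abs_sum_le_sum_abs _ _).trans ?_
      refine le_trans ?_ (hB.F3 i y Y hy (by omega))
      calc ∑ m ∈ D.filter (fun m => Y < m), |f m| ≤ ∑ m ∈ D.filter (fun m => Y < m),
            gr (Δ i) (w i) c m * hA A m := sum_le_sum fun m hm => hfa m (hDs (mem_filter.1 hm).1)
        _ ≤ _ := sum_le_sum_of_subset_of_nonneg (filter_subset_filter _ hDs)
          fun m hm _ => hnn m (mem_filter.1 hm).1
    have hsq : Squarefree (lk L i e) := by
      unfold lk
      apply squarefree_prod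
      · intro b _
        exact dv_squarefree (he b)
      · intro a ha b hb hab
        exact hcop a b (mem_erase.1 (mem_filter.1 ha).1).1 (mem_erase.1 (mem_filter.1 hb).1).1 hab
    have h6 : |∑ m ∈ D, f m| ≤ C * Real.log (lk L i e) * hA A R :=
      hB.E i y R (lk L i e) t hy hRne hr hsq fun p hp hpr => lk_primes he hp hpr
    have h7 : hA A R ≤ ∏ b ∈ univ.erase i, hA A (e b) :=
      hA_prod_le A _ _ fun b _ => dv_ne_zero (he b)
    have h8 : (1 : ℝ) ≤ ∏ b ∈ univ.erase i, hA A (e b) := by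
      calc (1 : ℝ) = ∏ b ∈ univ.erase i, (1 : ℝ) := by simp
        _ ≤ _ := prod_le_prod (fun _ _ => zero_le_one) fun b _ => one_le_hA _ _
    have hRR := abs_RR_le L κ i e
    rw [h1, abs_mul, abs_mul, abs_of_nonneg hPn, prod_mul_distrib]
    set H := ∏ b ∈ univ.erase i, hA A (e b) with hH
    have h9 : |∑ m ∈ D.filter (fun m => V < m ∧ m ≤ Y), f m| ≤
        H * (C * Real.log (lk L i e) + C * (Real.log V) ^ (w i) +
          C * Real.exp (-(Real.log Y / Real.log y)) * (Real.log y) ^ 4) := by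
      rw [h3]
      have a1 : |∑ m ∈ D, f m - ∑ m ∈ D.filter (fun m => m ≤ V), f m -
          ∑ m ∈ D.filter (fun m => Y < m), f m| ≤ |∑ m ∈ D, f m| +
          |∑ m ∈ D.filter (fun m => m ≤ V), f m| + |∑ m ∈ D.filter (fun m => Y < m), f m| := by
        refine (abs_sub _ _).trans ?_
        have := abs_sub (∑ m ∈ D, f m) (∑ m ∈ D.filter (fun m => m ≤ V), f m)
        linarith
      have b1 : 0 ≤ C * Real.log (lk L i e) := by positivity
      have b2 : 0 ≤ C * (Real.log V) ^ (w i) := by positivity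
      have b3 : 0 ≤ C * Real.exp (-(Real.log Y / Real.log y)) * (Real.log y) ^ 4 := by positivity
      have a2 : |∑ m ∈ D, f m| ≤ H * (C * Real.log (lk L i e)) := by
        refine h6.trans ?_
        rw [mul_comm]
        exact mul_le_mul_of_nonneg_right h7 b1
      have a3 := le_mul_of_one_le_left b2 h8
      have a4 := le_mul_of_one_le_left b3 h8
      calc _ ≤ _ := a1
        _ ≤ H * (C * Real.log (lk L i e)) + H * (C * (Real.log V) ^ (w i)) +
            H * (C * Real.exp (-(Real.log Y / Real.log y)) * (Real.log y) ^ 4) := by linarith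
        _ = _ := by ring
    calc P * |RR L κ i e| * |∑ m ∈ D.filter (fun m => V < m ∧ m ≤ Y), f m|
        ≤ P * 1 * (H * (C * Real.log (lk L i e) + C * (Real.log V) ^ (w i) +
          C * Real.exp (-(Real.log Y / Real.log y)) * (Real.log y) ^ 4)) := by
          apply mul_le_mul (mul_le_mul_of_nonneg_left hRR hPn) h9 (abs_nonneg _)
          positivity
      _ = _ := by ring

/-- the sum over the other variables -/
lemma sum_others (i : ι) (t : ι → Finset ℕ) (f : ι → ℕ → ℝ) :
    ∑ e ∈ Fintype.piFinset (Function.update t i {1}), ∏ b ∈ univ.erase i, f b (e b) =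
      ∏ b ∈ univ.erase i, ∑ m ∈ t b, f b m := by
  have h1 : ∀ e : ι → ℕ, ∏ b ∈ univ.erase i, f b (e b) = ∏ b, (if b = i then 1 else f b (e b)) := by
    intro e
    rw [← mul_prod_erase univ _ (mem_univ i)]
    rw [if_pos rfl, one_mul]
    apply prod_congr rfl
    intro b hb
    rw [if_neg (mem_erase.1 hb).1]
  simp_rw [h1]
  rw [← prod_univ_sum (Function.update t i {1}) (fun b m => if b = i then 1 else f b m),
    ← mul_prod_erase univ _ (mem_univ i)]
  simp only [Function.update_self, if_true, sum_const, card_singleton, one_smul, one_mul]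
  apply prod_congr rfl
  intro b hb
  have := (mem_erase.1 hb).1
  rw [Function.update_of_ne this]
  apply sum_congr rfl
  intro m _
  rw [if_neg this]

/-- the case of a maximal unlinked set of large variables and a small linked variable -/
lemma char_case (hB : Bd Δ w κ c A z C) (i : ι) (hL : L i i = false) {y V Y : ℕ} (hy : z < y)
    (hV : 2 ≤ V) (hVY : V ≤ Y) {t : ι → Finset ℕ} (ht : ∀ b, t b ⊆ (PP z y).divisors)
    (hti : t i = (PP z y).divisors.filter (fun m => V < m ∧ m ≤ Y)) (M : ℕ)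
    (hlk : ∀ e ∈ Fintype.piFinset (Function.update t i {1}), 1 < lk L i e ∧ lk L i e ≤ V ^ M) :
    |∑ d ∈ Fintype.piFinset t, HH Δ w L κ c d| ≤
      (∏ b ∈ univ.erase i, ∑ m ∈ t b, gr (Δ b) (w b) c m * hA A m) *
        (C * (M * Real.log V) + C * (Real.log V) ^ (w i) +
          C * Real.exp (-(Real.log Y / Real.log y)) * (Real.log y) ^ 4) := by
  have hcz : c ≤ z := by have := hB.zc; omega
  have hC0 : 0 ≤ C := zero_le_one.trans hB.C1
  have hV' : 0 ≤ Real.log V := Real.log_natCast_nonneg V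
  rw [sum_update t i]
  refine (abs_sum_le_sum_abs _ _).trans ?_
  rw [← sum_others i t (fun b m => gr (Δ b) (w b) c m * hA A m), sum_mul]
  apply sum_le_sum
  intro e he
  obtain ⟨hr1, hr2⟩ := hlk e he
  have he' : ∀ b, e b ∈ (PP z y).divisors := by
    intro b
    have := Fintype.mem_piFinset.1 he b
    by_cases hb : b = i
    · subst hb
      rw [Function.update_self, mem_singleton] at this
      rw [this]
      exact one_mem_dv z y
    · rw [Function.update_of_ne hb] at this
      exact ht b this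
  rw [hti]
  refine (inner hB i hL hy hV hVY he' hr1).trans ?_
  apply mul_le_mul_of_nonneg_left
  · have h1 : Real.log (lk L i e) ≤ M * Real.log V := by
      rw [← Real.log_pow]
      apply Real.log_le_log (by exact_mod_cast (by omega : 0 < lk L i e))
      exact_mod_cast hr2
    have h3 := mul_le_mul_of_nonneg_left h1 hC0
    linarith
  · exact prod_nonneg fun b _ => mul_nonneg (gr_nonneg (hB.w0 b).le hcz (he' b)) (hA_nonneg _ _)

end Pool.Agent.V7H45.G8
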