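import Mathlib
import Pool.Agent.W307.RT.RAT1
import Pool.Agent.V7H45.G8.A4

/-! The refined abstract bound with weights `1 + (D / p)`: the sum over the unlinked variables
(adapted from `W307.RT.RAT1`). -/

namespace Pool.Agent.V7H45.G8

open Finset Pool.Agent.W262.RK Pool.Agent.W262.RK.AT Pool.Agent.W307.RT

variable {ι : Type} [Fintype ι] [DecidableEq ι]

/-- the property of `FSB` for fixed `z`, `C`, `A` -/
def FS (Δ : ι → ℤ) (w : ι → ℝ) (c z A : ℕ) (C : ℝ) : Prop :=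
  ∀ (y R : ℕ) (W : Finset ι) (ψ φ : ι → ℕ → ℝ) (B : ι → ℝ), z < y → R ≠ 0 →
  (∀ i ∈ W, ψ i 1 = 1) → (∀ i ∈ W, ∀ m n, m * n ∣ PP z y → ψ i (m * n) = ψ i m * ψ i n) →
  (∀ i ∈ W, ∀ p, |φ i p| ≤ 1) → (∀ i ∈ W, ∀ p ∈ PS z y, ¬ p ∣ R → ψ i p = φ i p) →
  (∀ i ∈ W, ∑ p ∈ PS z y, φ i p * (1 + Jr (Δ i) p) / (p : ℝ) ≤ B i) →
    |∑ d ∈ (Tup ι z y).filter (fun d => (∀ i, (d i).Coprime R) ∧ ∀ i, i ∉ W → d i = 1),
      ∏ i ∈ W, (gr (Δ i) (w i) c (d i) * ψ i (d i))| ≤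
      C * Real.exp (∑ i ∈ W, w i * B i) * ∏ p ∈ R.primeFactors, (1 + (A : ℝ) / (p : ℝ))

/-- the hypothesis about the characters of the variables in `W` -/
def CH (Δ : ι → ℤ) (L : ι → ι → Bool) (κ : ι → ℤ) (z y : ℕ) (W : Finset ι) (t : ι → Finset ℕ)
    (B : ι → ℝ) : Prop :=
  ∀ e : ι → ℕ, (∀ b ∈ W, e b = 1) → (∀ b, b ∉ W → e b ∈ t b) →
    (∀ a b, a ≠ b → (e a).Coprime (e b)) → ∀ i ∈ W, ∃ φ : ℕ → ℝ, (∀ p, |φ p| ≤ 1) ∧
      (∀ p ∈ PS z y, (∀ b, ¬ p ∣ e b) → Ps L κ e i p = φ p) ∧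
      ∑ p ∈ PS z y, φ p * (1 + Jr (Δ i) p) / (p : ℝ) ≤ B i

/-- the inner sum -/
lemma inner_full {Δ : ι → ℤ} {w : ι → ℝ} {L : ι → ι → Bool} {κ : ι → ℤ} {c z A y : ℕ} {C : ℝ}
    (hw : ∀ i, 0 ≤ w i) (hcz : c ≤ z) (hC : 0 ≤ C) (hF : FS Δ w c z A C) (hy : z < y)
    {W : Finset ι} (hW : ∀ i ∈ W, ∀ j ∈ W, L i j = false) {t : ι → Finset ℕ}
    (ht : ∀ b, t b ⊆ (PP z y).divisors) (htW : ∀ b ∈ W, t b = (PP z y).divisors)
    {B : ι → ℝ} (hB : CH Δ L κ z y W t B) {e : ι → ℕ} (he : e ∈ Fintype.piFinset (tE W t)) :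
    |∑ f ∈ Fintype.piFinset (tF W t), HH Δ w L κ c (fun b => e b * f b)| ≤
      (C * Real.exp (∑ i ∈ W, w i * B i)) * ∏ b ∈ univ \ W, (gr (Δ b) (w b) c (e b) * hA A (e b)) := by
  classical
  obtain ⟨he1, he2⟩ := mem_tE.1 he
  have heD : ∀ b, e b ∈ (PP z y).divisors := by
    intro b
    by_cases hb : b ∈ W
    · rw [he1 b hb]; exact one_mem_dv z y
    · exact ht b (he2 b hb)
  have hg0 : ∀ b, 0 ≤ gr (Δ b) (w b) c (e b) := fun b => gr_nonneg (hw b) hcz (heD b)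
  have hRHS : 0 ≤ (C * Real.exp (∑ i ∈ W, w i * B i)) *
      ∏ b ∈ univ \ W, (gr (Δ b) (w b) c (e b) * hA A (e b)) :=
    mul_nonneg (mul_nonneg hC (Real.exp_pos _).le)
      (prod_nonneg fun b _ => mul_nonneg (hg0 b) (hA_nonneg _ _))
  by_cases hcop : ∀ a b, a ≠ b → (e a).Coprime (e b)
  swap
  · have h0 : ∀ f ∈ Fintype.piFinset (tF W t), HH Δ w L κ c (fun b => e b * f b) = 0 := by
      intro f _
      unfold HH
      rw [if_neg]
      intro h
      apply hcop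
      intro a b hab
      exact Nat.Coprime.coprime_mul_right (Nat.Coprime.coprime_mul_right_right (h a b hab))
    rw [sum_eq_zero h0, abs_zero]
    exact hRHS
  set R := ∏ b, e b with hR
  have hR0 : R ≠ 0 := prod_ne_zero_iff.2 fun b _ => dv_ne_zero (heD b)
  have hcR : ∀ m : ℕ, m.Coprime R ↔ ∀ b, m.Coprime (e b) := by
    intro m
    rw [hR, Nat.coprime_prod_right_iff]
    simp
  choose! φ hφ1 hφ2 hφ3 using hB e he1 he2 hcop
  have hmain := hF y R W (fun i => Ps L κ e i) φ B hy hR0 (fun i _ => Ps_one L κ e i)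
    (fun i _ m n hmn => by
      have h0 : m * n ≠ 0 := fun h => PP_ne_zero z y (by rw [h] at hmn; exact zero_dvd_iff.1 hmn)
      exact Ps_mul L κ e i (left_ne_zero_of_mul h0) (right_ne_zero_of_mul h0))
    hφ1 (fun i hi p hp hpR => hφ2 i hi p hp fun b hb =>
      hpR (hb.trans (dvd_prod_of_mem e (mem_univ b)))) hφ3
  have hkey : ∑ f ∈ Fintype.piFinset (tF W t), HH Δ w L κ c (fun b => e b * f b) =
      ((∏ b ∈ univ \ W, gr (Δ b) (w b) c (e b)) * RW L κ W e) *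
        ∑ d ∈ (Tup ι z y).filter (fun d => (∀ i, (d i).Coprime R) ∧ ∀ i, i ∉ W → d i = 1),
          ∏ i ∈ W, (gr (Δ i) (w i) c (d i) * Ps L κ e i (d i)) := by
    have h1 : (Tup ι z y).filter (fun d => (∀ i, (d i).Coprime R) ∧ ∀ i, i ∉ W → d i = 1) =
        (Fintype.piFinset (tF W t)).filter (fun d => (∀ i j, i ≠ j → (d i).Coprime (d j)) ∧
          ∀ i, (d i).Coprime R) := by
      ext d
      unfold Tup
      rw [mem_filter, mem_filter, mem_filter, Fintype.mem_piFinset, mem_tF]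
      constructor
      · rintro ⟨⟨h1, h2⟩, h3, h4⟩
        exact ⟨⟨fun b hb => by rw [htW b hb]; exact h1 b, h4⟩, h2, h3⟩
      · rintro ⟨⟨h1, h4⟩, h2, h3⟩
        refine ⟨⟨fun b => ?_, h2⟩, h3, h4⟩
        by_cases hb : b ∈ W
        · rw [← htW b hb]; exact h1 b hb
        · rw [h4 b hb]; exact one_mem_dv z y
    rw [h1, mul_sum, sum_filter]
    apply sum_congr rfl
    intro f hf
    obtain ⟨hf1, hf2⟩ := mem_tF.1 hf
    have hiff : (∀ a b, a ≠ b → (e a * f a).Coprime (e b * f b)) ↔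
        (∀ i j, i ≠ j → (f i).Coprime (f j)) ∧ ∀ i, (f i).Coprime R := by
      constructor
      · intro h
        refine ⟨fun i j hij => Nat.Coprime.coprime_mul_left
          (Nat.Coprime.coprime_mul_left_right (h i j hij)), fun i => ?_⟩
        rw [hcR]
        intro b
        by_cases hib : i = b
        · subst hib
          by_cases hi : i ∈ W
          · rw [he1 i hi]; exact Nat.coprime_one_right _
          · rw [hf2 i hi]; exact Nat.coprime_one_left _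
        · exact Nat.Coprime.coprime_mul_left (Nat.Coprime.coprime_mul_right_right (h i b hib))
      · rintro ⟨h1, h2⟩ a b hab
        have h2a := (hcR _).1 (h2 a)
        have h2b := (hcR _).1 (h2 b)
        exact Nat.Coprime.mul_left (Nat.Coprime.mul_right (hcop a b hab) (h2b a).symm)
          (Nat.Coprime.mul_right (h2a b) (h1 a b hab))
    unfold HH
    by_cases hc : (∀ i j, i ≠ j → (f i).Coprime (f j)) ∧ ∀ i, (f i).Coprime R
    · rw [if_pos (hiff.2 hc), if_pos hc, Sym_split κ hW he1 hf2]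
      have h3 : ∏ i, gr (Δ i) (w i) c (e i * f i) = (∏ b ∈ univ \ W, gr (Δ b) (w b) c (e b)) *
          ∏ i ∈ W, gr (Δ i) (w i) c (f i) := by
        rw [← prod_sdiff (subset_univ W)]
        congr 1
        · apply prod_congr rfl
          intro b hb
          rw [hf2 b (mem_sdiff.1 hb).2, mul_one]
        · apply prod_congr rfl
          intro b hb
          rw [he1 b hb, one_mul]
      rw [h3, prod_mul_distrib]
      ring
    · rw [if_neg (fun h => hc (hiff.1 h)), if_neg hc]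
  rw [hkey, abs_mul, abs_mul, abs_of_nonneg (prod_nonneg fun b _ => hg0 b), prod_mul_distrib]
  have hRA : ∏ p ∈ R.primeFactors, (1 + (A : ℝ) / (p : ℝ)) ≤ ∏ b ∈ univ \ W, hA A (e b) := by
    have h1 : hA A R ≤ ∏ b, hA A (e b) := hA_prod_le A univ e fun b _ => dv_ne_zero (heD b)
    have h2 : ∏ b, hA A (e b) = ∏ b ∈ univ \ W, hA A (e b) := by
      rw [← prod_sdiff (subset_univ W)]
      rw [prod_eq_one (s := W) (fun b hb => by rw [he1 b hb, hA_one]), mul_one]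
    rw [← h2]
    exact h1
  have hP0 : 0 ≤ ∏ b ∈ univ \ W, gr (Δ b) (w b) c (e b) := prod_nonneg fun b _ => hg0 b
  have hCe : 0 ≤ C * Real.exp (∑ i ∈ W, w i * B i) := mul_nonneg hC (Real.exp_pos _).le
  calc (∏ b ∈ univ \ W, gr (Δ b) (w b) c (e b)) * |RW L κ W e| *
        |∑ d ∈ (Tup ι z y).filter (fun d => (∀ i, (d i).Coprime R) ∧ ∀ i, i ∉ W → d i = 1),
          ∏ i ∈ W, (gr (Δ i) (w i) c (d i) * Ps L κ e i (d i))|
      ≤ (∏ b ∈ univ \ W, gr (Δ b) (w b) c (e b)) * 1 *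
        (C * Real.exp (∑ i ∈ W, w i * B i) * ∏ b ∈ univ \ W, hA A (e b)) := by
        apply mul_le_mul (mul_le_mul_of_nonneg_left (abs_RW_le L κ W e) hP0) _ (abs_nonneg _)
          (by positivity)
        exact hmain.trans (mul_le_mul_of_nonneg_left hRA hCe)
    _ = _ := by ring

/-- the sum when all the variables of `W` are unrestricted -/
lemma full_case {Δ : ι → ℤ} {w : ι → ℝ} {L : ι → ι → Bool} {κ : ι → ℤ} {c z A y : ℕ} {C : ℝ}
    (hw : ∀ i, 0 ≤ w i) (hcz : c + A ≤ z) (hC : 0 ≤ C) (hF : FS Δ w c z A C) (hy : z < y)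
    {W : Finset ι} (hW : ∀ i ∈ W, ∀ j ∈ W, L i j = false) {t : ι → Finset ℕ}
    (ht : ∀ b, t b ⊆ (PP z y).divisors) (htW : ∀ b ∈ W, t b = (PP z y).divisors)
    {B : ι → ℝ} (hB : CH Δ L κ z y W t B) :
    |∑ d ∈ Fintype.piFinset t, HH Δ w L κ c d| ≤
      (C * Real.exp (∑ i ∈ W, w i * B i)) *
        ∏ b ∈ univ \ W, ∑ m ∈ t b, gr (Δ b) (w b) (c + A) m * hA A m := by
  rw [sum_split W t]
  refine (abs_sum_le_sum_abs _ _).trans ?_
  rw [← sum_off W t (fun b m => gr (Δ b) (w b) (c + A) m * hA A m), mul_sum]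
  apply sum_le_sum
  intro e he
  refine (inner_full hw (by omega) hC hF hy hW ht htW hB he).trans ?_
  apply mul_le_mul_of_nonneg_left _ (mul_nonneg hC (Real.exp_pos _).le)
  obtain ⟨he1, he2⟩ := mem_tE.1 he
  apply prod_le_prod
  · intro b hb
    have hm := ht b (he2 b (mem_sdiff.1 hb).2)
    exact mul_nonneg (gr_nonneg (hw b) (by omega) hm) (hA_nonneg _ _)
  · intro b hb
    have hm := ht b (he2 b (mem_sdiff.1 hb).2)
    refine (gr_hA (hw b) hcz hm).trans ?_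
    exact le_mul_of_one_le_right (gr_nonneg (hw b) hcz hm) (one_le_hA _ _)

end Pool.Agent.V7H45.G8
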