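import Mathlib
import Pool.Agent.W307.RT.RAT3
import Pool.Agent.V7H45.G8.R2

/-! The refined abstract bound with weights `1 + (D / p)`: the main estimate (adapted from
`W307.RT.RAT3`). -/

namespace Pool.Agent.V7H45.G8

open Finset Pool.Agent.W262.RK Pool.Agent.W262.RK.AT Pool.Agent.W307.RT

variable {ι : Type} [Fintype ι] [DecidableEq ι]

/-- the bounds of FULL -/
structure FB (Δ : ι → ℤ) (w : ι → ℝ) (c A z : ℕ) (C : ℝ) : Prop where
  w0 : ∀ i, 0 < w i
  w1 : ∀ i, w i ≤ 1 / 2
  z2 : 2 ≤ z
  zc : c ≤ z
  C1 : 1 ≤ C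
  F2 : ∀ i (y V : ℕ), z < y → 2 ≤ V →
    ∑ d ∈ (PP z y).divisors.filter (fun d => d ≤ V), gr (Δ i) (w i) c d * hA A d ≤ C * (Real.log V) ^ (w i)
  F3 : ∀ i (y Y : ℕ), z < y → 1 ≤ Y →
    ∑ d ∈ (PP z y).divisors.filter (fun d => Y < d), gr (Δ i) (w i) c d * hA A d ≤
      C * Real.exp (-(Real.log Y / Real.log y)) * (Real.log y) ^ 4

/-- the main estimate -/
lemma main_est {Δ : ι → ℤ} {w : ι → ℝ} {L : ι → ι → Bool} {κ : ι → ℤ} {c z A : ℕ} {C1 Cs : ℝ}
    (hB : FB Δ w (c + A) A z C1) (hCs : 0 ≤ Cs) (hF : FS Δ w c z A Cs) (N : Finset ι)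
    (ρ : ι → Fin 4) (h3 : ∀ b, b ∉ N → ρ b ≠ 3)
    (hW : ∀ i ∈ WW N ρ, ∀ j ∈ WW N ρ, L i j = false) (A' : ℕ) {C0 : ℝ} (hC0 : 0 ≤ C0)
    (P : Finset ι) : ∃ C' : ℝ, 0 ≤ C' ∧ ∀ y, z < y → ∀ G : ℝ,
      (G = Real.log (VV A' (Real.log y)) ∨
        (G = 1 ∧ UU N ρ ⊆ P ∧ ∀ b, b ∉ N → ρ b ≠ 1)) →
      CH Δ L κ z y (WW N ρ) (tN N z y (VV A' (Real.log y)) (YY A' (Real.log y)) ρ)
        (fun i => C0 + if i ∈ P then Real.log (Real.log y) else 2 * Real.log G) →
      |∑ d ∈ Fintype.piFinset (tN N z y (VV A' (Real.log y)) (YY A' (Real.log y)) ρ),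
        HH Δ w L κ c d| ≤
      C' * (Real.log y) ^ (∑ i ∈ (WW N ρ).filter (fun i => i ∈ P), w i) *
        G ^ (2 * Fintype.card ι) := by
  classical
  obtain ⟨Cv, hCv0, hCv⟩ := log_VV_le A' (zero_lt_one : (0 : ℝ) < 1)
  have hC1 := hB.C1
  have hC10 : 0 ≤ C1 := zero_le_one.trans hC1
  set D : ℝ := Real.exp C0 + C1 * (Cv + 26) with hD
  have hE0 : 1 ≤ Real.exp C0 := Real.one_le_exp hC0
  have hD1 : 1 ≤ D := by
    have : 0 ≤ C1 * (Cv + 26) := by positivity
    linarith
  set M := Fintype.card ι with hM
  refine ⟨Cs * D ^ M * C1 ^ M, by positivity, fun y hy G hG hCH => ?_⟩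
  have hly := one_le_log hB.z2 hy
  set l := Real.log y with hl
  have hl0 : 0 < l := by linarith
  set V := VV A' l with hV
  set Y := YY A' l with hY
  have hV3 : 3 ≤ V := three_le_VV A' l
  have hVY : V ≤ Y := VV_le_YY A' l
  have hlV : 1 ≤ Real.log V := one_le_log_VV A' l
  have hG1 : 1 ≤ G := by
    rcases hG with h | h
    · rw [h]; exact hlV
    · rw [h.1]
  have hG0 : 0 < G := by linarith
  have hlVl : Real.log V ≤ Cv * l := by
    have := hCv l hly
    rwa [Real.rpow_one] at this
  have hY1 : 1 ≤ Y := by omega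
  have hlY : l ≤ Real.log Y / l := by
    rw [le_div_iff₀ hl0]
    have := log_YY_ge A' l
    nlinarith
  have hF3 : ∀ i, ∑ d ∈ (PP z y).divisors.filter (fun d => Y < d),
      gr (Δ i) (w i) (c + A) d * hA A d ≤ 24 * C1 := by
    intro i
    refine (hB.F3 i y Y hy hY1).trans ?_
    have a1 : Real.exp (-(Real.log Y / l)) ≤ Real.exp (-l) := Real.exp_le_exp.2 (by linarith)
    have a2 := exp_neg_pow 4 hly
    have a3 : ((Nat.factorial 4 : ℕ) : ℝ) = 24 := by norm_num [Nat.factorial]
    rw [a3] at a2
    have a4 : Real.exp (-(Real.log Y / l)) * l ^ 4 ≤ 24 :=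
      (mul_le_mul_of_nonneg_right a1 (by positivity)).trans a2
    calc C1 * Real.exp (-(Real.log Y / l)) * l ^ 4 =
        C1 * (Real.exp (-(Real.log Y / l)) * l ^ 4) := by ring
      _ ≤ C1 * 24 := mul_le_mul_of_nonneg_left a4 hC10
      _ = 24 * C1 := by ring
  set B : ι → ℝ := fun i => C0 + if i ∈ P then Real.log l else 2 * Real.log G with hBdef
  set t := tN N z y V Y ρ with ht
  have htD : ∀ b ∈ WW N ρ, b ∉ UU N ρ → t b = (PP z y).divisors := by
    intro b hb hbU
    have : b ∈ N := by
      rw [mem_WW] at hb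
      rw [mem_UU] at hbU
      tauto
    rw [ht]
    unfold tN
    rw [if_pos this]
  have htU : ∀ b ∈ UU N ρ, t b = lg z y V Y := by
    intro b hb
    rw [mem_UU] at hb
    rw [ht]
    unfold tN
    rw [if_neg hb.1, hb.2]
    exact cell_two (by omega)
  have hres := res_case (κ := κ) (fun i => (hB.w0 i).le) hB.zc hCs hF hy hVY
    (fun i => hB.F2 i y V hy (by omega)) hF3 (UU N ρ) (WW N ρ) t subset_union_left hW
    (tN_sub N z y V Y ρ) htD htU hCH
  refine hres.trans ?_
  set g : ι → ℝ := fun i => if i ∈ P then l ^ (w i) else G with hg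
  have hg1 : ∀ i, 1 ≤ g i := by
    intro i
    rw [hg]
    simp only
    split_ifs
    · exact Real.one_le_rpow hly (hB.w0 i).le
    · exact hG1
  have hfac : ∀ i, Real.exp (w i * B i) ≤ Real.exp C0 * g i := by
    intro i
    have hw0 := (hB.w0 i).le
    have hw1 := hB.w1 i
    have e1 : Real.exp (w i * B i) = Real.exp (w i * C0) *
        Real.exp (w i * (if i ∈ P then Real.log l else 2 * Real.log G)) := by
      rw [← Real.exp_add, hBdef]
      congr 1
      ring
    rw [e1]
    apply mul_le_mul
    · apply Real.exp_le_exp.2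
      nlinarith
    · rw [hg]
      simp only
      split_ifs
      · rw [Real.rpow_def_of_pos hl0, mul_comm]
      · have hlG : 0 ≤ Real.log G := Real.log_nonneg hG1
        calc Real.exp (w i * (2 * Real.log G)) ≤ Real.exp (Real.log G) := by
              apply Real.exp_le_exp.2
              nlinarith
          _ = G := Real.exp_log hG0
    · exact (Real.exp_pos _).le
    · exact (Real.exp_pos _).le
  have hfacW : ∀ i, Real.exp (w i * B i) ≤ D * g i := by
    intro i
    refine (hfac i).trans ?_
    apply mul_le_mul_of_nonneg_right _ (by linarith [hg1 i])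
    have : 0 ≤ C1 * (Cv + 26) := by positivity
    linarith
  have hfacU : ∀ i ∈ UU N ρ, Real.exp (w i * B i) + C1 * (Real.log V) ^ (w i) + 24 * C1 ≤
      D * g i := by
    intro i hi
    have hw0 := (hB.w0 i).le
    have hw1 := hB.w1 i
    have h1 := hfac i
    have h2 : (Real.log V) ^ (w i) ≤ (Cv + 1) * g i := by
      by_cases hiP : i ∈ P
      · have : g i = l ^ (w i) := by rw [hg]; simp only; rw [if_pos hiP]
        rw [this]
        calc (Real.log V) ^ (w i) ≤ ((Cv + 1) * l) ^ (w i) :=
              Real.rpow_le_rpow (by linarith) (by nlinarith) hw0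
          _ = (Cv + 1) ^ (w i) * l ^ (w i) := Real.mul_rpow (by linarith) hl0.le
          _ ≤ (Cv + 1) ^ (1 : ℝ) * l ^ (w i) := by
              apply mul_le_mul_of_nonneg_right _ (by positivity)
              exact Real.rpow_le_rpow_of_exponent_le (by linarith) (by linarith)
          _ = _ := by rw [Real.rpow_one]
      · have hGV : G = Real.log V := by
          rcases hG with h | h
          · exact h
          · exact absurd (h.2.1 hi) hiP
        have : g i = G := by rw [hg]; simp only; rw [if_neg hiP]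
        rw [this, hGV]
        calc (Real.log V) ^ (w i) ≤ (Real.log V) ^ (1 : ℝ) :=
              Real.rpow_le_rpow_of_exponent_le hlV (by linarith)
          _ = Real.log V := Real.rpow_one _
          _ ≤ (Cv + 1) * Real.log V := by nlinarith
    have h3 := mul_le_mul_of_nonneg_left h2 hC10
    have h4 := hg1 i
    have h5 : 24 * C1 ≤ C1 * 24 * g i := by nlinarith
    have h6 : 0 ≤ C1 * g i := by positivity
    rw [hD]
    nlinarith
  have hnn : ∀ b, ∀ m ∈ (PP z y).divisors, 0 ≤ gr (Δ b) (w b) (c + A) m * hA A m := fun b m hm =>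
    mul_nonneg (gr_nonneg (hB.w0 b).le hB.zc hm) (hA_nonneg _ _)
  have hDg0 : ∀ i, 0 ≤ D * g i := fun i => by have := hg1 i; positivity
  have hWprod : (∏ i ∈ UU N ρ, (Real.exp (w i * B i) + C1 * (Real.log V) ^ (w i) + 24 * C1)) *
      Real.exp (∑ i ∈ WW N ρ \ UU N ρ, w i * B i) ≤ ∏ i ∈ WW N ρ, (D * g i) := by
    have hsubUW : UU N ρ ⊆ WW N ρ := subset_union_left
    rw [Real.exp_sum, ← prod_sdiff hsubUW, mul_comm]
    apply mul_le_mul
    · exact prod_le_prod (fun i _ => (Real.exp_pos _).le) fun i _ => hfacW i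
    · apply prod_le_prod _ hfacU
      intro i _
      have := (Real.exp_pos (w i * B i)).le
      have h2 : 0 ≤ (Real.log V) ^ (w i) := Real.rpow_nonneg (by linarith) _
      positivity
    · apply prod_nonneg
      intro i _
      have := (Real.exp_pos (w i * B i)).le
      have h2 : 0 ≤ (Real.log V) ^ (w i) := Real.rpow_nonneg (by linarith) _
      positivity
    · exact prod_nonneg fun i _ => hDg0 i
  have hcardM : ∀ s : Finset ι, s.card ≤ M := fun s =>
    (card_le_card (subset_univ s)).trans (le_of_eq card_univ)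
  have hWprod2 : ∏ i ∈ WW N ρ, (D * g i) ≤
      D ^ M * (l ^ (∑ i ∈ (WW N ρ).filter (fun i => i ∈ P), w i) * G ^ M) := by
    rw [prod_mul_distrib, prod_const, hg]
    simp only
    rw [prod_ite, prod_const, ← Real.rpow_sum_of_pos hl0]
    apply mul_le_mul (pow_le_pow_right₀ hD1 (hcardM _))
    · apply mul_le_mul_of_nonneg_left _ (by positivity)
      exact pow_le_pow_right₀ hG1 (hcardM _)
    · positivity
    · positivity
  have hoth : ∏ b ∈ univ \ WW N ρ, ∑ m ∈ t b, gr (Δ b) (w b) (c + A) m * hA A m ≤ C1 ^ M * G ^ M := by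
    rw [← mul_pow]
    have hC1G : 1 ≤ C1 * G := by nlinarith
    calc ∏ b ∈ univ \ WW N ρ, ∑ m ∈ t b, gr (Δ b) (w b) (c + A) m * hA A m
        ≤ ∏ b ∈ univ \ WW N ρ, (C1 * G) := by
          apply prod_le_prod
          · intro b _
            exact sum_nonneg fun m hm => hnn b m (tN_sub N z y V Y ρ b hm)
          · intro b hb
            have hbW := (mem_sdiff.1 hb).2
            rw [mem_WW, not_or] at hbW
            have htb : t b = cell z y V Y (ρ b) := by
              rw [ht]
              unfold tN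
              rw [if_neg hbW.1]
            rw [htb]
            have h3b := h3 b hbW.1
            have hcases : ρ b = 0 ∨ ρ b = 1 := by
              have h2b := hbW.2
              revert h2b h3b
              generalize ρ b = r
              revert r
              decide
            rcases hcases with h0 | h0
            · rw [h0]
              calc ∑ m ∈ cell z y V Y 0, gr (Δ b) (w b) (c + A) m * hA A m
                  ≤ ∑ m ∈ {1}, gr (Δ b) (w b) (c + A) m * hA A m := by
                    apply sum_le_sum_of_subset_of_nonneg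
                    · intro m hm
                      rw [mem_singleton]
                      exact cell_zero hm
                    · intro m hm _
                      rw [mem_singleton] at hm
                      rw [hm, gr_one, hA_one]
                      norm_num
                _ = 1 := by rw [sum_singleton, gr_one, hA_one, mul_one]
                _ ≤ _ := hC1G
            · have hGV : G = Real.log V := by
                rcases hG with h | h
                · exact h
                · exact absurd h0 (h.2.2 b hbW.1)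
              rw [h0]
              calc ∑ m ∈ cell z y V Y 1, gr (Δ b) (w b) (c + A) m * hA A m
                  ≤ ∑ m ∈ (PP z y).divisors.filter (fun d => d ≤ V),
                      gr (Δ b) (w b) (c + A) m * hA A m := by
                    apply sum_le_sum_of_subset_of_nonneg
                    · intro m hm
                      rw [mem_filter]
                      exact ⟨cell_sub _ _ _ _ _ hm, (cell_one hm).2⟩
                    · intro m hm _
                      exact hnn b m (mem_filter.1 hm).1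
                _ ≤ C1 * (Real.log V) ^ (w b) := hB.F2 b y V hy (by omega)
                _ ≤ C1 * G := by
                    apply mul_le_mul_of_nonneg_left _ hC10
                    rw [hGV]
                    calc (Real.log V) ^ (w b) ≤ (Real.log V) ^ (1 : ℝ) :=
                          Real.rpow_le_rpow_of_exponent_le hlV (by linarith [hB.w1 b])
                      _ = _ := Real.rpow_one _
      _ = (C1 * G) ^ (univ \ WW N ρ).card := by rw [prod_const]
      _ ≤ (C1 * G) ^ M := pow_le_pow_right₀ hC1G (hcardM _)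
  have hoth0 : 0 ≤ ∏ b ∈ univ \ WW N ρ, ∑ m ∈ t b, gr (Δ b) (w b) (c + A) m * hA A m :=
    prod_nonneg fun b _ => sum_nonneg fun m hm => hnn b m (tN_sub N z y V Y ρ b hm)
  set S := ∑ i ∈ (WW N ρ).filter (fun i => i ∈ P), w i with hS
  calc Cs * (∏ i ∈ UU N ρ, (Real.exp (w i * B i) + C1 * (Real.log V) ^ (w i) + 24 * C1)) *
        Real.exp (∑ i ∈ WW N ρ \ UU N ρ, w i * B i) *
        ∏ b ∈ univ \ WW N ρ, ∑ m ∈ t b, gr (Δ b) (w b) (c + A) m * hA A m
      = Cs * ((∏ i ∈ UU N ρ, (Real.exp (w i * B i) + C1 * (Real.log V) ^ (w i) + 24 * C1)) *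
        Real.exp (∑ i ∈ WW N ρ \ UU N ρ, w i * B i)) *
        ∏ b ∈ univ \ WW N ρ, ∑ m ∈ t b, gr (Δ b) (w b) (c + A) m * hA A m := by ring
    _ ≤ Cs * (D ^ M * (l ^ S * G ^ M)) * (C1 ^ M * G ^ M) := by
        apply mul_le_mul _ hoth hoth0 (by positivity)
        exact mul_le_mul_of_nonneg_left (hWprod.trans hWprod2) hCs
    _ = Cs * D ^ M * C1 ^ M * l ^ S * G ^ (2 * M) := by
        rw [two_mul, pow_add]
        ring

end Pool.Agent.V7H45.G8
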