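import Pool.Agent.V7H45.G8.Inp
import Pool.Agent.V7H45.G8.R5
import Pool.Agent.W307.RT.NB4

/-!
# The refined abstract bound for sums of products of Jacobi symbols, weights `1 + (D / p)`
-/

set_option autoImplicit false

namespace Pool.Agent.V7H45.G8

open Finset Pool.Agent.W262.RK Pool.Agent.W262.RK.AT Pool.Agent.W307.RT

/-- `∏_{p ∣ m} (1 + A / p)` is at most a power of `log y` -/
lemma hA_le_log (A : ℕ) : ∃ C : ℝ, 0 ≤ C ∧ ∀ z y m : ℕ, 2 ≤ y → m ∈ (PP z y).divisors →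
    hA A m ≤ C * (Real.log y) ^ A := by
  obtain ⟨CM, hCM0, hCM⟩ := Pool.Agent.W655.RK.mertens
  refine ⟨Real.exp (A * CM), (Real.exp_pos _).le, fun z y m hy hm => ?_⟩
  have hly : 0 < Real.log y := Real.log_pos (by exact_mod_cast (by omega : 1 < y))
  have hsub : m.primeFactors ⊆ PS z y := by
    rw [← PP_primeFactors]
    exact Nat.primeFactors_mono (Nat.dvd_of_mem_divisors hm) (PP_ne_zero z y)
  unfold hA
  calc ∏ p ∈ m.primeFactors, (1 + (A : ℝ) / (p : ℝ)) ≤ ∏ p ∈ PS z y, (1 + (A : ℝ) / (p : ℝ)) := by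
        refine Finset.prod_le_prod_of_subset_of_one_le hsub (fun p _ => by positivity)
          fun p _ _ => one_le_fac A p
    _ ≤ Real.exp (∑ p ∈ PS z y, (A : ℝ) / (p : ℝ)) :=
        Pool.Agent.W655.RK.prod_le_exp _ _ fun p _ => by positivity
    _ ≤ Real.exp (A * (Real.log (Real.log y) + CM)) := by
        apply Real.exp_le_exp.2
        have h1 : ∑ p ∈ PS z y, (A : ℝ) / (p : ℝ) = A * ∑ p ∈ PS z y, (1 : ℝ) / p := by
          rw [mul_sum]
          apply sum_congr rfl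
          intro p _
          ring
        rw [h1]
        exact mul_le_mul_of_nonneg_left (hCM z y hy) (Nat.cast_nonneg A)
    _ = Real.exp (A * CM) * (Real.log y) ^ A := by
        have e1 : Real.exp (A * Real.log (Real.log y)) = (Real.log y) ^ A := by
          rw [Real.exp_nat_mul, Real.exp_log hly]
        rw [mul_add, Real.exp_add, mul_comm, e1]

/-- **The refined abstract bound, weights with characters** -/
theorem grat (hb : BLW) (hub : UB) (ι : Type) [Fintype ι] [DecidableEq ι] (Δ : ι → ℤ)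
    (w : ι → ℝ) (L : ι → ι → Bool) (κ : ι → ℤ) (c : ℕ) (K : ℝ) (N : Finset ι)
    (hΔ : ∀ i, Gdc (Δ i)) (hΔN : ∀ n ∈ N, Gdn (Δ n))
    (hw : ∀ i, 0 < w i ∧ w i ≤ 1 / 2) (hL : ∀ i, L i i = false) (hκ : ∀ i, κ i ≠ 0)
    (hN1 : ∀ n ∈ N, ∃ k : ℤ, κ n = -(k * k)) (hN2 : ∀ n ∈ N, ∀ m ∈ N, L n m = false)
    (hQ1 : ∀ i ∈ QN L N, ∀ j ∈ QN L N, L i j = false) (hQ2 : ∑ i ∈ QN L N, w i ≤ K)
    (hU : ∀ U : Finset ι, (∀ i ∈ U, ∀ j ∈ U, L i j = L j i) → (∃ k ∈ U, k ∉ N ∧ k ∉ QN L N) →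
      ∑ i ∈ U, w i ≤ K)
    (hS : ∀ b, b ∉ N → b ∉ QN L N →
      ∑ i ∈ (QN L N ∪ N).filter (fun i => L i b = L b i), w i < K) :
    ∃ z0 : ℕ, ∀ z, z0 ≤ z → ∃ C : ℝ, ∀ y, z < y →
      |∑ d ∈ Tup ι z y, (∏ i, gr (Δ i) (w i) c (d i)) *
        Pool.Agent.W262.RK.Sym L κ d| ≤ C * (Real.log y) ^ K := by
  classical
  obtain ⟨C2, E2, h2⟩ := hb
  obtain ⟨zS, A, hA2, hFS⟩ := fsr ι Δ w c hw
  obtain ⟨CA, hCA0, hCA⟩ := hA_le_log (2 * c)
  refine ⟨zS + 2 * c + 2 * (c + A) + 4 + ∑ i, (κ i).natAbs + ∑ i, (κ i * Δ i).natAbs,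
    fun z hz => ?_⟩
  have hzκ : ∀ i, (κ i).natAbs ≤ z := fun i => by
    have := single_le_sum (f := fun i => (κ i).natAbs) (fun _ _ => Nat.zero_le _) (mem_univ i)
    omega
  have hzκ2 : ∀ i, 2 * c + 2 + (κ i).natAbs + (κ i * Δ i).natAbs ≤ z := fun i => by
    have h1 := single_le_sum (f := fun i => (κ i).natAbs) (fun _ _ => Nat.zero_le _) (mem_univ i)
    have h2 := single_le_sum (f := fun i => (κ i * Δ i).natAbs) (fun _ _ => Nat.zero_le _)
      (mem_univ i)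
    omega
  have hz2 : 2 ≤ z := by omega
  choose CE hCE using fun i => epr hub (w i) c A (κ i) (Δ i) (hw i).1 (hw i).2 (hκ i) hA2 z
    (hzκ2 i)
  choose CF hCF1 hCF2 hCF3 using fun i => fullr (Δ i) (hΔ i) (w i) c A (hw i).1 (hw i).2 z
    (by omega)
  choose CG hCG1 hCG2 hCG3 using fun i => fullr (Δ i) (hΔ i) (w i) (c + A) A (hw i).1 (hw i).2 z
    (by omega)
  choose CU hCU0 hCU using fun i => ubr hub (κ i) (Δ i) z (hκ i) hz2 (hzκ i)
    (by have := hzκ2 i; omega)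
  choose CM hCM0 hCM using fun i => mer_gr (hΔ i) hz2
  have hX' : ∀ i, ∃ C : ℝ, i ∈ N → ∀ y, z < y →
      ∑ p ∈ PS z y, x4 true p * (1 + Jr (Δ i) p) / (p : ℝ) ≤ C := by
    intro i
    by_cases hi : i ∈ N
    · obtain ⟨C, hC⟩ := hΔN i hi z hz2
      exact ⟨C, fun _ => hC⟩
    · exact ⟨0, fun h => absurd h hi⟩
  choose CX hCX using hX'
  obtain ⟨Cs, hCs1, hFs⟩ := hFS z (by omega)
  set C : ℝ := 1 + CA + ∑ i, (|CE i| + |CF i| + |CG i| + |CU i| + |CM i| + |CX i|) with hC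
  have hCi : ∀ i, |CE i| + |CF i| + |CG i| + |CU i| + |CM i| + |CX i| ≤ C := by
    intro i
    have h1 : |CE i| + |CF i| + |CG i| + |CU i| + |CM i| + |CX i| ≤
        ∑ i, (|CE i| + |CF i| + |CG i| + |CU i| + |CM i| + |CX i|) :=
      single_le_sum (f := fun i => |CE i| + |CF i| + |CG i| + |CU i| + |CM i| + |CX i|)
        (fun j _ => by positivity) (mem_univ i)
    linarith
  have hCE' : ∀ i, CE i ≤ C := fun i => by
    linarith [hCi i, le_abs_self (CE i), abs_nonneg (CF i), abs_nonneg (CG i), abs_nonneg (CU i),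
      abs_nonneg (CM i), abs_nonneg (CX i)]
  have hCF' : ∀ i, CF i ≤ C := fun i => by
    linarith [hCi i, le_abs_self (CF i), abs_nonneg (CE i), abs_nonneg (CG i), abs_nonneg (CU i),
      abs_nonneg (CM i), abs_nonneg (CX i)]
  have hCG' : ∀ i, CG i ≤ C := fun i => by
    linarith [hCi i, le_abs_self (CG i), abs_nonneg (CE i), abs_nonneg (CF i), abs_nonneg (CU i),
      abs_nonneg (CM i), abs_nonneg (CX i)]
  have hCU' : ∀ i, CU i ≤ C := fun i => by
    linarith [hCi i, le_abs_self (CU i), abs_nonneg (CE i), abs_nonneg (CG i), abs_nonneg (CF i),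
      abs_nonneg (CM i), abs_nonneg (CX i)]
  have hCM' : ∀ i, CM i ≤ C := fun i => by
    linarith [hCi i, le_abs_self (CM i), abs_nonneg (CE i), abs_nonneg (CG i), abs_nonneg (CU i),
      abs_nonneg (CF i), abs_nonneg (CX i)]
  have hCX' : ∀ i, CX i ≤ C := fun i => by
    linarith [hCi i, le_abs_self (CX i), abs_nonneg (CE i), abs_nonneg (CG i), abs_nonneg (CU i),
      abs_nonneg (CM i), abs_nonneg (CF i)]
  have hsum0 : 0 ≤ ∑ i, (|CE i| + |CF i| + |CG i| + |CU i| + |CM i| + |CX i|) :=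
    sum_nonneg fun i _ => by positivity
  have hC1 : 1 ≤ C := by
    rw [hC]
    linarith
  have hCA' : CA ≤ C := by
    rw [hC]
    linarith
  have hBd : Bd Δ w κ c A z C :=
    { w0 := fun i => (hw i).1
      w1 := fun i => (hw i).2
      z2 := hz2
      zc := by omega
      C1 := hC1
      F1 := fun i y hy => (hCF1 i y hy).trans (mul_le_mul_of_nonneg_right (hCF' i)
        (Real.rpow_nonneg (Real.log_natCast_nonneg y) _))
      F2 := fun i y V hy hV => (hCF2 i y V hy hV).trans (mul_le_mul_of_nonneg_right (hCF' i)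
        (Real.rpow_nonneg (Real.log_natCast_nonneg V) _))
      F3 := fun i y Y hy hY => (hCF3 i y Y hy hY).trans (by
        apply mul_le_mul_of_nonneg_right _ (by positivity)
        exact mul_le_mul_of_nonneg_right (hCF' i) (Real.exp_pos _).le)
      G := fun i y m hy hm => by
        refine (gr_le_hA_div (hw i).1.le (hw i).2 (by omega) hm).trans ?_
        rw [div_eq_mul_one_div]
        apply mul_le_mul_of_nonneg_right _ (by positivity)
        refine (hCA z y m (by omega) hm).trans ?_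
        exact mul_le_mul_of_nonneg_right hCA' (pow_nonneg (Real.log_natCast_nonneg y) _)
      E := fun i y R r e hy hR hr hs hp => (hCE i y R r e hy hR hr hs hp).trans (by
        apply mul_le_mul_of_nonneg_right _ (hA_nonneg _ _)
        exact mul_le_mul_of_nonneg_right (hCE' i) (Real.log_natCast_nonneg r)) }
  have hFB : FB Δ w (c + A) A z C :=
    { w0 := fun i => (hw i).1
      w1 := fun i => (hw i).2
      z2 := hz2
      zc := by omega
      C1 := hC1
      F2 := fun i y V hy hV => (hCG2 i y V hy hV).trans (mul_le_mul_of_nonneg_right (hCG' i)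
        (Real.rpow_nonneg (Real.log_natCast_nonneg V) _))
      F3 := fun i y Y hy hY => (hCG3 i y Y hy hY).trans (by
        apply mul_le_mul_of_nonneg_right _ (by positivity)
        exact mul_le_mul_of_nonneg_right (hCG' i) (Real.exp_pos _).le) }
  have hCB : CB Δ κ N z C :=
    { z2 := hz2
      c0 := by linarith
      M := fun i y hy => (hCM i y hy).trans (by
        have := hCM' i
        linarith)
      X := fun n hn y hy => (hCX n hn y hy).trans (hCX' n)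
      U := fun i y r e hy hr hs hp => (hCU i y r e hy hr hs hp).trans (by
        have := hCU' i
        linarith)
      K := fun n hn y p hp => by
        obtain ⟨k, hk⟩ := hN1 n hn
        have hk0 : k ≠ 0 := by
          rintro rfl
          exact hκ n (by rw [hk]; simp)
        have hzn := hzκ n
        rw [hk] at hzn ⊢
        have hp' := mem_PS.1 hp
        exact Jr_neg_sq hk0 hzn hz2 hp'.1.1 hp'.2 }
  have h2' : AT.BW |C2| E2 := fun V Y hV hVY a b ha hb ha' hb' =>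
    (h2 V Y hV hVY a b ha hb ha' hb').trans (by
      apply mul_le_mul_of_nonneg_right _ (by positivity)
      exact mul_le_mul_of_nonneg_right (le_abs_self C2)
        (pow_nonneg (Real.log_natCast_nonneg Y) _))
  choose C' hC' using fun ρ : ι → Fin 4 => pat_rat hBd hFB (zero_le_one.trans hCs1) hFs hCB
    (abs_nonneg C2) h2' hL hN2 hQ1 hQ2 hU hS ρ
  refine ⟨∑ ρ ∈ univ.filter (fun ρ : ι → Fin 4 => ∀ n ∈ N, ρ n = 0), C' ρ, fun y hy => ?_⟩
  rw [total_eq, patternsN N z y (AT.VV (6 * (Fintype.card ι + 4 * c + 2 * E2)) (Real.log y))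
    (AT.YY (6 * (Fintype.card ι + 4 * c + 2 * E2)) (Real.log y)), sum_mul]
  exact (abs_sum_le_sum_abs _ _).trans (sum_le_sum fun ρ _ => hC' ρ y hy)

/-- the inputs of the start library -/
theorem grat' (ι : Type) [Fintype ι] [DecidableEq ι] (Δ : ι → ℤ)
    (w : ι → ℝ) (L : ι → ι → Bool) (κ : ι → ℤ) (c : ℕ) (K : ℝ) (N : Finset ι)
    (hΔ : ∀ i, Gdc (Δ i)) (hΔN : ∀ n ∈ N, Gdn (Δ n))
    (hw : ∀ i, 0 < w i ∧ w i ≤ 1 / 2) (hL : ∀ i, L i i = false) (hκ : ∀ i, κ i ≠ 0)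
    (hN1 : ∀ n ∈ N, ∃ k : ℤ, κ n = -(k * k)) (hN2 : ∀ n ∈ N, ∀ m ∈ N, L n m = false)
    (hQ1 : ∀ i ∈ QN L N, ∀ j ∈ QN L N, L i j = false) (hQ2 : ∑ i ∈ QN L N, w i ≤ K)
    (hU : ∀ U : Finset ι, (∀ i ∈ U, ∀ j ∈ U, L i j = L j i) → (∃ k ∈ U, k ∉ N ∧ k ∉ QN L N) →
      ∑ i ∈ U, w i ≤ K)
    (hS : ∀ b, b ∉ N → b ∉ QN L N →
      ∑ i ∈ (QN L N ∪ N).filter (fun i => L i b = L b i), w i < K) :
    ∃ z0 : ℕ, ∀ z, z0 ≤ z → ∃ C : ℝ, ∀ y, z < y →
      |∑ d ∈ Tup ι z y, (∏ i, gr (Δ i) (w i) c (d i)) *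
        Pool.Agent.W262.RK.Sym L κ d| ≤ C * (Real.log y) ^ K :=
  grat (Pool.Agent.W655.RK.blw_of (_root_.W37.RK.bl_of Pool.Agent.W505.RK.ls))
    Pool.Agent.W586.RK.UB.ub ι Δ w L κ c K N hΔ hΔN hw hL hκ hN1 hN2 hQ1 hQ2 hU hS

end Pool.Agent.V7H45.G8
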