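import Pool.Agent.V7H45.G8.Def8
import Pool.Agent.V7H45.G8.Exp
import Pool.Agent.V7H45.G8.Grat

/-! The average of the local count for `Z/2 x Z/8` (compare `W307.RT.NB4`). -/

set_option autoImplicit false

namespace Pool.Agent.V7H45.G8

open Finset Pool.Agent.W262.RK Pool.Agent.W307.RT

/-- index, is it chosen, has it a symbol? -/
abbrev X8 : Type := Fin 7 × Bool × Bool

/-- the symbols -/
def LX8 (x y : X8) : Bool := decide (c8 x.1 ≠ c8 y.1) && x.2.1 && y.2.2

/-- the indices with the character modulo 4 -/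
def NE8 (x : X8) : Bool := (decide (x.1 = 4) || decide (x.1 = 5)) && x.2.1 && x.2.2

/-- the indices without symbols with these -/
def QE8 (x : X8) : Bool := (!x.2.1 && !x.2.2) || (decide (c8 x.1 = 2) && !(NE8 x))

/-- the type -/
def ty8 (i : I4 c8) : X8 :=
  (i.1.1, decide (i.1.2.1 ≠ (false, false)), decide (i.1.2.2 ≠ (false, false)))

lemma c8_ne (j : Fin 7) : c8 j ≠ 3 := by revert j; decide

lemma L_ty8 (i i' : I4 c8) : L4 c8 i i' = LX8 (ty8 i) (ty8 i') :=
  L_ty_aux _ _ (c8_ne _) (c8_ne _) _ _ _ _ i.2 i'.2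

lemma ty8_inj : Function.Injective ty8 := by
  rintro ⟨⟨j, v, x⟩, h⟩ ⟨⟨j', v', x'⟩, h'⟩ hh
  unfold ty8 at hh
  simp only [Prod.mk.injEq] at hh
  obtain ⟨h1, h2, h3⟩ := hh
  subst h1
  obtain ⟨h4, h5⟩ := ty_inj_aux (c8 j) v x v' x' (by
    have e1 : Al (c8 j) v x = true := h
    have e2 : Al (c8 j) v' x' = true := h'
    rw [e1, e2, h2, h3]
    simp [c8_ne j])
  subst h4 h5
  rfl

lemma w8_half (i : I4 c8) : w4 c8 i = 1 / 2 := by
  unfold w4
  rw [if_neg (c8_ne _)]

/-- the indices with the character modulo 4 -/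
def N8s : Finset (I4 c8) := univ.filter (fun i => NE8 (ty8 i) = true)

lemma mem_N8s {i : I4 c8} : i ∈ N8s ↔ NE8 (ty8 i) = true := by simp [N8s]

/-- an element of `N8s` -/
def n80 : I4 c8 := ⟨(4, (false, true), (true, false)), by decide⟩

lemma ty_n80 : ty8 n80 = (4, true, true) := by decide

lemma Q8_aux1 : ∀ x : X8, NE8 x = false → LX8 x (4, true, true) = false →
    LX8 (4, true, true) x = false → QE8 x = true := by
  decide

lemma Q8_aux2 : ∀ x y : X8, QE8 x = true → NE8 y = true →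
    LX8 x y = false ∧ LX8 y x = false := by
  decide +kernel

lemma Q8_aux3 : ∀ x : X8, QE8 x = true → NE8 x = false := by
  decide

lemma mem_Q8 {i : I4 c8} : i ∈ QN (L4 c8) N8s ↔ QE8 (ty8 i) = true := by
  rw [mem_QN, mem_N8s]
  constructor
  · rintro ⟨h1, h2⟩
    have hn : n80 ∈ N8s := by rw [mem_N8s, ty_n80]; decide
    obtain ⟨h3, h4⟩ := h2 n80 hn
    rw [L_ty8, ty_n80] at h3 h4
    exact Q8_aux1 _ (by simpa using h1) h3 h4
  · intro h
    refine ⟨by rw [Q8_aux3 _ h]; simp, fun n hn => ?_⟩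
    rw [mem_N8s] at hn
    rw [L_ty8, L_ty8]
    exact Q8_aux2 _ _ h hn

lemma card_Q8 : (univ.filter (fun x : X8 => QE8 x = true)).card = 14 := by decide +kernel

lemma QQ8_aux : ∀ x y : X8, QE8 x = true → QE8 y = true → LX8 x y = false := by decide +kernel

lemma NN8_aux : ∀ x y : X8, NE8 x = true → NE8 y = true → LX8 x y = false := by decide +kernel

lemma A8_card : ∀ k : X8, NE8 k = false → QE8 k = false →
    (univ.filter (fun x : X8 => x.2 = (false, false) ∨ x.2 = k.2)).card ≤ 14 := by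
  decide +kernel

lemma B8_card : ∀ k : X8, NE8 k = false → QE8 k = false →
    (univ.filter (fun x : X8 => x.2 = (false, false) ∨ c8 x.1 = c8 k.1)).card ≤ 14 := by
  decide +kernel

lemma AB8_aux : ∀ k x y : X8, LX8 k x = LX8 x k → LX8 k y = LX8 y k → LX8 x y = LX8 y x →
    ¬ (x.2 = (false, false) ∨ x.2 = k.2) → (NE8 k = false ∧ QE8 k = false) →
    (y.2 = (false, false) ∨ c8 y.1 = c8 k.1) := by
  decide +kernel

lemma comb8 (U : Finset X8) (hU : ∀ x ∈ U, ∀ y ∈ U, LX8 x y = LX8 y x) {k : X8} (hk : k ∈ U)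
    (h1 : NE8 k = false) (h2 : QE8 k = false) : U.card ≤ 14 := by
  by_cases h : ∀ x ∈ U, x.2 = (false, false) ∨ x.2 = k.2
  · refine (card_le_card fun x hx => ?_).trans (A8_card k h1 h2)
    exact mem_filter.2 ⟨mem_univ x, h x hx⟩
  · push Not at h
    obtain ⟨x, hx, hx1, hx2⟩ := h
    refine (card_le_card fun y hy => ?_).trans (B8_card k h1 h2)
    exact mem_filter.2 ⟨mem_univ y, AB8_aux k x y (hU k hk x hx) (hU k hk y hy) (hU x hx y hy)
      (by rw [not_or]; exact ⟨hx1, hx2⟩) ⟨h1, h2⟩⟩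

lemma C8_aux : ∀ b : X8, NE8 b = false → QE8 b = false → (univ.filter (fun x : X8 =>
    (QE8 x = true ∨ NE8 x = true) ∧ LX8 x b = LX8 b x)).card ≤ 13 := by decide +kernel

lemma sum_w8 (U : Finset (I4 c8)) : ∑ i ∈ U, w4 c8 i = (U.card : ℝ) / 2 := by
  rw [sum_congr rfl fun i _ => w8_half i, sum_const, nsmul_eq_mul]
  ring

lemma card_le_of8 (U : Finset (I4 c8)) (V : Finset X8) (h : ∀ i ∈ U, ty8 i ∈ V) :
    U.card ≤ V.card := by
  rw [← card_image_of_injective U ty8_inj]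
  apply card_le_card
  intro x hx
  obtain ⟨i, hi, rfl⟩ := mem_image.1 hx
  exact h i hi

lemma κ8_eq : ∀ j, κ8 j = if c8 j = 2 then -1 else 1 := by decide

lemma κ8_ne : ∀ j, κ8 j ≠ 0 := by decide

lemma gdc8 (j : Fin 7) : Gdc (D8 j) := by
  have h : D8 j = 0 ∨ D8 j = 2 ∨ D8 j = -1 := by revert j; decide
  rcases h with h | h | h
  · rw [h]; exact gdc0
  · rw [h]; exact gdc2
  · rw [h]; exact gdc1

/-- the average of the local count -/
theorem nb8 (c : ℕ) : ∃ z0 : ℕ, ∀ z, z0 ≤ z → ∃ C' : ℝ, ∀ y, z < y →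
    ∑ s ∈ Tup (Fin 7) z y, NB c8 (fun j _ => κ8 j) s *
      ∏ j, gr (D8 j) 1 c (s j) ≤ C' * (Real.log y) ^ (Fintype.card (Fin 7)) := by
  set κ : Fin 7 → Fin 3 → ℤ := fun j _ => κ8 j with hκdef
  have hκ : ∀ j k, κ j k ≠ 0 := fun j _ => κ8_ne j
  obtain ⟨z0, hz0⟩ := grat' (I4 c8) (fun i => D8 i.1.1) (w4 c8) (L4 c8) (κ4 c8 κ) c
    ((Fintype.card (Fin 7) : ℕ) : ℝ) N8s (fun i => gdc8 _) (fun n hn => by
      rw [mem_N8s] at hn
      unfold NE8 ty8 at hn
      simp only [Bool.and_eq_true, Bool.or_eq_true, decide_eq_true_eq] at hn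
      obtain ⟨⟨h1, h2⟩, h3⟩ := hn
      have h4 : D8 n.1.1 = 2 := by
        rcases h1 with h1 | h1 <;> rw [h1] <;> decide
      simp only [h4]
      exact gdn2)
    (w4_pos c8) (L4_self c8) (κ4_ne c8 κ hκ)
    (fun n hn => by
      rw [mem_N8s] at hn
      refine ⟨1, ?_⟩
      unfold NE8 ty8 at hn
      simp only [Bool.and_eq_true, Bool.or_eq_true, decide_eq_true_eq] at hn
      obtain ⟨⟨h1, h2⟩, h3⟩ := hn
      unfold κ4
      rw [if_neg (by rw [not_or]; exact ⟨h2, h3⟩), if_neg (c8_ne _), hκdef]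
      simp only
      rcases h1 with h1 | h1 <;> rw [h1] <;> decide)
    (fun n hn m hm => by
      rw [mem_N8s] at hn hm
      rw [L_ty8]
      exact NN8_aux _ _ hn hm)
    (fun i hi j hj => by
      rw [mem_Q8] at hi hj
      rw [L_ty8]
      exact QQ8_aux _ _ hi hj)
    (by
      rw [sum_w8]
      have h1 : (QN (L4 c8) N8s).card ≤ 14 := by
        refine (card_le_of8 _ (univ.filter (fun x : X8 => QE8 x = true)) fun i hi => ?_).trans
          (le_of_eq card_Q8)
        rw [mem_Q8] at hi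
        exact mem_filter.2 ⟨mem_univ _, hi⟩
      have h2 : ((QN (L4 c8) N8s).card : ℝ) ≤ 14 := by exact_mod_cast h1
      rw [Fintype.card_fin]
      push_cast
      linarith)
    (fun U hU hk => by
      obtain ⟨k, hk, hk1, hk2⟩ := hk
      rw [mem_N8s] at hk1
      rw [mem_Q8] at hk2
      rw [sum_w8]
      have h1 : U.card ≤ 14 := by
        rw [← card_image_of_injective U ty8_inj]
        apply comb8 _ _ (mem_image_of_mem ty8 hk) (by simpa using hk1) (by simpa using hk2)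
        intro x hx y hy
        obtain ⟨i, hi, rfl⟩ := mem_image.1 hx
        obtain ⟨j, hj, rfl⟩ := mem_image.1 hy
        rw [← L_ty8, ← L_ty8]
        exact hU i hi j hj
      have h2 : (U.card : ℝ) ≤ 14 := by exact_mod_cast h1
      rw [Fintype.card_fin]
      push_cast
      linarith)
    (fun b hb1 hb2 => by
      rw [mem_N8s] at hb1
      rw [mem_Q8] at hb2
      rw [sum_w8]
      have h1 : ((QN (L4 c8) N8s ∪ N8s).filter (fun i => L4 c8 i b = L4 c8 b i)).card ≤ 13 := by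
        refine (card_le_of8 _ _ fun i hi => ?_).trans
          (C8_aux (ty8 b) (by simpa using hb1) (by simpa using hb2))
        rw [mem_filter, mem_union, mem_Q8, mem_N8s, L_ty8, L_ty8] at hi
        exact mem_filter.2 ⟨mem_univ _, hi⟩
      have h2 : (((QN (L4 c8) N8s ∪ N8s).filter (fun i => L4 c8 i b = L4 c8 b i)).card : ℝ) ≤
          13 := by
        exact_mod_cast h1
      rw [Fintype.card_fin]
      push_cast
      linarith)
  refine ⟨max z0 3, fun z hz => ?_⟩
  obtain ⟨C, hC⟩ := hz0 z (le_trans (le_max_left _ _) hz)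
  refine ⟨C, fun y hy => ?_⟩
  have hz2 : 3 ≤ z := le_trans (le_max_right _ _) hz
  have h1 : ∀ (j : Fin 7) (d : ℕ), gr (D8 j) 1 c d =
      pw (fun p => (1 + Jr (D8 j) p) / ((p : ℝ) - c)) d := by
    intro j d
    unfold gr pw
    apply prod_congr rfl
    intro p _
    rw [one_mul]
  simp only [h1]
  rw [expg c8 κ (fun j p => (1 + Jr (D8 j) p) / ((p : ℝ) - c)) z y hκ (fun j k => by
    have : (κ8 j).natAbs ≤ 1 := by revert j; decide
    show (κ8 j).natAbs ≤ z
    omega)]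
  have h2 : ∀ (i : I4 c8) (d : ℕ), pw (fun p => w4 c8 i * ((1 + Jr (D8 i.1.1) p) /
      ((p : ℝ) - c))) d = gr (D8 i.1.1) (w4 c8 i) c d := by
    intro i d
    unfold gr pw
    apply prod_congr rfl
    intro p _
    ring
  simp only [h2]
  refine (le_trans (le_abs_self _) (hC y hy)).trans (le_of_eq ?_)
  rw [Real.rpow_natCast]

end Pool.Agent.V7H45.G8
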