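import Pool.Agent.V7H45.G8.Fsr
import Pool.Agent.V7H45.G8.Fx
import Pool.Agent.W655.RK.Ep

/-!
# The analytic inputs for the weights `1 + (D / p)`
-/

set_option autoImplicit false

namespace Pool.Agent.V7H45.G8

open Finset Pool.Agent.W262.RK Pool.Agent.W307.RT Pool.Agent.W655.RK

/-- the sums over all, the small and the large divisors -/
theorem full_gen {w B : ℝ} {z : ℕ} {φ : ℕ → ℝ} (hw : 0 < w) (hw2 : w ≤ 1 / 2) (hz2 : 2 ≤ z)
    (hB0 : 0 ≤ B) (hφ0 : ∀ y, ∀ p ∈ PS z y, 0 ≤ φ p)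
    (hsum : ∀ y : ℕ, z < y → ∑ p ∈ PS z y, φ p ≤ w * Real.log (Real.log y) + B) :
    (∀ y, z < y → ∑ d ∈ (PP z y).divisors, ∏ p ∈ d.primeFactors, φ p ≤
      Real.exp (3 * (B + 1)) * (Real.log y) ^ w) ∧
    (∀ y V : ℕ, z < y → 2 ≤ V →
      ∑ d ∈ (PP z y).divisors.filter (fun d => d ≤ V), ∏ p ∈ d.primeFactors, φ p ≤
        Real.exp (3 * (B + 1)) * (Real.log V) ^ w) ∧
    (∀ y Y : ℕ, z < y → 1 ≤ Y →
      ∑ d ∈ (PP z y).divisors.filter (fun d => Y < d), ∏ p ∈ d.primeFactors, φ p ≤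
        Real.exp (3 * (B + 1)) * Real.exp (-(Real.log Y / Real.log y)) * (Real.log y) ^ 4) := by
  have hlog : ∀ y : ℕ, 2 ≤ y → 0 < Real.log y := fun y hy =>
    Real.log_pos (by exact_mod_cast (by omega : 1 < y))
  have main : ∀ y : ℕ, z < y → ∑ d ∈ (PP z y).divisors, ∏ p ∈ d.primeFactors, φ p ≤
      Real.exp B * (Real.log y) ^ w := by
    intro y hy
    unfold PP
    rw [sum_mult (PS z y) (fun p hp => PS_prime hp) φ]
    refine (prod_le_exp _ _ fun p hp => by have := hφ0 y p hp; linarith).trans ?_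
    rw [Real.rpow_def_of_pos (hlog y (by omega)), ← Real.exp_add, Real.exp_le_exp]
    have := hsum y hy
    linarith
  have hpf : ∀ y d, d ∈ (PP z y).divisors → d.primeFactors ⊆ PS z y := by
    intro y d hd
    have h1 : (PP z y).primeFactors = PS z y := Nat.primeFactors_prod fun p hp => PS_prime hp
    rw [← h1]
    exact Nat.primeFactors_mono (Nat.dvd_of_mem_divisors hd) (Nat.mem_divisors.1 hd).2
  have hnn : ∀ y d : ℕ, d ∈ (PP z y).divisors → 0 ≤ ∏ p ∈ d.primeFactors, φ p := by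
    intro y d hd
    exact Finset.prod_nonneg fun p hp => hφ0 y p (hpf y d hd hp)
  refine ⟨?_, ?_, ?_⟩
  · intro y hy
    refine (main y hy).trans ?_
    refine mul_le_mul_of_nonneg_right ?_ (Real.rpow_nonneg (hlog y (by omega)).le _)
    rw [Real.exp_le_exp]
    linarith
  · intro y V hy hV
    have hlV := hlog V hV
    rcases Nat.lt_or_ge z V with hzV | hVz
    swap
    · -- only `d = 1`
      have h1 : (PP z y).divisors.filter (fun d => d ≤ V) ⊆ {1} := by
        intro d hd
        rw [mem_filter] at hd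
        rw [mem_singleton]
        by_contra hne
        have hd0 : d ≠ 0 := (Nat.pos_of_mem_divisors hd.1).ne'
        obtain ⟨p, hp, hpd⟩ := Nat.exists_prime_and_dvd hne
        have h2 := hpf y d hd.1 (Nat.mem_primeFactors.2 ⟨hp, hpd, hd0⟩)
        have h3 := PS_lt h2
        have h4 := Nat.le_of_dvd (Nat.pos_of_ne_zero hd0) hpd
        omega
      have h2 : ∑ d ∈ (PP z y).divisors.filter (fun d => d ≤ V), ∏ p ∈ d.primeFactors, φ p ≤ 1 := by
        refine (sum_le_sum_of_subset_of_nonneg h1 fun d hd _ => ?_).trans (by simp)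
        rw [mem_singleton] at hd
        rw [hd]
        simp
      refine h2.trans ?_
      have h3 : Real.log 2 ≤ Real.log V := Real.log_le_log (by norm_num) (by exact_mod_cast hV)
      have h4 : (1 / 2 : ℝ) ≤ (Real.log V) ^ w := by
        have h5 : (1 / 2 : ℝ) ≤ Real.log V := by
          have := Real.log_two_gt_d9
          linarith
        calc (1 / 2 : ℝ) = (1 / 2 : ℝ) ^ (1 : ℝ) := by rw [Real.rpow_one]
          _ ≤ (1 / 2 : ℝ) ^ w :=
              Real.rpow_le_rpow_of_exponent_ge (by norm_num) (by norm_num) (by linarith)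
          _ ≤ (Real.log V) ^ w := Real.rpow_le_rpow (by norm_num) h5 hw.le
      have h6 : (2 : ℝ) ≤ Real.exp (3 * (B + 1)) := by
        have := Real.add_one_le_exp (3 * (B + 1))
        linarith
      calc (1 : ℝ) = 2 * (1 / 2) := by norm_num
        _ ≤ _ := mul_le_mul h6 h4 (by norm_num) (Real.exp_pos _).le
    have hsub : (PP z y).divisors.filter (fun d => d ≤ V) ⊆ (PP z (min y V)).divisors := by
      intro d hd
      rw [mem_filter] at hd
      have h1 := hpf y d hd.1
      have hd0 : d ≠ 0 := (Nat.pos_of_mem_divisors hd.1).ne'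
      have h2 : Squarefree d := (prod_primes_squarefree (PS z y) fun p hp => PS_prime hp).squarefree_of_dvd
        (Nat.dvd_of_mem_divisors hd.1)
      rw [Nat.mem_divisors]
      refine ⟨?_, (prod_primes_squarefree (PS z (min y V)) fun p hp => PS_prime hp).ne_zero⟩
      rw [← Nat.prod_primeFactors_of_squarefree h2]
      refine Finset.prod_dvd_prod_of_subset _ _ _ fun p hp => ?_
      have h3 := h1 hp
      have h4 : p ≤ d := Nat.le_of_mem_primeFactors hp
      exact mem_filter.2 ⟨mem_Ioc.2 ⟨PS_lt h3, le_min (PS_le h3) (h4.trans hd.2)⟩, PS_prime h3⟩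
    have h1 : ∑ d ∈ (PP z y).divisors.filter (fun d => d ≤ V), ∏ p ∈ d.primeFactors, φ p ≤
        ∑ d ∈ (PP z (min y V)).divisors, ∏ p ∈ d.primeFactors, φ p :=
      Finset.sum_le_sum_of_subset_of_nonneg hsub fun d hd _ => hnn _ d hd
    have hmin : z < min y V := lt_min hy hzV
    refine h1.trans ((main _ hmin).trans ?_)
    have h2 : (Real.log (min y V : ℕ)) ^ w ≤ (Real.log V) ^ w := by
      refine Real.rpow_le_rpow (hlog _ (by omega)).le ?_ hw.le
      exact Real.log_le_log (by exact_mod_cast (by omega : 0 < min y V))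
        (by exact_mod_cast min_le_right y V)
    refine mul_le_mul ?_ h2 (Real.rpow_nonneg (hlog _ (by omega)).le _) (Real.exp_pos _).le
    rw [Real.exp_le_exp]
    linarith
  · intro y Y hy hY
    have hy3 : 3 ≤ y := by omega
    have hly := hlog y (by omega)
    have hly1 : 1 ≤ Real.log y := by
      rw [Real.le_log_iff_exp_le (by positivity)]
      have := Real.exp_one_lt_d9
      have h3 : (3:ℝ) ≤ y := by exact_mod_cast hy3
      linarith
    have hY0 : (0:ℝ) < Y := by exact_mod_cast hY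
    set ψ : ℕ → ℝ := fun p => φ p * Real.exp (Real.log p / Real.log y) with hψ
    have hterm : ∀ d ∈ (PP z y).divisors.filter (fun d => Y < d), ∏ p ∈ d.primeFactors, φ p ≤
        Real.exp (-(Real.log Y / Real.log y)) * ∏ p ∈ d.primeFactors, ψ p := by
      intro d hd
      rw [mem_filter] at hd
      have h1 := hpf y d hd.1
      have hd0 : 0 < d := Nat.pos_of_mem_divisors hd.1
      have h2 : Squarefree d := (prod_primes_squarefree (PS z y) fun p hp => PS_prime hp).squarefree_of_dvd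
        (Nat.dvd_of_mem_divisors hd.1)
      have h3 : ∏ p ∈ d.primeFactors, Real.exp (Real.log p / Real.log y) =
          Real.exp (Real.log d / Real.log y) := by
        rw [← Real.exp_sum, ← Finset.sum_div, ← Real.log_prod]
        · congr 3
          conv_rhs => rw [← Nat.prod_primeFactors_of_squarefree h2]
          push_cast
          rfl
        · intro p hp
          exact_mod_cast (Nat.prime_of_mem_primeFactors hp).ne_zero
      rw [hψ, Finset.prod_mul_distrib, h3]
      have h4 : 0 ≤ ∏ p ∈ d.primeFactors, φ p :=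
        Finset.prod_nonneg fun p hp => hφ0 y p (h1 hp)
      have h5 : 1 ≤ Real.exp (-(Real.log Y / Real.log y)) * Real.exp (Real.log d / Real.log y) := by
        rw [← Real.exp_add]
        apply Real.one_le_exp
        rw [neg_add_eq_sub, ← sub_div]
        refine div_nonneg (sub_nonneg.2 (Real.log_le_log hY0 ?_)) hly.le
        exact_mod_cast hd.2.le
      calc ∏ p ∈ d.primeFactors, φ p = (∏ p ∈ d.primeFactors, φ p) * 1 := (mul_one _).symm
        _ ≤ (∏ p ∈ d.primeFactors, φ p) * (Real.exp (-(Real.log Y / Real.log y)) *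
            Real.exp (Real.log d / Real.log y)) := mul_le_mul_of_nonneg_left h5 h4
        _ = _ := by ring
    have hψ0 : ∀ p ∈ PS z y, 0 ≤ ψ p := fun p hp => mul_nonneg (hφ0 y p hp) (Real.exp_pos _).le
    have hψe : ∀ p ∈ PS z y, ψ p ≤ φ p * Real.exp 1 := by
      intro p hp
      refine mul_le_mul_of_nonneg_left ?_ (hφ0 y p hp)
      rw [Real.exp_le_exp, div_le_one hly]
      exact Real.log_le_log (by exact_mod_cast (PS_prime hp).pos) (by exact_mod_cast PS_le hp)
    calc ∑ d ∈ (PP z y).divisors.filter (fun d => Y < d), ∏ p ∈ d.primeFactors, φ p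
        ≤ ∑ d ∈ (PP z y).divisors.filter (fun d => Y < d),
            Real.exp (-(Real.log Y / Real.log y)) * ∏ p ∈ d.primeFactors, ψ p :=
          Finset.sum_le_sum hterm
      _ ≤ ∑ d ∈ (PP z y).divisors,
            Real.exp (-(Real.log Y / Real.log y)) * ∏ p ∈ d.primeFactors, ψ p := by
          refine Finset.sum_le_sum_of_subset_of_nonneg (filter_subset _ _) fun d hd _ => ?_
          exact mul_nonneg (Real.exp_pos _).le (Finset.prod_nonneg fun p hp => hψ0 p (hpf y d hd hp))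
      _ = Real.exp (-(Real.log Y / Real.log y)) * ∏ p ∈ PS z y, (1 + ψ p) := by
          rw [← Finset.mul_sum]
          congr 1
          exact sum_mult (PS z y) (fun p hp => PS_prime hp) ψ
      _ ≤ Real.exp (-(Real.log Y / Real.log y)) *
            (Real.exp (3 * (B + 1)) * (Real.log y) ^ 4) := by
          refine mul_le_mul_of_nonneg_left ?_ (Real.exp_pos _).le
          refine (prod_le_exp _ _ fun p hp => by have := hψ0 p hp; linarith).trans ?_
          have h6 : (Real.log y) ^ 4 = Real.exp (4 * Real.log (Real.log y)) := by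
            rw [mul_comm, Real.exp_mul, Real.exp_log hly]
            norm_num
          rw [h6, ← Real.exp_add, Real.exp_le_exp]
          have h7 : ∑ p ∈ PS z y, ψ p ≤ (w * Real.log (Real.log y) + B) * Real.exp 1 := by
            calc ∑ p ∈ PS z y, ψ p ≤ ∑ p ∈ PS z y, φ p * Real.exp 1 := Finset.sum_le_sum hψe
              _ = (∑ p ∈ PS z y, φ p) * Real.exp 1 := by rw [Finset.sum_mul]
              _ ≤ _ := mul_le_mul_of_nonneg_right (hsum y hy) (Real.exp_pos _).le
          have h8 : 0 ≤ Real.log (Real.log y) := Real.log_nonneg hly1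
          have h9 := Real.exp_one_lt_d9
          have h10 : w * Real.exp 1 ≤ 4 := by nlinarith [Real.exp_pos 1]
          have h11 : w * Real.log (Real.log y) * Real.exp 1 ≤ 4 * Real.log (Real.log y) := by
            calc w * Real.log (Real.log y) * Real.exp 1 = (w * Real.exp 1) * Real.log (Real.log y) := by ring
              _ ≤ _ := mul_le_mul_of_nonneg_right h10 h8
          have h12 : B * Real.exp 1 ≤ 3 * B := by nlinarith
          linarith
      _ = _ := by ring

/-- the local weight -/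
lemma gweight_le {D : ℤ} {w : ℝ} {c A z p : ℕ} (hw : 0 < w) (hw2 : w ≤ 1 / 2)
    (hz : 2 * c + 2 ≤ z) (hp : z < p) :
    0 ≤ w * (1 + Jr D p) / ((p : ℝ) - c) * (1 + (A : ℝ) / (p : ℝ)) ∧
    w * (1 + Jr D p) / ((p : ℝ) - c) * (1 + (A : ℝ) / (p : ℝ)) ≤
      w * ((1 + Jr D p) / p) + 2 * (A + c) * (1 / (p : ℝ) ^ 2) := by
  have hp1 : (2 * c + 3 : ℝ) ≤ p := by exact_mod_cast (by omega : 2 * c + 3 ≤ p)
  have hc : (0:ℝ) ≤ c := Nat.cast_nonneg c
  have hA : (0:ℝ) ≤ A := Nat.cast_nonneg A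
  have hp0 : (0:ℝ) < p := by linarith
  have hpc : (0:ℝ) < (p : ℝ) - c := by linarith
  have hJ0 := one_add_Jr_nonneg D p
  have hJ1 := one_add_Jr_le D p
  set W := w * (1 + Jr D p) with hW
  have hW0 : 0 ≤ W := mul_nonneg hw.le hJ0
  have hW1 : W ≤ 1 := by nlinarith
  constructor
  · positivity
  · have h1 : W / ((p : ℝ) - c) * (1 + (A : ℝ) / (p : ℝ)) =
        w * ((1 + Jr D p) / p) + W * ((A + c) / (p * (p - c))) := by
      rw [hW]
      field_simp
      ring
    rw [h1]
    have h2 : W * ((A + c) / (p * (p - c))) ≤ 1 * ((A + c) / (p * (p - c))) :=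
      mul_le_mul_of_nonneg_right hW1 (by positivity)
    have h3 : (A + c) / (p * (p - c)) ≤ 2 * (A + c) * (1 / (p : ℝ) ^ 2) := by
      rw [mul_one_div, div_le_div_iff₀ (by positivity) (by positivity)]
      have h4 : (p : ℝ) ^ 2 ≤ 2 * (p * (p - c)) := by nlinarith
      have h5 := mul_le_mul_of_nonneg_left h4 (by positivity : (0 : ℝ) ≤ A + c)
      linarith
    linarith

lemma gr_hA_eq (D : ℤ) (w : ℝ) (c A d : ℕ) : gr D w c d * hA A d =
    ∏ p ∈ d.primeFactors, (w * (1 + Jr D p) / ((p : ℝ) - c) * (1 + (A : ℝ) / (p : ℝ))) := by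
  unfold gr hA
  rw [Finset.prod_mul_distrib]

/-- the sum of `(D / p) / p` is bounded above -/
def Gdc (D : ℤ) : Prop := ∀ z : ℕ, 2 ≤ z → ∃ C : ℝ, ∀ y, z < y →
  ∑ p ∈ PS z y, Jr D p / (p : ℝ) ≤ C

/-- the sum of `χ₄(p) (1 + (D / p)) / p` is bounded above -/
def Gdn (D : ℤ) : Prop := ∀ z : ℕ, 2 ≤ z → ∃ C : ℝ, ∀ y, z < y →
  ∑ p ∈ PS z y, x4 true p * (1 + Jr D p) / (p : ℝ) ≤ C

lemma Jr_zero_of_prime {p : ℕ} (hp : p.Prime) : Jr 0 p = 0 := by
  unfold Jr
  rw [jacobiSym.zero_left hp.one_lt]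
  simp

lemma gdc0 : Gdc 0 := by
  intro z _
  refine ⟨0, fun y _ => le_of_eq (sum_eq_zero fun p hp => ?_)⟩
  rw [Jr_zero_of_prime (mem_PS.1 hp).2, zero_div]

lemma gdc2 : Gdc 2 := fun z hz => fx2 z hz

lemma gdc1 : Gdc (-1) := fun z hz => fx1 z hz

lemma gdn2 : Gdn 2 := by
  intro z hz
  obtain ⟨C1, h1⟩ := Pool.Agent.W216.RT.UB4.ub4 z
  obtain ⟨C2, h2⟩ := fx3 z hz
  refine ⟨C1 + C2, fun y hy => ?_⟩
  have h3 : ∑ p ∈ PS z y, x4 true p * (1 + Jr 2 p) / (p : ℝ) =
      ∑ p ∈ PS z y, x4 true p / (p : ℝ) + ∑ p ∈ PS z y, x4 true p * Jr 2 p / (p : ℝ) := by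
    rw [← sum_add_distrib]
    apply sum_congr rfl
    intro p _
    ring
  rw [h3]
  exact add_le_add (h1 y hy) (h2 y hy)

/-- the trivial bound of the sum over the primes -/
lemma mer_gr {D : ℤ} (hD : Gdc D) {z : ℕ} (hz : 2 ≤ z) : ∃ C : ℝ, 0 ≤ C ∧ ∀ y, z < y →
    ∑ p ∈ PS z y, (1 + Jr D p) / (p : ℝ) ≤ Real.log (Real.log y) + C := by
  obtain ⟨C0, hC0, hmer⟩ := mertens
  obtain ⟨C1, h1⟩ := hD z hz
  refine ⟨C0 + |C1|, by positivity, fun y hy => ?_⟩
  have h2 : ∑ p ∈ PS z y, (1 + Jr D p) / (p : ℝ) =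
      ∑ p ∈ PS z y, 1 / (p : ℝ) + ∑ p ∈ PS z y, Jr D p / (p : ℝ) := by
    rw [← sum_add_distrib]
    apply sum_congr rfl
    intro p _
    ring
  rw [h2]
  have h3 := hmer z y (by omega)
  have h4 := h1 y hy
  have h5 := le_abs_self C1
  linarith

/-- FULL for the weights with characters -/
theorem fullr (D : ℤ) (hD : Gdc D) (w : ℝ) (c A : ℕ) (hw : 0 < w) (hw2 : w ≤ 1 / 2) :
    ∀ z, 2 * c + 2 ≤ z → ∃ C : ℝ,
    (∀ y, z < y → ∑ d ∈ (PP z y).divisors, gr D w c d * hA A d ≤ C * (Real.log y) ^ w) ∧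
    (∀ y V : ℕ, z < y → 2 ≤ V →
      ∑ d ∈ (PP z y).divisors.filter (fun d => d ≤ V), gr D w c d * hA A d ≤
        C * (Real.log V) ^ w) ∧
    (∀ y Y : ℕ, z < y → 1 ≤ Y →
      ∑ d ∈ (PP z y).divisors.filter (fun d => Y < d), gr D w c d * hA A d ≤
        C * Real.exp (-(Real.log Y / Real.log y)) * (Real.log y) ^ 4) := by
  intro z hz
  obtain ⟨K, hK, hsq⟩ := sum_inv_sq
  obtain ⟨C0, hC0, hmer⟩ := mer_gr hD (by omega : 2 ≤ z)
  have hfull := full_gen (w := w) (B := w * C0 + 2 * (A + c) * K) (z := z)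
    (φ := fun p => w * (1 + Jr D p) / ((p : ℝ) - c) * (1 + (A : ℝ) / (p : ℝ))) hw hw2 (by omega)
    (by positivity) (fun y p hp => (gweight_le hw hw2 hz (PS_lt hp)).1) (by
      intro y hy
      calc _ ≤ ∑ p ∈ PS z y, (w * ((1 + Jr D p) / p) + 2 * (A + c) * (1 / (p : ℝ) ^ 2)) :=
            Finset.sum_le_sum fun p hp => (gweight_le hw hw2 hz (PS_lt hp)).2
        _ = w * ∑ p ∈ PS z y, (1 + Jr D p) / (p : ℝ) +
            2 * (A + c) * ∑ p ∈ PS z y, 1 / (p : ℝ) ^ 2 := by
            rw [Finset.sum_add_distrib, Finset.mul_sum, Finset.mul_sum]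
        _ ≤ w * (Real.log (Real.log y) + C0) + 2 * (A + c) * K := by
            refine add_le_add (mul_le_mul_of_nonneg_left (hmer y hy) hw.le)
              (mul_le_mul_of_nonneg_left (hsq _) (by positivity))
        _ = _ := by ring)
  refine ⟨Real.exp (3 * (w * C0 + 2 * (A + c) * K + 1)), ?_, ?_, ?_⟩
  · intro y hy
    simp only [gr_hA_eq]
    exact hfull.1 y hy
  · intro y V hy hV
    simp only [gr_hA_eq]
    exact hfull.2.1 y V hy hV
  · intro y Y hy hY
    simp only [gr_hA_eq]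
    exact hfull.2.2 y Y hy hY

/-- UB for the weights with characters -/
theorem ubr (hub : UB) (κ D : ℤ) (z : ℕ) (hκ : κ ≠ 0) (hz : 2 ≤ z) (h1 : κ.natAbs ≤ z)
    (h2 : (κ * D).natAbs ≤ z) : ∃ C : ℝ, 0 ≤ C ∧ ∀ (y r : ℕ) (e : Bool), z < y → 1 < r →
    Squarefree r → (∀ p : ℕ, p.Prime → p ∣ r → z < p) →
    ∑ p ∈ PS z y, Jr p r * Jr κ p * x4 e p * (1 + Jr D p) / (p : ℝ) ≤
      2 * Real.log (Real.log r) + C := by
  obtain ⟨C1, hC1⟩ := hub κ z hκ hz h1
  have hr3 : ∀ r : ℕ, 1 < r → (∀ p : ℕ, p.Prime → p ∣ r → z < p) →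
      0 ≤ Real.log (Real.log r) := by
    intro r hr hrp
    obtain ⟨p, hp, hpr⟩ := Nat.exists_prime_and_dvd (by omega : r ≠ 1)
    have h1 := hrp p hp hpr
    have h2 := Nat.le_of_dvd (by omega) hpr
    apply Real.log_nonneg
    rw [Real.le_log_iff_exp_le (by exact_mod_cast (by omega : 0 < r))]
    have := Real.exp_one_lt_d9
    have h3 : (3:ℝ) ≤ r := by exact_mod_cast (by omega : 3 ≤ r)
    linarith
  have hsplit : ∀ (y r : ℕ) (e : Bool),
      ∑ p ∈ PS z y, Jr p r * Jr κ p * x4 e p * (1 + Jr D p) / (p : ℝ) =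
      ∑ p ∈ PS z y, Jr p r * Jr κ p * x4 e p / (p : ℝ) +
        ∑ p ∈ PS z y, Jr p r * Jr (κ * D) p * x4 e p / (p : ℝ) := by
    intro y r e
    rw [← sum_add_distrib]
    apply sum_congr rfl
    intro p _
    rw [Pool.Agent.W307.RT.Jr_mul_left]
    ring
  by_cases hD : D = 0
  · refine ⟨|C1|, abs_nonneg _, fun y r e hy hr hs hp => ?_⟩
    rw [hsplit, hD, mul_zero]
    have h3 : ∑ p ∈ PS z y, Jr p r * Jr 0 p * x4 e p / (p : ℝ) = 0 := by
      apply sum_eq_zero
      intro p hp
      rw [Jr_zero_of_prime (mem_PS.1 hp).2]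
      ring
    rw [h3, add_zero]
    have h4 := hC1 y r e hy hr hs hp
    have h5 := hr3 r hr hp
    have h6 := le_abs_self C1
    linarith
  · obtain ⟨C2, hC2⟩ := hub (κ * D) z (mul_ne_zero hκ hD) hz h2
    refine ⟨|C1| + |C2|, by positivity, fun y r e hy hr hs hp => ?_⟩
    rw [hsplit]
    have h4 := hC1 y r e hy hr hs hp
    have h5 := hC2 y r e hy hr hs hp
    have h6 := le_abs_self C1
    have h7 := le_abs_self C2
    linarith

/-- EP for the weights with characters -/
theorem epr (hub : UB) (w : ℝ) (c A : ℕ) (κ D : ℤ) (hw : 0 < w) (hw2 : w ≤ 1 / 2) (hκ : κ ≠ 0)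
    (hA2 : 2 ≤ A) : ∀ z, 2 * c + 2 + κ.natAbs + (κ * D).natAbs ≤ z →
    ∃ C : ℝ, ∀ (y R r : ℕ) (e : Bool), z < y → R ≠ 0 → 1 < r → Squarefree r →
    (∀ p : ℕ, p.Prime → p ∣ r → z < p) →
    |∑ d ∈ (PP z y).divisors.filter (fun d => d.Coprime R),
        gr D w c d * (Jr d r * Jr κ d * x4 e d)| ≤ C * Real.log r * hA A R := by
  intro z hz
  obtain ⟨K, hK, hsq⟩ := sum_inv_sq
  have hzc : 2 * c + 2 ≤ z := by omega
  have hz2 : 2 ≤ z := by omega
  obtain ⟨C, hC0, hC⟩ := ubr hub κ D z hκ hz2 (by omega) (by omega)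
  refine ⟨Real.exp (w * C + 2 * c * K), fun y R r e hy hR hr hrs hrp => ?_⟩
  classical
  have hr3 : 3 ≤ r := by
    obtain ⟨p, hp, hpr⟩ := Nat.exists_prime_and_dvd (by omega : r ≠ 1)
    have h1 := hrp p hp hpr
    have h2 := Nat.le_of_dvd (by omega) hpr
    omega
  have hlr1 : 1 ≤ Real.log r := by
    rw [Real.le_log_iff_exp_le (by exact_mod_cast (by omega : 0 < r))]
    have := Real.exp_one_lt_d9
    have h3 : (3:ℝ) ≤ r := by exact_mod_cast hr3
    linarith
  have hlr : 0 < Real.log r := by linarith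
  set S' := (PS z y).filter (fun p => ¬ p ∣ R) with hS'
  have hS'p : ∀ p ∈ S', p.Prime := fun p hp => PS_prime (mem_filter.1 hp).1
  have hset : (PP z y).divisors.filter (fun d => d.Coprime R) = (∏ p ∈ S', p).divisors := by
    have hsq1 := prod_primes_squarefree (PS z y) fun p hp => PS_prime hp
    have hsq2 := prod_primes_squarefree S' hS'p
    ext d
    rw [mem_filter, Nat.mem_divisors, Nat.mem_divisors]
    constructor
    · rintro ⟨⟨hd, -⟩, hc⟩
      refine ⟨?_, hsq2.ne_zero⟩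
      have hsd : Squarefree d := hsq1.squarefree_of_dvd hd
      rw [← Nat.prod_primeFactors_of_squarefree hsd]
      refine Finset.prod_dvd_prod_of_subset _ _ _ fun p hp => ?_
      have hpp := Nat.prime_of_mem_primeFactors hp
      have hpd := Nat.dvd_of_mem_primeFactors hp
      have h1 : p ∈ PS z y := by
        rw [← Nat.primeFactors_prod (s := PS z y) fun p hp => PS_prime hp]
        exact Nat.primeFactors_mono hd hsq1.ne_zero hp
      refine mem_filter.2 ⟨h1, fun hpR => ?_⟩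
      have := Nat.dvd_gcd hpd hpR
      rw [hc.gcd_eq_one] at this
      exact hpp.one_lt.ne' (Nat.dvd_one.1 this)
    · rintro ⟨hd, -⟩
      refine ⟨⟨hd.trans (Finset.prod_dvd_prod_of_subset _ _ _ (filter_subset _ _)),
        hsq1.ne_zero⟩, ?_⟩
      refine Nat.Coprime.coprime_dvd_left hd ?_
      exact Nat.Coprime.prod_left fun p hp =>
        ((hS'p p hp).coprime_iff_not_dvd).2 (mem_filter.1 hp).2
  set φ : ℕ → ℝ := fun p => w * (1 + Jr D p) / ((p : ℝ) - c) * chr κ r e p with hφ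
  have hsum : ∑ d ∈ (PP z y).divisors.filter (fun d => d.Coprime R),
      gr D w c d * (Jr d r * Jr κ d * x4 e d) = ∏ p ∈ S', (1 + φ p) := by
    rw [hset, ← sum_mult S' hS'p φ]
    refine Finset.sum_congr rfl fun d hd => ?_
    have hsd : Squarefree d :=
      (prod_primes_squarefree S' hS'p).squarefree_of_dvd (Nat.dvd_of_mem_divisors hd)
    show gr D w c d * chr κ r e d = _
    have h1 : chr κ r e d = ∏ p ∈ d.primeFactors, chr κ r e p := by
      rw [← chr_prod κ r e _ fun p hp => Nat.prime_of_mem_primeFactors hp,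
        Nat.prod_primeFactors_of_squarefree hsd]
    rw [h1, gr, ← Finset.prod_mul_distrib]
  rw [hsum]
  have hp3 : ∀ p ∈ PS z y, (2 * c + 3 : ℝ) ≤ p := fun p hp => by
    have := PS_lt hp
    exact_mod_cast (by omega : 2 * c + 3 ≤ p)
  have hc0 : (0:ℝ) ≤ c := Nat.cast_nonneg c
  have hW : ∀ p : ℕ, 0 ≤ w * (1 + Jr D p) ∧ w * (1 + Jr D p) ≤ 1 := fun p => by
    have h1 := one_add_Jr_nonneg D p
    have h2 := one_add_Jr_le D p
    constructor
    · positivity
    · nlinarith
  have hfac : ∀ p ∈ S', 0 ≤ 1 + φ p := by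
    intro p hp
    have h1 := hp3 p (mem_filter.1 hp).1
    have h2 : 0 < (p : ℝ) - c := by linarith
    have hWp := hW p
    have h3 : w * (1 + Jr D p) / ((p : ℝ) - c) ≤ 1 := by
      rw [div_le_one h2]
      linarith
    have h4 := (abs_le.1 (chr_abs κ r e p)).1
    have h5 : 0 ≤ w * (1 + Jr D p) / ((p : ℝ) - c) := div_nonneg hWp.1 h2.le
    simp only [hφ]
    nlinarith
  rw [abs_of_nonneg (Finset.prod_nonneg hfac)]
  refine (prod_le_exp S' φ hfac).trans ?_
  -- the exponent
  have hterm : ∀ p ∈ S', φ p ≤ w * (chr κ r e p * (1 + Jr D p) / p) +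
      2 * c * (1 / (p : ℝ) ^ 2) := by
    intro p hp
    have h1 := hp3 p (mem_filter.1 hp).1
    have h2 : 0 < (p : ℝ) - c := by linarith
    have hp0 : (0:ℝ) < p := by linarith
    have h4 := (abs_le.1 (chr_abs κ r e p)).2
    have hWp := hW p
    simp only [hφ]
    have h5 : w * (1 + Jr D p) / ((p : ℝ) - c) * chr κ r e p =
        w * (chr κ r e p * (1 + Jr D p) / p) +
          (w * (1 + Jr D p)) * (c / (p * (p - c))) * chr κ r e p := by
      field_simp
      ring
    rw [h5]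
    have h6 : 0 ≤ (c : ℝ) / (p * (p - c)) := by positivity
    have h7 : (c : ℝ) / (p * (p - c)) ≤ 2 * c * (1 / (p : ℝ) ^ 2) := by
      rw [mul_one_div, div_le_div_iff₀ (by positivity) (by positivity)]
      have h8 : (p : ℝ) ^ 2 ≤ 2 * (p * (p - c)) := by nlinarith
      have h9 := mul_le_mul_of_nonneg_left h8 hc0
      linarith
    have h8 : (w * (1 + Jr D p)) * (c / (p * (p - c))) * chr κ r e p ≤ c / (p * (p - c)) := by
      have a1 : 0 ≤ (w * (1 + Jr D p)) * (c / (p * (p - c))) := mul_nonneg hWp.1 h6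
      calc (w * (1 + Jr D p)) * (c / (p * (p - c))) * chr κ r e p
          ≤ (w * (1 + Jr D p)) * (c / (p * (p - c))) * 1 := mul_le_mul_of_nonneg_left h4 a1
        _ = (w * (1 + Jr D p)) * (c / (p * (p - c))) := mul_one _
        _ ≤ 1 * (c / (p * (p - c))) := mul_le_mul_of_nonneg_right hWp.2 h6
        _ = _ := one_mul _
    linarith
  have hexp : ∑ p ∈ S', φ p ≤ w * (2 * Real.log (Real.log r) + C) + 2 * c * K +
      ∑ p ∈ (PS z y).filter (fun p => p ∣ R), 1 / (p : ℝ) := by
    have hub' : ∑ p ∈ PS z y, chr κ r e p * (1 + Jr D p) / (p : ℝ) ≤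
        2 * Real.log (Real.log r) + C := hC y r e hy hr hrs hrp
    have hsplit := Finset.sum_filter_add_sum_filter_not (PS z y) (fun p => p ∣ R)
      (fun p => chr κ r e p * (1 + Jr D p) / (p : ℝ))
    have h2 : -∑ p ∈ (PS z y).filter (fun p => p ∣ R), 2 / (p : ℝ) ≤
        ∑ p ∈ (PS z y).filter (fun p => p ∣ R), chr κ r e p * (1 + Jr D p) / (p : ℝ) := by
      rw [← Finset.sum_neg_distrib]
      refine Finset.sum_le_sum fun p _ => ?_
      rw [← neg_div]
      apply div_le_div_of_nonneg_right _ (Nat.cast_nonneg p)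
      have a1 := (abs_le.1 (chr_abs κ r e p)).1
      have a2 := one_add_Jr_nonneg D p
      have a3 := one_add_Jr_le D p
      nlinarith
    have h3 : w * ∑ p ∈ (PS z y).filter (fun p => p ∣ R), 2 / (p : ℝ) ≤
        ∑ p ∈ (PS z y).filter (fun p => p ∣ R), 1 / (p : ℝ) := by
      rw [mul_sum]
      refine sum_le_sum fun p _ => ?_
      have : (0 : ℝ) ≤ 1 / (p : ℝ) := by positivity
      have e1 : w * (2 / (p : ℝ)) = (2 * w) * (1 / p) := by ring
      rw [e1]
      nlinarith
    calc ∑ p ∈ S', φ p ≤ ∑ p ∈ S', (w * (chr κ r e p * (1 + Jr D p) / p) +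
          2 * c * (1 / (p : ℝ) ^ 2)) := Finset.sum_le_sum hterm
      _ = w * ∑ p ∈ S', chr κ r e p * (1 + Jr D p) / p +
          2 * c * ∑ p ∈ S', 1 / (p : ℝ) ^ 2 := by
          rw [Finset.sum_add_distrib, Finset.mul_sum, Finset.mul_sum]
      _ ≤ w * ((2 * Real.log (Real.log r) + C) +
            ∑ p ∈ (PS z y).filter (fun p => p ∣ R), 2 / (p : ℝ)) + 2 * c * K := by
          apply add_le_add _ (mul_le_mul_of_nonneg_left (hsq _) (by positivity))
          apply mul_le_mul_of_nonneg_left _ hw.le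
          linarith
      _ ≤ _ := by
          rw [mul_add]
          linarith
  have hhh : Real.exp (∑ p ∈ (PS z y).filter (fun p => p ∣ R), 1 / (p : ℝ)) ≤ hA A R := by
    rw [Real.exp_sum]
    unfold hA
    have hsub : (PS z y).filter (fun p => p ∣ R) ⊆ R.primeFactors := by
      intro p hp
      rw [mem_filter] at hp
      exact Nat.mem_primeFactors.2 ⟨PS_prime hp.1, hp.2, hR⟩
    calc ∏ p ∈ (PS z y).filter (fun p => p ∣ R), Real.exp (1 / (p : ℝ))
        ≤ ∏ p ∈ (PS z y).filter (fun p => p ∣ R), (1 + (A : ℝ) / (p : ℝ)) := by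
          refine Finset.prod_le_prod (fun p _ => (Real.exp_pos _).le) fun p hp => ?_
          have h1 := hp3 p (mem_filter.1 hp).1
          have hp0 : (0:ℝ) < p := by linarith
          have h2 : 1 / (p : ℝ) ≤ 1 / 2 := by
            rw [div_le_div_iff₀ hp0 (by norm_num)]
            linarith
          refine (exp_small _ (by positivity) h2).trans ?_
          have h4 : 2 * (1 / (p : ℝ)) ≤ (A : ℝ) / p := by
            rw [mul_one_div]
            exact div_le_div_of_nonneg_right (by exact_mod_cast hA2) hp0.le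
          linarith
      _ ≤ ∏ p ∈ R.primeFactors, (1 + (A : ℝ) / (p : ℝ)) := by
          refine Finset.prod_le_prod_of_subset_of_one_le hsub (fun p _ => by positivity)
            fun p _ _ => ?_
          have : (0:ℝ) ≤ (A : ℝ) / (p : ℝ) := by positivity
          linarith
  have hlast : Real.exp (w * (2 * Real.log (Real.log r))) ≤ Real.log r := by
    have h0 : 0 ≤ Real.log (Real.log r) := Real.log_nonneg hlr1
    calc Real.exp (w * (2 * Real.log (Real.log r))) ≤ Real.exp (Real.log (Real.log r)) := by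
          apply Real.exp_le_exp.2
          nlinarith
      _ = Real.log r := Real.exp_log hlr
  calc Real.exp (∑ p ∈ S', φ p) ≤ Real.exp (w * (2 * Real.log (Real.log r) + C) + 2 * c * K +
        ∑ p ∈ (PS z y).filter (fun p => p ∣ R), 1 / (p : ℝ)) := Real.exp_le_exp.2 hexp
    _ = Real.exp (w * C + 2 * c * K) * Real.exp (w * (2 * Real.log (Real.log r))) *
        Real.exp (∑ p ∈ (PS z y).filter (fun p => p ∣ R), 1 / (p : ℝ)) := by
        rw [← Real.exp_add, ← Real.exp_add]
        congr 1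
        ring
    _ ≤ Real.exp (w * C + 2 * c * K) * Real.log r * hA A R :=
        mul_le_mul (mul_le_mul_of_nonneg_left hlast (Real.exp_pos _).le) hhh
          (Real.exp_pos _).le (by positivity)

end Pool.Agent.V7H45.G8
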