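import Mathlib
import Pool.Agent.W307.RT.Stm
import Pool.Agent.V7H45.G8.Gr

/-! The forms of the family `Z/2 x Z/8`. -/

set_option autoImplicit false

namespace Pool.Agent.V7H45.G8

open Finset Pool.Agent.W262.RK Pool.Agent.W307.RT

/-- the forms for `Z/2 x Z/8` -/
def M8 (a b : ℤ) : ℤ := (2 * a * b) ^ 4

/-- the forms for `Z/2 x Z/8` -/
def N8 (a b : ℤ) : ℤ := (a ^ 2 - b ^ 2) ^ 4

/-- the classes -/
def c8 : Fin 7 → Fin 4 := ![0, 0, 1, 1, 2, 2, 2]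

/-- the multiplicities -/
def m8 : Fin 7 → ℕ := ![4, 4, 4, 4, 1, 1, 2]

/-- the discriminants -/
def D8 : Fin 7 → ℤ := ![0, 0, 0, 0, 2, 2, -1]

/-- the constants -/
def κ8 : Fin 7 → ℤ := ![1, 1, 1, 1, -1, -1, -1]

/-- the constant factors -/
def a8 : Fin 3 → ℤ := ![-16, -1, 1]

/-- the forms -/
def f8 (a b : ℤ) : Fin 7 → ℤ :=
  ![a, b, a - b, a + b, a ^ 2 - 2 * a * b - b ^ 2, a ^ 2 + 2 * a * b - b ^ 2, a ^ 2 + b ^ 2]

lemma fc80 : fc c8 0 = {0, 1} := by decide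
lemma fc81 : fc c8 1 = {2, 3} := by decide
lemma fc82 : fc c8 2 = {4, 5, 6} := by decide

lemma FM80 (a b : ℤ) : FM c8 a8 m8 (f8 a b) 0 = -(M8 a b) := by
  unfold FM M8
  rw [fc80, prod_pair (by decide)]
  change (-16 : ℤ) * (a ^ 4 * b ^ 4) = _
  ring

lemma FM81 (a b : ℤ) : FM c8 a8 m8 (f8 a b) 1 = -(N8 a b) := by
  unfold FM N8
  rw [fc81, prod_pair (by decide)]
  change (-1 : ℤ) * ((a - b) ^ 4 * (a + b) ^ 4) = _
  ring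

lemma FM82 (a b : ℤ) : FM c8 a8 m8 (f8 a b) 2 = -(M8 a b) + N8 a b := by
  unfold FM M8 N8
  rw [fc82, prod_insert (by decide), prod_pair (by decide)]
  change (1 : ℤ) * ((a ^ 2 - 2 * a * b - b ^ 2) ^ 1 * ((a ^ 2 + 2 * a * b - b ^ 2) ^ 1 *
    (a ^ 2 + b ^ 2) ^ 2)) = _
  ring

lemma FM8_sub (a b : ℤ) : FM c8 a8 m8 (f8 a b) 0 - FM c8 a8 m8 (f8 a b) 1 =
    FM c8 a8 m8 (f8 a b) 2 := by
  rw [FM80, FM81, FM82]
  ring

end Pool.Agent.V7H45.G8
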