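import Pool.Agent.W583.RT.FSB
import Pool.Agent.V7H45.G8.R1

/-!
# Sums over tuples of coprime divisors with weights up to one, and with weights `1 + (D / p)`
(adapted from `W583.RT.FSB`)
-/

set_option autoImplicit false

namespace Pool.Agent.V7H45.G8

open Finset Pool.Agent.W262.RK Pool.Agent.W307.RT Pool.Agent.W583.RT

set_option linter.unusedSectionVars false

theorem fsb1 (ι : Type) [Fintype ι] [DecidableEq ι] (w : ι → ℝ) (c : ℕ)
    (hw : ∀ i, 0 < w i ∧ w i ≤ 1) : ∃ z0 A : ℕ, 2 ≤ A ∧ ∀ z, z0 ≤ z → ∃ C : ℝ, 1 ≤ C ∧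
    ∀ (y R : ℕ) (W : Finset ι) (ψ φ : ι → ℕ → ℝ) (B : ι → ℝ), z < y → R ≠ 0 →
    (∀ i ∈ W, ψ i 1 = 1) → (∀ i ∈ W, ∀ m n, m * n ∣ PP z y → ψ i (m * n) = ψ i m * ψ i n) →
    (∀ i ∈ W, ∀ p, |φ i p| ≤ 1) → (∀ i ∈ W, ∀ p ∈ PS z y, ¬ p ∣ R → ψ i p = φ i p) →
    (∀ i ∈ W, ∑ p ∈ PS z y, φ i p / (p : ℝ) ≤ B i) →
      |∑ d ∈ (Tup ι z y).filter (fun d => (∀ i, (d i).Coprime R) ∧ ∀ i, i ∉ W → d i = 1),
        ∏ i ∈ W, (gw (w i) c (d i) * ψ i (d i))| ≤
        C * Real.exp (∑ i ∈ W, w i * B i) * ∏ p ∈ R.primeFactors, (1 + (A : ℝ) / (p : ℝ)) := by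
  classical
  set n : ℕ := Fintype.card ι with hn
  refine ⟨2 * c + 2 * n + 2, 2 * n + 2, by omega, fun z hz =>
    ⟨Real.exp (2 * (n * c)), Real.one_le_exp (by positivity), ?_⟩⟩
  intro y R W ψ φ B hzy hR hψ1 hψ hφ hψφ hB
  -- the primes
  set T : Finset ℕ := (PS z y).filter (fun p => ¬ p ∣ R) with hT
  set T' : Finset ℕ := (PS z y).filter (fun p => p ∣ R) with hT'
  have hTp : ∀ p ∈ T, p.Prime := fun p hp => (mem_PS.1 (mem_filter.1 hp).1).2
  have hdvd : (∏ p ∈ T, p) ∣ PP z y := prod_dvd_prod_of_subset _ _ _ (filter_subset _ _)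
  have hsq := PP_squarefree z y
  have hpr : ∀ p : ℕ, p.Prime → (p ∣ ∏ q ∈ T, q ↔ p ∈ T) := by
    intro p hp
    constructor
    · intro h
      obtain ⟨q, hq, hpq⟩ := (hp.prime.dvd_finsetProd_iff _).1 h
      rwa [(Nat.prime_dvd_prime_iff_eq hp (hTp q hq)).1 hpq]
    · intro h
      exact dvd_prod_of_mem _ h
  -- divisors coprime to `R`
  have hcop : ∀ d : ℕ, (d ∣ PP z y ∧ d.Coprime R) ↔ d ∣ ∏ p ∈ T, p := by
    intro d
    constructor
    · rintro ⟨h1, h2⟩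
      have hd := hsq.squarefree_of_dvd h1
      rw [← Nat.prod_primeFactors_of_squarefree hd]
      refine prod_dvd_prod_of_subset _ _ _ fun p hp => ?_
      have hp' := Nat.mem_primeFactors.1 hp
      rw [hT, mem_filter]
      refine ⟨(prime_dvd_PP hp'.1).1 (hp'.2.1.trans h1), fun h => ?_⟩
      exact Nat.Prime.not_coprime_iff_dvd.2 ⟨p, hp'.1, hp'.2.1, h⟩ h2
    · intro h
      refine ⟨h.trans hdvd, Nat.coprime_of_dvd fun k hk h2 h3 => ?_⟩
      exact (mem_filter.1 ((hpr k hk).1 (h2.trans h))).2 h3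
  have hE := euler T hTp W (fun i m => gw (w i) c m * ψ i m)
    (fun i hi => by rw [hψ1 i hi, gw_one, mul_one])
    (by
      intro i hi m k hmk
      have h1 := hmk.trans hdvd
      have h2 : m.Coprime k := Nat.coprime_of_squarefree_mul (hsq.squarefree_of_dvd h1)
      show gw (w i) c (m * k) * ψ i (m * k) = gw (w i) c m * ψ i m * (gw (w i) c k * ψ i k)
      rw [hψ i hi m k h1]
      have h3 : gw (w i) c (m * k) = gw (w i) c m * gw (w i) c k := by
        unfold gw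
        rw [Nat.Coprime.primeFactors_mul h2, prod_union h2.disjoint_primeFactors]
      rw [h3]
      ring)
    ((Tup ι z y).filter (fun d => (∀ i, (d i).Coprime R) ∧ ∀ i, i ∉ W → d i = 1))
    (by
      intro d
      rw [mem_filter]
      unfold Tup
      rw [mem_filter, Fintype.mem_piFinset]
      constructor
      · rintro ⟨⟨h1, h2⟩, h3, h4⟩
        exact ⟨fun i => (hcop _).1 ⟨Nat.dvd_of_mem_divisors (h1 i), h3 i⟩, h2, h4⟩
      · rintro ⟨h1, h2, h3⟩
        exact ⟨⟨fun i => Nat.mem_divisors.2 ⟨((hcop _).2 (h1 i)).1, PP_ne_zero _ _⟩, h2⟩,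
          fun i => ((hcop _).2 (h1 i)).2, h3⟩)
  rw [hE]
  -- the factors
  have hnW : (W.card : ℝ) ≤ n := by exact_mod_cast card_le_univ W
  have hpz : ∀ p ∈ PS z y, 2 * (c : ℝ) + 2 * n + 2 < (p : ℝ) := by
    intro p hp
    have h1 := (mem_PS.1 hp).1.1
    have h2 : 2 * c + 2 * n + 2 < p := by omega
    exact_mod_cast h2
  have hn0 : (0 : ℝ) ≤ n := Nat.cast_nonneg _
  have hc0 : (0 : ℝ) ≤ c := Nat.cast_nonneg _
  have hsumw : ∑ i ∈ W, w i ≤ n := by
    calc ∑ i ∈ W, w i ≤ ∑ _i ∈ W, (1 : ℝ) := sum_le_sum fun i _ => (hw i).2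
      _ = W.card * 1 := by rw [sum_const, nsmul_eq_mul]
      _ ≤ n := by linarith
  have hsumw0 : 0 ≤ ∑ i ∈ W, w i := sum_nonneg fun i _ => (hw i).1.le
  have hterm : ∀ p ∈ T, ∀ i ∈ W, gw (w i) c p * ψ i p = w i * (φ i p / ((p : ℝ) - c)) := by
    intro p hp i hi
    have hp' := mem_filter.1 hp
    rw [hψφ i hi p hp'.1 hp'.2]
    unfold gw
    rw [(hTp p hp).primeFactors, prod_singleton]
    ring
  have hfac : ∀ p ∈ T, (1 + ∑ i ∈ W, gw (w i) c p * ψ i p) =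
      1 + ∑ i ∈ W, w i * (φ i p / ((p : ℝ) - c)) := fun p hp => by
    rw [sum_congr rfl (hterm p hp)]
  have hpos : ∀ p ∈ T, 0 ≤ 1 + ∑ i ∈ W, w i * (φ i p / ((p : ℝ) - c)) := by
    intro p hp
    have hp1 := hpz p (mem_filter.1 hp).1
    have hpc : 0 < (p : ℝ) - c := by linarith
    have h1 : ∀ i ∈ W, -(w i / ((p : ℝ) - c)) ≤ w i * (φ i p / ((p : ℝ) - c)) := by
      intro i hi
      have h2 := (abs_le.1 (hφ i hi p)).1
      have h3 := (hw i).1
      have h4 : -(w i / ((p : ℝ) - c)) = w i * (-1 / ((p : ℝ) - c)) := by ring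
      rw [h4]
      exact mul_le_mul_of_nonneg_left (div_le_div_of_nonneg_right h2 hpc.le) h3.le
    have h5 := sum_le_sum h1
    rw [sum_neg_distrib, ← sum_div] at h5
    have h6 : (∑ i ∈ W, w i) / ((p : ℝ) - c) ≤ 1 := by
      rw [div_le_one hpc]
      linarith
    linarith
  have hprod : ∏ p ∈ T, (1 + ∑ i ∈ W, gw (w i) c p * ψ i p) =
      ∏ p ∈ T, (1 + ∑ i ∈ W, w i * (φ i p / ((p : ℝ) - c))) := prod_congr rfl hfac
  rw [hprod, abs_of_nonneg (prod_nonneg hpos)]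
  have hle1 : ∏ p ∈ T, (1 + ∑ i ∈ W, w i * (φ i p / ((p : ℝ) - c))) ≤
      Real.exp (∑ i ∈ W, w i * ∑ p ∈ T, φ i p / ((p : ℝ) - c)) := by
    have h1 : ∑ i ∈ W, w i * ∑ p ∈ T, φ i p / ((p : ℝ) - c) =
        ∑ p ∈ T, ∑ i ∈ W, w i * (φ i p / ((p : ℝ) - c)) := by
      rw [sum_comm]
      exact sum_congr rfl fun i _ => by rw [mul_sum]
    rw [h1, Real.exp_sum]
    refine prod_le_prod hpos fun p _ => ?_
    have := Real.add_one_le_exp (∑ i ∈ W, w i * (φ i p / ((p : ℝ) - c)))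
    linarith
  refine hle1.trans ?_
  -- the exponent
  have hsum1 : ∀ i ∈ W, ∑ p ∈ T, φ i p / ((p : ℝ) - c) ≤
      B i + ∑ p ∈ T', 1 / (p : ℝ) + 2 * c := by
    intro i hi
    have h1 : ∑ p ∈ PS z y, φ i p / (p : ℝ) = ∑ p ∈ T', φ i p / (p : ℝ) +
        ∑ p ∈ T, φ i p / (p : ℝ) := (sum_filter_add_sum_filter_not _ _ _).symm
    have h2 : -∑ p ∈ T', 1 / (p : ℝ) ≤ ∑ p ∈ T', φ i p / (p : ℝ) := by
      rw [← sum_neg_distrib]
      refine sum_le_sum fun p _ => ?_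
      rw [← neg_div]
      exact div_le_div_of_nonneg_right (abs_le.1 (hφ i hi p)).1 (Nat.cast_nonneg _)
    have h3 : ∑ p ∈ T, φ i p / ((p : ℝ) - c) - ∑ p ∈ T, φ i p / (p : ℝ) ≤ 2 * c := by
      rw [← sum_sub_distrib]
      calc ∑ p ∈ T, (φ i p / ((p : ℝ) - c) - φ i p / (p : ℝ))
          ≤ ∑ p ∈ T, 2 * c * (1 / (p : ℝ) ^ 2) := by
            refine sum_le_sum fun p hp => ?_
            have hp1 := hpz p (mem_filter.1 hp).1
            have hpc : 0 < (p : ℝ) - c := by linarith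
            have hp0 : 0 < (p : ℝ) := by linarith
            have e1 : φ i p / ((p : ℝ) - c) - φ i p / (p : ℝ) =
                φ i p * (c / ((p : ℝ) * ((p : ℝ) - c))) := by
              field_simp
              ring
            rw [e1]
            have h4 : φ i p * (c / ((p : ℝ) * ((p : ℝ) - c))) ≤ 1 * (c / ((p : ℝ) * ((p : ℝ) - c))) :=
              mul_le_mul_of_nonneg_right (abs_le.1 (hφ i hi p)).2 (by positivity)
            refine h4.trans ?_
            rw [one_mul, mul_one_div, div_le_div_iff₀ (by positivity) (by positivity)]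
            nlinarith [mul_nonneg hc0 hp0.le, mul_nonneg (mul_nonneg hc0 hp0.le)
              (by linarith : (0 : ℝ) ≤ (p : ℝ) - 2 * c)]
        _ = 2 * c * ∑ p ∈ T, 1 / (p : ℝ) ^ 2 := by rw [mul_sum]
        _ ≤ 2 * c * 1 := by
            refine mul_le_mul_of_nonneg_left ?_ (by positivity)
            refine le_trans ?_ (tail_sq z y (by omega))
            exact sum_le_sum_of_subset_of_nonneg (filter_subset _ _) (fun _ _ _ => by positivity)
        _ = 2 * c := mul_one _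
    have h4 := hB i hi
    linarith
  have hE1 : ∑ i ∈ W, w i * ∑ p ∈ T, φ i p / ((p : ℝ) - c) ≤
      2 * (n * c) + ∑ i ∈ W, w i * B i + ∑ p ∈ T', (n : ℝ) * (1 / (p : ℝ)) := by
    have h0 : 0 ≤ ∑ p ∈ T', 1 / (p : ℝ) := sum_nonneg fun _ _ => by positivity
    calc ∑ i ∈ W, w i * ∑ p ∈ T, φ i p / ((p : ℝ) - c)
        ≤ ∑ i ∈ W, w i * (B i + ∑ p ∈ T', 1 / (p : ℝ) + 2 * c) :=
          sum_le_sum fun i hi => mul_le_mul_of_nonneg_left (hsum1 i hi) (hw i).1.le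
      _ = ∑ i ∈ W, w i * B i + (∑ i ∈ W, w i) * (∑ p ∈ T', 1 / (p : ℝ) + 2 * c) := by
          rw [sum_mul, ← sum_add_distrib]
          exact sum_congr rfl fun i _ => by ring
      _ ≤ ∑ i ∈ W, w i * B i + n * (∑ p ∈ T', 1 / (p : ℝ) + 2 * c) := by
          have := mul_le_mul_of_nonneg_right hsumw (by positivity :
            (0 : ℝ) ≤ ∑ p ∈ T', 1 / (p : ℝ) + 2 * c)
          linarith
      _ = _ := by rw [← mul_sum]; ring
  refine (Real.exp_le_exp.2 hE1).trans ?_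
  have hsub : T' ⊆ R.primeFactors := by
    intro p hp
    have hp' := mem_filter.1 hp
    exact Nat.mem_primeFactors.2 ⟨(mem_PS.1 hp'.1).2, hp'.2, hR⟩
  have hfin : Real.exp (∑ p ∈ T', (n : ℝ) * (1 / (p : ℝ))) ≤
      ∏ p ∈ R.primeFactors, (1 + ((2 * n + 2 : ℕ) : ℝ) / (p : ℝ)) := by
    rw [Real.exp_sum]
    calc ∏ p ∈ T', Real.exp (n * (1 / (p : ℝ))) ≤
          ∏ p ∈ T', (1 + ((2 * n + 2 : ℕ) : ℝ) / (p : ℝ)) := by
          refine prod_le_prod (fun _ _ => (Real.exp_pos _).le) fun p hp => ?_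
          have hp1 := hpz p (mem_filter.1 hp).1
          have hp0 : 0 < (p : ℝ) := by linarith
          refine (exp_le_one_add (by positivity) ?_).trans ?_
          · rw [mul_one_div, div_le_one hp0]
            linarith
          · have e1 : ((2 * n + 2 : ℕ) : ℝ) / (p : ℝ) = 2 * (n * (1 / (p : ℝ))) + 2 / p := by
              push_cast
              field_simp
            rw [e1]
            have : 0 ≤ 2 / (p : ℝ) := by positivity
            linarith
      _ ≤ (∏ p ∈ R.primeFactors \ T', (1 + ((2 * n + 2 : ℕ) : ℝ) / (p : ℝ))) *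
            ∏ p ∈ T', (1 + ((2 * n + 2 : ℕ) : ℝ) / (p : ℝ)) := by
          refine le_mul_of_one_le_left (prod_nonneg fun _ _ => by positivity) ?_
          refine one_le_prod fun p _ => ?_
          have : (0 : ℝ) ≤ ((2 * n + 2 : ℕ) : ℝ) / (p : ℝ) := by positivity
          show (1 : ℝ) ≤ 1 + ((2 * n + 2 : ℕ) : ℝ) / (p : ℝ)
          linarith
      _ = ∏ p ∈ R.primeFactors, (1 + ((2 * n + 2 : ℕ) : ℝ) / (p : ℝ)) := prod_sdiff hsub
  rw [Real.exp_add, Real.exp_add]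
  exact mul_le_mul_of_nonneg_left hfin (by positivity)


/-- the weights with characters -/
theorem fsr (ι : Type) [Fintype ι] [DecidableEq ι] (Δ : ι → ℤ) (w : ι → ℝ) (c : ℕ)
    (hw : ∀ i, 0 < w i ∧ w i ≤ 1 / 2) : ∃ z0 A : ℕ, 2 ≤ A ∧ ∀ z, z0 ≤ z → ∃ C : ℝ, 1 ≤ C ∧
    FS Δ w c z A C := by
  obtain ⟨z0, A, hA2, h⟩ := fsb1 ι (fun i => 2 * w i) c (fun i => by
    have := hw i
    constructor <;> linarith)
  refine ⟨z0, A, hA2, fun z hz => ?_⟩
  obtain ⟨C, hC1, hC⟩ := h z hz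
  refine ⟨C, hC1, ?_⟩
  intro y R W ψ φ B hzy hR hψ1 hψ hφ hψφ hB
  have h1 := hC y R W (fun i m => (∏ p ∈ m.primeFactors, (1 + Jr (Δ i) p) / 2) * ψ i m)
    (fun i p => φ i p * ((1 + Jr (Δ i) p) / 2)) (fun i => B i / 2) hzy hR
    (fun i hi => by simp [hψ1 i hi])
    (fun i hi m n hmn => by
      have h2 : m.Coprime n :=
        Nat.coprime_of_squarefree_mul ((PP_squarefree z y).squarefree_of_dvd hmn)
      rw [hψ i hi m n hmn, Nat.Coprime.primeFactors_mul h2, prod_union h2.disjoint_primeFactors]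
      ring)
    (fun i hi p => by
      have h2 := hφ i hi p
      have h3 := one_add_Jr_nonneg (Δ i) p
      have h4 := one_add_Jr_le (Δ i) p
      rw [abs_mul, abs_of_nonneg (by linarith : 0 ≤ (1 + Jr (Δ i) p) / 2)]
      exact mul_le_one₀ h2 (by linarith) (by linarith))
    (fun i hi p hp hpR => by
      rw [(mem_PS.1 hp).2.primeFactors, prod_singleton, hψφ i hi p hp hpR]
      ring)
    (fun i hi => by
      have h2 := hB i hi
      have h3 : ∑ p ∈ PS z y, φ i p * ((1 + Jr (Δ i) p) / 2) / (p : ℝ) =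
          (∑ p ∈ PS z y, φ i p * (1 + Jr (Δ i) p) / (p : ℝ)) / 2 := by
        rw [sum_div]
        apply sum_congr rfl
        intro p _
        ring
      rw [h3]
      linarith)
  have h2 : ∑ i ∈ W, 2 * w i * (B i / 2) = ∑ i ∈ W, w i * B i :=
    sum_congr rfl fun i _ => by ring
  rw [h2] at h1
  refine le_trans (le_of_eq ?_) h1
  congr 1
  apply sum_congr rfl
  intro d _
  apply prod_congr rfl
  intro i _
  rw [gr_eq]
  ring

end Pool.Agent.V7H45.G8
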