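import Pool.Agent.V7H45.G8.Avg8
import Pool.Agent.V7H54.C8.Cnt8
import Pool.Agent.W307.RT.Fam

/-! The sum over a box for the family `Z/2 x Z/8`. -/

set_option autoImplicit false
set_option maxHeartbeats 400000

namespace Pool.Agent.V7H45.G8

open Finset Pool.Agent.W262.RK Pool.Agent.W307.RT Pool.Agent.V7H45.BF

/-- the number of the pairs -/
theorem cnt8T : CNT8 := by
  intro e he
  refine ⟨10, 22, fun z hz => ?_⟩
  obtain ⟨C, K, y0, hC, hK, h⟩ := Pool.Agent.V7H54.C8.cnt8 z hz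
  refine ⟨C, K, y0, hC, hK, fun X y Y hy0 hzy hX s hs v hv u hu hsvu => ?_⟩
  have h1 := h X y Y hy0 hzy hX e he s hs v hv u hu hsvu
  have e1 : ∏ j, (gw 1 10 (s j) *
      ∏ p ∈ (s j).primeFactors, (1 + Jr (Pool.Agent.V7H54.C8.D8 j) p)) =
      ∏ j, gr (D8 j) 1 10 (s j) := by
    apply prod_congr rfl
    intro j _
    unfold gw gr
    rw [← prod_mul_distrib]
    apply prod_congr rfl
    intro p _
    have : Pool.Agent.V7H54.C8.D8 j = D8 j := rfl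
    rw [this]
    ring
  have e2 : ∏ j, (2 : ℝ) ^ (u j).primeFactors.card / (u j : ℝ) =
      ∏ j, 2 ^ (u j).primeFactors.card * (1 / (u j : ℝ)) := by
    apply prod_congr rfl
    intro j _
    ring
  rw [e1, e2] at h1
  exact h1

lemma M8_neg (a b : ℤ) (e : ℤ) (he : e = 1 ∨ e = -1) : M8 (e * a) (e * b) = M8 a b := by
  rcases he with rfl | rfl <;> unfold M8 <;> ring

lemma N8_neg (a b : ℤ) (e : ℤ) (he : e = 1 ∨ e = -1) : N8 (e * a) (e * b) = N8 a b := by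
  rcases he with rfl | rfl <;> unfold N8 <;> ring

lemma f8_ne_zero {a b : ℤ} (h1 : M8 a b ≠ 0) (h2 : N8 a b ≠ 0) (h3 : M8 a b ≠ N8 a b)
    (j : Fin 7) : f8 a b j ≠ 0 := by
  have hcls : ∀ j, c8 j ≠ 3 := by decide
  have hm : ∀ j, 1 ≤ m8 j := by decide
  refine fv_ne_zero hcls hm (a := a8) ?_ j
  intro k
  fin_cases k
  · change FM c8 a8 m8 _ 0 ≠ 0
    rw [FM80]
    exact neg_ne_zero.2 h1
  · change FM c8 a8 m8 _ 1 ≠ 0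
    rw [FM81]
    exact neg_ne_zero.2 h2
  · change FM c8 a8 m8 _ 2 ≠ 0
    rw [FM82]
    intro h
    exact h3 (by linarith)

/-- **the sum over a box** -/
theorem box8 : ∃ C : ℝ, 0 ≤ C ∧ ∀ T : ℕ, 1 ≤ T → ∑ t ∈ (Box T).filter (fun t : ℤ × ℤ =>
      IsCoprime t.1 t.2 ∧ M8 t.1 t.2 ≠ 0 ∧ N8 t.1 t.2 ≠ 0 ∧ M8 t.1 t.2 ≠ N8 t.1 t.2),
      (2 : ℝ) ^ Module.finrank ℤ (EAB (-(M8 t.1 t.2)) (-(N8 t.1 t.2))).toAffine.Point ≤
        C * (T : ℝ) ^ 2 := by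
  classical
  obtain ⟨q, hq⟩ : ∃ q : ℕ, q = 2 := ⟨_, rfl⟩
  have hqz : (q : ℤ) = 2 := by rw [hq]; rfl
  set g : ℤ × ℤ → ℝ := fun t => if IsCoprime t.1 t.2 ∧ M8 t.1 (t.2 + q * t.1) ≠ 0 ∧
    N8 t.1 (t.2 + q * t.1) ≠ 0 ∧ M8 t.1 (t.2 + q * t.1) ≠ N8 t.1 (t.2 + q * t.1) then
    (2 : ℝ) ^ Module.finrank ℤ
      (EAB (-(M8 t.1 (t.2 + q * t.1))) (-(N8 t.1 (t.2 + q * t.1)))).toAffine.Point else 0 with hg
  have hg0 : ∀ t, 0 ≤ g t := by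
    intro t
    rw [hg]
    simp only
    split_ifs
    · positivity
    · exact le_rfl
  have hgc : ∀ t, g t ≠ 0 → IsCoprime t.1 t.2 := by
    intro t ht
    by_contra h
    apply ht
    rw [hg]
    simp only
    rw [if_neg (fun h' => h h'.1)]
  have hquad : ∀ e ∈ sgs, ∃ C : ℝ, ∀ X : ℕ, 1 ≤ X → ∑ t ∈ Icc 1 X ×ˢ Icc 1 X,
      g (e.1 * ((t.1 : ℕ) : ℤ), e.2 * ((t.2 : ℕ) : ℤ)) ≤ C * (X : ℝ) ^ 2 := by
    intro e he
    have he' := mem_sgs.1 he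
    have hee : e.1 * e.2 = 1 ∨ e.1 * e.2 = -1 := by
      rcases he'.1 with h3 | h3 <;> rcases he'.2 with h4 | h4 <;> rw [h3, h4] <;> simp
    have hsq : e.1 * e.1 = 1 := by
      rcases he'.1 with h3 | h3 <;> rw [h3] <;> norm_num
    obtain ⟨C, hC⟩ := avg8 cnt8T (e.1 * e.2) hee
    refine ⟨C, fun X hX => le_trans ?_ (hC X hX)⟩
    rw [sum_filter]
    apply sum_le_sum
    intro t _
    have hMe : M8 (e.1 * ((t.1 : ℕ) : ℤ)) (e.2 * ((t.2 : ℕ) : ℤ) + q * (e.1 * ((t.1 : ℕ) : ℤ))) =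
        M8 (t.1 : ℤ) (e.1 * e.2 * (t.2 : ℤ) + 2 * (t.1 : ℤ)) := by
      rw [← M8_neg (t.1 : ℤ) (e.1 * e.2 * (t.2 : ℤ) + 2 * (t.1 : ℤ)) e.1 he'.1, hqz]
      congr 1
      linear_combination (-(e.2 * ((t.2 : ℕ) : ℤ))) * hsq
    have hNe : N8 (e.1 * ((t.1 : ℕ) : ℤ)) (e.2 * ((t.2 : ℕ) : ℤ) + q * (e.1 * ((t.1 : ℕ) : ℤ))) =
        N8 (t.1 : ℤ) (e.1 * e.2 * (t.2 : ℤ) + 2 * (t.1 : ℤ)) := by
      rw [← N8_neg (t.1 : ℤ) (e.1 * e.2 * (t.2 : ℤ) + 2 * (t.1 : ℤ)) e.1 he'.1, hqz]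
      congr 1
      linear_combination (-(e.2 * ((t.2 : ℕ) : ℤ))) * hsq
    rw [hg]
    simp only
    rw [hMe, hNe]
    by_cases h : IsCoprime (e.1 * ((t.1 : ℕ) : ℤ)) (e.2 * ((t.2 : ℕ) : ℤ)) ∧
        M8 (t.1 : ℤ) (e.1 * e.2 * (t.2 : ℤ) + 2 * (t.1 : ℤ)) ≠ 0 ∧
        N8 (t.1 : ℤ) (e.1 * e.2 * (t.2 : ℤ) + 2 * (t.1 : ℤ)) ≠ 0 ∧
        M8 (t.1 : ℤ) (e.1 * e.2 * (t.2 : ℤ) + 2 * (t.1 : ℤ)) ≠
          N8 (t.1 : ℤ) (e.1 * e.2 * (t.2 : ℤ) + 2 * (t.1 : ℤ))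
    · rw [if_pos h, if_pos]
      refine ⟨?_, ?_⟩
      · have h1 := h.1
        rw [Int.isCoprime_iff_gcd_eq_one] at h1
        have h2 : Int.gcd (e.1 * ((t.1 : ℕ) : ℤ)) (e.2 * ((t.2 : ℕ) : ℤ)) = Nat.gcd t.1 t.2 := by
          rcases he'.1 with h3 | h3 <;> rcases he'.2 with h4 | h4 <;> rw [h3, h4] <;> simp
        rw [h2] at h1
        exact h1
      · intro j
        exact f8_ne_zero h.2.1 h.2.2.1 h.2.2.2 j
    · rw [if_neg h]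
      split_ifs
      · positivity
      · exact le_rfl
  choose! Ce hCe using hquad
  set D : ℝ := g (0, 1) + g (0, -1) + g (1, 0) + g (-1, 0) with hD
  have hD0 : 0 ≤ D := by
    have h1 := hg0 (0, 1)
    have h2 := hg0 (0, -1)
    have h3 := hg0 (1, 0)
    have h4 := hg0 (-1, 0)
    rw [hD]
    linarith
  have hS0 : 0 ≤ ∑ e ∈ sgs, |Ce e| := sum_nonneg fun _ _ => abs_nonneg _
  refine ⟨(∑ e ∈ sgs, |Ce e| + D) * ((q + 1 : ℕ) : ℝ) ^ 2, by positivity, fun T hT => ?_⟩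
  have h1 := box_shift g hg0 q T
  have h2 := box_le g hg0 hgc ((q + 1) * T)
  have hX1 : 1 ≤ (q + 1) * T := Nat.mul_pos (Nat.succ_pos q) hT
  have h3 : ∑ e ∈ sgs, ∑ t ∈ Icc 1 ((q + 1) * T) ×ˢ Icc 1 ((q + 1) * T),
      g (e.1 * ((t.1 : ℕ) : ℤ), e.2 * ((t.2 : ℕ) : ℤ)) ≤
      (∑ e ∈ sgs, |Ce e|) * (((q + 1) * T : ℕ) : ℝ) ^ 2 := by
    rw [sum_mul]
    apply sum_le_sum
    intro e he
    refine (hCe e he _ hX1).trans ?_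
    exact mul_le_mul_of_nonneg_right (le_abs_self _) (by positivity)
  have h4 : D ≤ D * (((q + 1) * T : ℕ) : ℝ) ^ 2 := by
    apply le_mul_of_one_le_right hD0
    apply one_le_pow₀
    exact_mod_cast hX1
  have h5 : ∑ t ∈ (Box T).filter (fun t : ℤ × ℤ =>
      IsCoprime t.1 t.2 ∧ M8 t.1 t.2 ≠ 0 ∧ N8 t.1 t.2 ≠ 0 ∧ M8 t.1 t.2 ≠ N8 t.1 t.2),
      (2 : ℝ) ^ Module.finrank ℤ (EAB (-(M8 t.1 t.2)) (-(N8 t.1 t.2))).toAffine.Point =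
      ∑ t ∈ Box T, g (t.1, t.2 - q * t.1) := by
    rw [sum_filter]
    apply sum_congr rfl
    intro t _
    have h6 : t.2 - q * t.1 + q * t.1 = t.2 := by ring
    have h7 : IsCoprime t.1 (t.2 - q * t.1) ↔ IsCoprime t.1 t.2 := by
      have : t.2 - q * t.1 = t.2 + (-(q : ℤ)) * t.1 := by ring
      rw [this]
      exact IsCoprime.add_mul_right_right_iff
    rw [hg]
    simp only
    rw [h6]
    simp only [h7]
  rw [h5]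
  calc _ ≤ _ := h1
    _ ≤ _ := h2
    _ ≤ (∑ e ∈ sgs, |Ce e|) * (((q + 1) * T : ℕ) : ℝ) ^ 2 +
        D * (((q + 1) * T : ℕ) : ℝ) ^ 2 := add_le_add h3 h4
    _ = _ := by
      push_cast
      ring

end Pool.Agent.V7H45.G8
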